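import Mathlib

set_option autoImplicit false

open MeasureTheory Filter Topology Complex Set

namespace Pool.Agent.Helper311.GB

noncomputable section

/-- Plurisubharmonic functions on an open set `Ω` of a complex normed space, with values in the
extended reals: upper semicontinuous, never `⊤`, and with the sub-mean value property over every
closed affine disc `a + ζ b` contained in `Ω` (the mean of an upper semicontinuous function over the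
circle is the infimum of the means of its continuous majorants). -/
def PSH {E : Type} [NormedAddCommGroup E] [NormedSpace ℂ E] (Ω : Set E) (u : E → EReal) : Prop :=
  UpperSemicontinuousOn u Ω ∧ (∀ z ∈ Ω, u z < ⊤) ∧
  ∀ a b : E, (∀ ζ : ℂ, ‖ζ‖ ≤ 1 → a + ζ • b ∈ Ω) → ∀ φ : ℂ → ℝ, Continuous φ →
    (∀ ζ : ℂ, ‖ζ‖ = 1 → u (a + ζ • b) ≤ ((φ ζ : ℝ) : EReal)) →
      u a ≤ ((Real.circleAverage φ 0 1 : ℝ) : EReal)

/-- The pluricomplex Green function of `Ω` with pole `w`, at the point `z`. -/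
def green {E : Type} [NormedAddCommGroup E] [NormedSpace ℂ E] (Ω : Set E) (w z : E) : EReal :=
  sSup {t : EReal | ∃ u : E → EReal, PSH Ω u ∧ (∀ s ∈ Ω, u s ≤ 0) ∧
    (∃ C : ℝ, ∀ s ∈ Ω, s ≠ w → u s ≤ ((Real.log ‖s - w‖ + C : ℝ) : EReal)) ∧ t = u z}

/-- Hyperconvexity: a negative plurisubharmonic function with relatively compact sublevel sets. -/
def Hyperconvex {E : Type} [NormedAddCommGroup E] [NormedSpace ℂ E] (Ω : Set E) : Prop :=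
  ∃ ρ : E → EReal, PSH Ω ρ ∧ (∀ z ∈ Ω, ρ z < 0) ∧
    ∀ c : ℝ, c < 0 → ∃ K : Set E, IsCompact K ∧ K ⊆ Ω ∧ ∀ z ∈ Ω, ρ z < (c : EReal) → z ∈ K

def barN (n : ℕ) (x y : ℂ) : ℝ := 5 * ‖1 - x‖ * ‖2 * y ^ n - x ^ n * (1 - x)‖ ^ ((1:ℝ) / n)
def vaN (n : ℕ) (x : ℂ) : ℝ := ‖1 - x‖ ^ ((1:ℝ) / n) * Real.exp ((10 / n) * (1 / 2 - x.re))
def vnN (n : ℕ) (x y : ℂ) : ℝ := (2:ℝ) ^ ((1:ℝ) / n) * ‖y‖ / ‖x‖
def WN (n : ℕ) (x y : ℂ) : ℝ := max (Real.exp (-1)) (max (barN n x y)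
  (max (if x.re < 3 / 5 then vaN n x else 0) (if 2 / 5 < x.re then vnN n x y else 0)))
def VN (n : ℕ) (x y : ℂ) : ℝ := Real.log (WN n x y)
def barI (x y : ℂ) : ℝ := 5 * ‖1 - x‖ * max ‖x‖ ‖y‖
def WI (x y : ℂ) : ℝ := max (Real.exp (-1)) (max (barI x y)
  (max (if x.re < 3 / 5 then 1 else 0) (if 2 / 5 < x.re then ‖y‖ / ‖x‖ else 0)))
def VI (x y : ℂ) : ℝ := Real.log (WI x y)
/-- `u` has at `p` a lower support function which is the real part of an analytic function -/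
def HSup (u : ℂ × ℂ → ℝ) (p : ℂ × ℂ) : Prop :=
  ∃ G : ℂ × ℂ → ℂ, AnalyticAt ℂ G p ∧ (G p).re = u p ∧ ∀ᶠ q in 𝓝 p, (G q).re ≤ u q

structure Dat where
  w : ℕ → ℂ
  r : ℕ → ℝ
  η : ℕ → ℝ
  ψ : ℂ → ℝ
  m : ℕ → ℕ
  r_pos : ∀ i, 0 < r i
  r_lt : ∀ i, r i < ‖w i‖
  wr : ∀ i, ‖w i‖ + r i < 1 / 2
  w_tendsto : Tendsto w atTop (𝓝 0)
  disj : ∀ i j, i ≠ j → ∀ t : ℂ, ‖t - w i‖ ≤ r i → r j < ‖t - w j‖
  η_pos : ∀ i, 0 < η i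
  η_tendsto : Tendsto η atTop (𝓝 0)
  ψ_zero : ψ 0 = 0
  ψ_cont : ∀ t : ℂ, t ≠ 0 → ContinuousAt ψ t
  ψ_usc : ∀ ε : ℝ, 0 < ε → ∀ᶠ t in 𝓝 (0:ℂ), ψ t < ε
  ψ_low : ∀ ε : ℝ, 0 < ε → ∀ᶠ t in 𝓝 (0:ℂ), (∀ i, r i ≤ ‖t - w i‖) → -ε < ψ t
  ψ_circ : ∀ i, ∀ t : ℂ, ‖t - w i‖ = r i → -η i < ψ t
  ψ_well : ∀ i, ψ (w i) ≤ -6
  ψ_le : ∀ t : ℂ, ‖t‖ ≤ 1 → ψ t ≤ 1 / 2
  ψ_sub : ∀ t : ℂ, ∀ᶠ ρ in 𝓝[>] (0:ℝ), ψ t ≤ Real.circleAverage ψ t ρ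
  m_ge : ∀ i, 7 ≤ m i
  m_η : ∀ i, 27 / (m i : ℝ) ≤ η i / 2

open Classical in
/-- the defining function in the three essential variables -/
def Uf (D : Dat) (x y t : ℂ) : ℝ :=
  if h : ∃ i, ‖t - D.w i‖ < D.r i then
    max (VI x y + D.ψ t) (VN (D.m (Classical.choose h)) x y - 2 * D.η (Classical.choose h))
  else VI x y + D.ψ t

def pw (i : ℕ) : ℂ := (8:ℂ)⁻¹ ^ (i + 2)
def pd (i : ℕ) : ℝ := (4:ℝ)⁻¹ ^ (i + 3)
def pt (i : ℕ) : ℝ := Real.exp (-(7 * 4 ^ (i + 3)))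
def pphi (i : ℕ) (t : ℂ) : ℝ := Real.log (max ‖1 - t / pw i‖ (pt i))
def psi (t : ℂ) : ℝ := ∑' i, pd i * pphi i t

abbrev EE (n : ℕ) : Type := EuclideanSpace ℂ (Fin n)
/-- the point with first three coordinates `x, y, t` and the others zero -/
def emb (n : ℕ) (hn : 3 ≤ n) (x y t : ℂ) : EE n :=
  EuclideanSpace.single (⟨0, by omega⟩ : Fin n) x + EuclideanSpace.single (⟨1, by omega⟩ : Fin n) y
    + EuclideanSpace.single (⟨2, by omega⟩ : Fin n) t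
def cx (n : ℕ) (hn : 3 ≤ n) (z : EE n) : ℂ := z ⟨0, by omega⟩
def cy (n : ℕ) (hn : 3 ≤ n) (z : EE n) : ℂ := z ⟨1, by omega⟩
def ct (n : ℕ) (hn : 3 ≤ n) (z : EE n) : ℂ := z ⟨2, by omega⟩
/-- the defining function -/
def RR (D : Dat) (n : ℕ) (hn : 3 ≤ n) (z : EE n) : ℝ :=
  max (Uf D (cx n hn z) (cy n hn z) (ct n hn z)) (max (‖cx n hn z - 1‖ - 5 / 2)
    (max (‖cy n hn z‖ - 7 / 2) (max (‖ct n hn z‖ - 1)
      (‖z - emb n hn (cx n hn z) (cy n hn z) (ct n hn z)‖ - 1))))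

end

end Pool.Agent.Helper311.GB
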