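import Mathlib
import Pool.Agent.Helper311.GB.Defs

set_option autoImplicit false

open MeasureTheory Filter Topology Complex Set

namespace Pool.Agent.Helper311.GB.J8720

noncomputable section

theorem glueN (n : ℕ) (hn : 7 ≤ n) (x y : ℂ) :
    (x.re = 3 / 5 → vaN n x < max (barN n x y) (vnN n x y)) ∧
    (x.re = 2 / 5 → vnN n x y < max (barN n x y) (vaN n x)) := by
  have hN : (7 : ℝ) ≤ n := by exact_mod_cast hn
  have hN0 : (0 : ℝ) < n := by linarith
  have hn0 : n ≠ 0 := by omega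
  have hq0 : 0 < (1 : ℝ) / n := by positivity
  have main : ∀ (hx : 0 < x.re) (hx1 : x.re < 1), ∃ E : ℂ,
      barN n x y = 5 * ‖1 - x‖ * ‖x‖ * (‖1 - x‖ * ‖E‖) ^ ((1:ℝ) / n) ∧
      vnN n x y = (‖1 - x‖ * ‖1 - E‖) ^ ((1:ℝ) / n) ∧ 0 < ‖1 - x‖ := by
    intro hx hx1
    have hx0 : x ≠ 0 := by
      intro h; rw [h] at hx; simp at hx
    have h10 : 1 - x ≠ 0 := by
      intro h
      have := congrArg Complex.re h
      simp at this
      linarith
    have hA : 0 < ‖1 - x‖ := norm_pos_iff.2 h10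
    have hX : 0 < ‖x‖ := norm_pos_iff.2 hx0
    refine ⟨1 - 2 * (y / x) ^ n / (1 - x), ?_, ?_, hA⟩
    · have h1 : 2 * y ^ n - x ^ n * (1 - x)
          = -(x ^ n * (1 - x) * (1 - 2 * (y / x) ^ n / (1 - x))) := by
        rw [div_pow]
        field_simp
        ring
      unfold barN
      rw [h1, norm_neg, norm_mul, norm_mul, norm_pow, mul_assoc (‖x‖ ^ n),
        Real.mul_rpow (by positivity) (by positivity)]
      have h2 : (‖x‖ ^ n) ^ ((1:ℝ) / n) = ‖x‖ := by
        rw [one_div]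
        exact Real.pow_rpow_inv_natCast hX.le hn0
      rw [h2]
      ring
    · have h1 : (1 : ℂ) - (1 - 2 * (y / x) ^ n / (1 - x)) = 2 * (y / x) ^ n / (1 - x) := by ring
      rw [h1, norm_div, norm_mul, norm_pow, norm_div, mul_div_cancel₀ _ hA.ne']
      rw [Complex.norm_two, Real.mul_rpow (by norm_num) (by positivity)]
      have h2 : ((‖y‖ / ‖x‖) ^ n) ^ ((1:ℝ) / n) = ‖y‖ / ‖x‖ := by
        rw [one_div]
        exact Real.pow_rpow_inv_natCast (by positivity) hn0
      rw [h2]
      unfold vnN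
      ring
  have hexp1 : Real.exp (-1) < 1 / 2 := by
    have h1 : (2 : ℝ) < Real.exp 1 := by
      have := Real.exp_one_gt_d9
      linarith
    rw [Real.exp_neg, ← one_div]
    exact one_div_lt_one_div_of_lt (by norm_num) h1
  have hexp2 : (3 / 2 : ℝ) < Real.exp 1 := by
    have := Real.exp_one_gt_d9
    linarith
  constructor
  · intro hx
    obtain ⟨E, hb, hv, hA⟩ := main (by rw [hx]; norm_num) (by rw [hx]; norm_num)
    have ha : vaN n x = (‖1 - x‖ * Real.exp (-1)) ^ ((1:ℝ) / n) := by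
      unfold vaN
      rw [Real.mul_rpow hA.le (Real.exp_pos _).le, ← Real.exp_mul, hx]
      congr 2
      field_simp
      norm_num
    have hX1 : (3 / 5 : ℝ) ≤ ‖x‖ := by
      have := Complex.abs_re_le_norm x
      rw [hx] at this
      exact (le_abs_self _).trans this
    have hA1 : (2 / 5 : ℝ) ≤ ‖1 - x‖ := by
      have := Complex.abs_re_le_norm (1 - x)
      simp only [Complex.sub_re, Complex.one_re, hx] at this
      refine le_trans ?_ ((le_abs_self _).trans this)
      norm_num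
    rw [lt_max_iff]
    rcases lt_or_ge ‖E‖ (1 / 2) with h | h
    · right
      rw [ha, hv]
      refine Real.rpow_lt_rpow (by positivity) ?_ hq0
      have h3 : 1 / 2 < ‖1 - E‖ := by
        have := norm_sub_norm_le (1 : ℂ) E
        rw [norm_one] at this
        linarith
      have : Real.exp (-1) < ‖1 - E‖ := by linarith
      gcongr
    · left
      rw [ha, hb]
      have h3 : 1 ≤ 5 * ‖1 - x‖ * ‖x‖ := by nlinarith
      have h4 : (‖1 - x‖ * Real.exp (-1)) ^ ((1:ℝ) / n) < (‖1 - x‖ * ‖E‖) ^ ((1:ℝ) / n) := by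
        refine Real.rpow_lt_rpow (by positivity) ?_ hq0
        have : Real.exp (-1) < ‖E‖ := by linarith
        gcongr
      have h5 : 0 ≤ (‖1 - x‖ * ‖E‖) ^ ((1:ℝ) / n) := by positivity
      nlinarith
  · intro hx
    obtain ⟨E, hb, hv, hA⟩ := main (by rw [hx]; norm_num) (by rw [hx]; norm_num)
    have ha : vaN n x = (‖1 - x‖ * Real.exp 1) ^ ((1:ℝ) / n) := by
      unfold vaN
      rw [Real.mul_rpow hA.le (Real.exp_pos _).le, ← Real.exp_mul, hx]
      congr 2
      field_simp
      norm_num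
    have hX1 : (2 / 5 : ℝ) ≤ ‖x‖ := by
      have := Complex.abs_re_le_norm x
      rw [hx] at this
      exact (le_abs_self _).trans this
    have hA1 : (3 / 5 : ℝ) ≤ ‖1 - x‖ := by
      have := Complex.abs_re_le_norm (1 - x)
      simp only [Complex.sub_re, Complex.one_re, hx] at this
      refine le_trans ?_ ((le_abs_self _).trans this)
      norm_num
    have hE : ‖1 - E‖ ≤ 1 + ‖E‖ := by
      have := norm_sub_le (1 : ℂ) E
      rwa [norm_one] at this
    rw [lt_max_iff]
    rcases lt_or_ge ‖E‖ (1 / 2) with h | h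
    · right
      rw [ha, hv]
      refine Real.rpow_lt_rpow (by positivity) ?_ hq0
      have : ‖1 - E‖ < Real.exp 1 := by linarith
      gcongr
    · left
      rw [hv, hb]
      have h3 : 6 / 5 ≤ 5 * ‖1 - x‖ * ‖x‖ := by nlinarith
      have h6 : (3 : ℝ) ^ ((1:ℝ) / n) < 6 / 5 := by
        have h7 : (3 : ℝ) ^ ((1:ℝ) / n) ≤ 3 ^ ((1:ℝ) / 7) := by
          apply Real.rpow_le_rpow_of_exponent_le (by norm_num)
          exact one_div_le_one_div_of_le (by norm_num) hN
        have h8 : (3 : ℝ) ^ ((1:ℝ) / 7) < ((6 / 5 : ℝ) ^ 7) ^ ((1:ℝ) / 7) := by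
          refine Real.rpow_lt_rpow (by norm_num) (by norm_num) (by norm_num)
        have h9 : ((6 / 5 : ℝ) ^ 7) ^ ((1:ℝ) / 7) = 6 / 5 := by
          have := Real.pow_rpow_inv_natCast (x := (6 / 5 : ℝ)) (n := 7) (by norm_num) (by norm_num)
          rw [one_div]
          exact_mod_cast this
        linarith
      have hpos : 0 < (‖1 - x‖ * ‖E‖) ^ ((1:ℝ) / n) := by
        have : 0 < ‖E‖ := by linarith
        positivity
      have h4 : (‖1 - x‖ * ‖1 - E‖) ^ ((1:ℝ) / n)
          ≤ 3 ^ ((1:ℝ) / n) * (‖1 - x‖ * ‖E‖) ^ ((1:ℝ) / n) := by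
        rw [← Real.mul_rpow (by norm_num) (by positivity)]
        refine Real.rpow_le_rpow (by positivity) ?_ hq0.le
        have : ‖1 - E‖ ≤ 3 * ‖E‖ := by linarith
        nlinarith
      nlinarith

end

end Pool.Agent.Helper311.GB.J8720

namespace Pool.Agent.Helper311.GB

alias glueN := J8720.glueN

end Pool.Agent.Helper311.GB

namespace Pool.Agent.Helper311.GB.J8722

noncomputable section

theorem barN_nonneg833 (n : ℕ) (x y : ℂ) : 0 ≤ barN n x y := by
  unfold barN; positivity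

theorem vaN_nonneg833 (n : ℕ) (x : ℂ) : 0 ≤ vaN n x := by
  unfold vaN; positivity

theorem vnN_nonneg833 (n : ℕ) (x y : ℂ) : 0 ≤ vnN n x y := by
  unfold vnN; positivity

theorem contN (n : ℕ) (hn : 7 ≤ n) : Continuous (fun p : ℂ × ℂ => VN n p.1 p.2) := by
  have hn0 : (0:ℝ) ≤ (1:ℝ) / n := by positivity
  have hb : Continuous (fun p : ℂ × ℂ => barN n p.1 p.2) := by
    unfold barN
    refine Continuous.mul (by fun_prop) ?_
    exact Continuous.rpow_const (by fun_prop) (fun _ => Or.inr hn0)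
  have ha : Continuous (fun p : ℂ × ℂ => vaN n p.1) := by
    unfold vaN
    refine Continuous.mul ?_ ?_
    · exact Continuous.rpow_const (by fun_prop) (fun _ => Or.inr hn0)
    · have : Continuous (fun p : ℂ × ℂ => (10 / (n:ℝ)) * (1 / 2 - p.1.re)) := by
        have := Complex.continuous_re
        fun_prop
      exact Real.continuous_exp.comp this
  have hv : ∀ p : ℂ × ℂ, p.1 ≠ 0 → ContinuousAt (fun p : ℂ × ℂ => vnN n p.1 p.2) p := by
    intro p hp
    unfold vnN
    refine ContinuousAt.div (by fun_prop) (by fun_prop) ?_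
    exact norm_ne_zero_iff.mpr hp
  have hre : Continuous (fun p : ℂ × ℂ => p.1.re) := Complex.continuous_re.comp continuous_fst
  have hx0 : ∀ p : ℂ × ℂ, 0 < p.1.re → p.1 ≠ 0 := by
    intro p hp h0
    rw [h0] at hp
    simp at hp
  have hW : Continuous (fun p : ℂ × ℂ => WN n p.1 p.2) := by
    rw [continuous_iff_continuousAt]
    intro p
    rcases lt_trichotomy p.1.re (2/5) with h | h | h
    · have h1 : ContinuousAt (fun p : ℂ × ℂ => max (Real.exp (-1)) (max (barN n p.1 p.2)
          (max (vaN n p.1) 0))) p :=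
        (continuous_const.max (hb.max (ha.max continuous_const))).continuousAt
      apply h1.congr
      filter_upwards [hre.continuousAt.eventually_lt_const h] with q hq
      unfold WN
      rw [if_pos (by linarith), if_neg (by linarith)]
    · have h1 : ContinuousAt (fun p : ℂ × ℂ => max (Real.exp (-1)) (max (barN n p.1 p.2)
          (vaN n p.1))) p :=
        (continuous_const.max (hb.max ha)).continuousAt
      apply h1.congr
      have hg := (glueN n hn p.1 p.2).2 h
      have h2 : ∀ᶠ q : ℂ × ℂ in 𝓝 p, vnN n q.1 q.2 < max (barN n q.1 q.2) (vaN n q.1) :=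
        ContinuousAt.eventually_lt (hv p (hx0 p (by rw [h]; norm_num))) (hb.max ha).continuousAt hg
      filter_upwards [hre.continuousAt.eventually_lt_const (show p.1.re < 3/5 by rw [h]; norm_num), h2]
        with q hq hq2
      unfold WN
      rw [if_pos hq]
      congr 1
      have n1 := barN_nonneg833 n q.1 q.2
      have n2 := vaN_nonneg833 n q.1
      split_ifs
      · rw [← max_assoc, max_eq_left hq2.le]
      · rw [max_eq_left n2]
    · rcases lt_trichotomy p.1.re (3/5) with h' | h' | h'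
      · have h1 : ContinuousAt (fun p : ℂ × ℂ => max (Real.exp (-1)) (max (barN n p.1 p.2)
            (max (vaN n p.1) (vnN n p.1 p.2)))) p :=
          continuousAt_const.max (hb.continuousAt.max (ha.continuousAt.max (hv p (hx0 p (by linarith)))))
        apply h1.congr
        filter_upwards [hre.continuousAt.eventually_lt_const h', hre.continuousAt.eventually_const_lt h]
          with q hq hq2
        unfold WN
        rw [if_pos hq, if_pos hq2]
      · have h1 : ContinuousAt (fun p : ℂ × ℂ => max (Real.exp (-1)) (max (barN n p.1 p.2)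
            (vnN n p.1 p.2))) p :=
          continuousAt_const.max (hb.continuousAt.max (hv p (hx0 p (by linarith))))
        apply h1.congr
        have hg := (glueN n hn p.1 p.2).1 h'
        have h2 : ∀ᶠ q : ℂ × ℂ in 𝓝 p, vaN n q.1 < max (barN n q.1 q.2) (vnN n q.1 q.2) :=
          ContinuousAt.eventually_lt ha.continuousAt
            (hb.continuousAt.max (hv p (hx0 p (by linarith)))) hg
        filter_upwards [hre.continuousAt.eventually_const_lt h, h2] with q hq hq2
        unfold WN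
        rw [if_pos hq]
        congr 1
        have n1 := barN_nonneg833 n q.1 q.2
        have n2 := vnN_nonneg833 n q.1 q.2
        split_ifs
        · rw [max_comm (vaN n q.1), ← max_assoc, max_eq_left hq2.le]
        · rw [max_eq_right n2]
      · have h1 : ContinuousAt (fun p : ℂ × ℂ => max (Real.exp (-1)) (max (barN n p.1 p.2)
            (max 0 (vnN n p.1 p.2)))) p :=
          continuousAt_const.max (hb.continuousAt.max (continuousAt_const.max (hv p (hx0 p (by linarith)))))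
        apply h1.congr
        filter_upwards [hre.continuousAt.eventually_const_lt h'] with q hq
        unfold WN
        rw [if_neg (by linarith), if_pos (by linarith)]
  unfold VN
  apply hW.log
  intro p
  have : Real.exp (-1) ≤ WN n p.1 p.2 := le_max_left _ _
  have h2 := Real.exp_pos (-1)
  linarith

end

end Pool.Agent.Helper311.GB.J8722

namespace Pool.Agent.Helper311.GB

alias contN := J8722.contN

end Pool.Agent.Helper311.GB

namespace Pool.Agent.Helper311.GB.J8723

noncomputable section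

theorem contI_bar : Continuous (fun p : ℂ × ℂ => barI p.1 p.2) := by
  unfold barI
  fun_prop

theorem contI_B (p : ℂ × ℂ) (h : p.1 ≠ 0) : ContinuousAt (fun p : ℂ × ℂ => ‖p.2‖ / ‖p.1‖) p := by
  have h1 : ‖p.1‖ ≠ 0 := norm_ne_zero_iff.2 h
  exact ContinuousAt.div (by fun_prop) (by fun_prop) h1

theorem contI_W (p : ℂ × ℂ) : ContinuousAt (fun p : ℂ × ℂ => WI p.1 p.2) p := by
  have hre : Continuous (fun q : ℂ × ℂ => q.1.re) := by fun_prop
  have hbar := contI_bar
  rcases lt_trichotomy p.1.re (2 / 5) with h | h | h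
  · have h1 : ∀ᶠ q : ℂ × ℂ in 𝓝 p, q.1.re < 2 / 5 := hre.continuousAt.eventually_lt
      continuousAt_const h
    have hev : (fun q : ℂ × ℂ => WI q.1 q.2) =ᶠ[𝓝 p]
        fun q => max (Real.exp (-1)) (max (barI q.1 q.2) (max 1 0)) := by
      filter_upwards [h1] with q hq
      unfold WI
      rw [if_pos (by linarith), if_neg (by linarith)]
    refine ContinuousAt.congr ?_ hev.symm
    exact (continuous_const.max (hbar.max continuous_const)).continuousAt
  · have hx0 : p.1 ≠ 0 := by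
      intro h0
      rw [h0] at h
      norm_num at h
    have hx : 2 / 5 ≤ ‖p.1‖ := by
      have := Complex.re_le_norm p.1
      linarith
    have hx' : 3 / 5 ≤ ‖1 - p.1‖ := by
      have := Complex.re_le_norm (1 - p.1)
      rw [Complex.sub_re, Complex.one_re, h] at this
      linarith
    have hlt : ‖p.2‖ / ‖p.1‖ < max (barI p.1 p.2) 1 := by
      rcases (norm_nonneg p.2).eq_or_lt with hy | hy
      · rw [← hy, zero_div]
        exact lt_of_lt_of_le one_pos (le_max_right _ _)
      · refine lt_of_lt_of_le ?_ (le_max_left _ _)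
        unfold barI
        rw [div_lt_iff₀ (by linarith)]
        have h2 : ‖p.2‖ ≤ max ‖p.1‖ ‖p.2‖ := le_max_right _ _
        have h3 : 5 * ‖1 - p.1‖ * ‖p.2‖ * ‖p.1‖ ≤
            5 * ‖1 - p.1‖ * max ‖p.1‖ ‖p.2‖ * ‖p.1‖ := by gcongr
        refine lt_of_lt_of_le ?_ h3
        have h4 : 5 * (3 / 5) * (2 / 5) ≤ 5 * ‖1 - p.1‖ * ‖p.1‖ := by gcongr
        have h5 : ‖p.2‖ * (6 / 5) ≤ 5 * ‖1 - p.1‖ * ‖p.2‖ * ‖p.1‖ := by nlinarith
        linarith
    have h1 : ∀ᶠ q : ℂ × ℂ in 𝓝 p, q.1.re < 3 / 5 := hre.continuousAt.eventually_lt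
      continuousAt_const (by rw [h]; norm_num)
    have h2 : ∀ᶠ q : ℂ × ℂ in 𝓝 p, ‖q.2‖ / ‖q.1‖ < max (barI q.1 q.2) 1 :=
      (contI_B p hx0).eventually_lt (hbar.max continuous_const).continuousAt hlt
    have hev : (fun q : ℂ × ℂ => WI q.1 q.2) =ᶠ[𝓝 p]
        fun q => max (Real.exp (-1)) (max (barI q.1 q.2) 1) := by
      filter_upwards [h1, h2] with q hq1 hq2
      unfold WI
      rw [if_pos hq1]
      congr 1
      by_cases h3 : 2 / 5 < q.1.re
      · rw [if_pos h3, ← max_assoc, max_eq_left hq2.le]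
      · rw [if_neg h3, max_eq_left zero_le_one]
    refine ContinuousAt.congr ?_ hev.symm
    exact (continuous_const.max (hbar.max continuous_const)).continuousAt
  · have hx0 : p.1 ≠ 0 := by
      intro h0
      rw [h0] at h
      norm_num at h
    have hB := contI_B p hx0
    have h0 : ∀ᶠ q : ℂ × ℂ in 𝓝 p, 2 / 5 < q.1.re := continuousAt_const.eventually_lt
      hre.continuousAt h
    rcases lt_trichotomy p.1.re (3 / 5) with h' | h' | h'
    · have h1 : ∀ᶠ q : ℂ × ℂ in 𝓝 p, q.1.re < 3 / 5 := hre.continuousAt.eventually_lt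
        continuousAt_const h'
      have hev : (fun q : ℂ × ℂ => WI q.1 q.2) =ᶠ[𝓝 p]
          fun q => max (Real.exp (-1)) (max (barI q.1 q.2) (max 1 (‖q.2‖ / ‖q.1‖))) := by
        filter_upwards [h0, h1] with q hq1 hq2
        unfold WI
        rw [if_pos hq2, if_pos hq1]
      refine ContinuousAt.congr ?_ hev.symm
      exact continuousAt_const.max (hbar.continuousAt.max (continuousAt_const.max hB))
    · have hbp : 1 < barI p.1 p.2 := by
        have hx : 3 / 5 ≤ ‖p.1‖ := by
          have := Complex.re_le_norm p.1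
          linarith
        have hx' : 2 / 5 ≤ ‖1 - p.1‖ := by
          have := Complex.re_le_norm (1 - p.1)
          rw [Complex.sub_re, Complex.one_re, h'] at this
          linarith
        unfold barI
        have h2 : ‖p.1‖ ≤ max ‖p.1‖ ‖p.2‖ := le_max_left _ _
        have h3 : 5 * (2 / 5) * (3 / 5) ≤ 5 * ‖1 - p.1‖ * max ‖p.1‖ ‖p.2‖ := by
          gcongr
          exact hx.trans h2
        linarith
      have h1 : ∀ᶠ q : ℂ × ℂ in 𝓝 p, 1 < barI q.1 q.2 :=
        continuousAt_const.eventually_lt hbar.continuousAt hbp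
      have hev : (fun q : ℂ × ℂ => WI q.1 q.2) =ᶠ[𝓝 p]
          fun q => max (Real.exp (-1)) (max (barI q.1 q.2) (max 0 (‖q.2‖ / ‖q.1‖))) := by
        filter_upwards [h0, h1] with q hq1 hq2
        unfold WI
        rw [if_pos hq1]
        congr 1
        by_cases h3 : q.1.re < 3 / 5
        · rw [if_pos h3, ← max_assoc, ← max_assoc, max_eq_left hq2.le,
            max_eq_left (zero_le_one.trans hq2.le)]
        · rw [if_neg h3]
      refine ContinuousAt.congr ?_ hev.symm
      exact continuousAt_const.max (hbar.continuousAt.max (continuousAt_const.max hB))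
    · have h1 : ∀ᶠ q : ℂ × ℂ in 𝓝 p, 3 / 5 < q.1.re := continuousAt_const.eventually_lt
        hre.continuousAt h'
      have hev : (fun q : ℂ × ℂ => WI q.1 q.2) =ᶠ[𝓝 p]
          fun q => max (Real.exp (-1)) (max (barI q.1 q.2) (max 0 (‖q.2‖ / ‖q.1‖))) := by
        filter_upwards [h0, h1] with q hq1 hq2
        unfold WI
        rw [if_neg (by linarith), if_pos hq1]
      refine ContinuousAt.congr ?_ hev.symm
      exact continuousAt_const.max (hbar.continuousAt.max (continuousAt_const.max hB))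

theorem contI : Continuous (fun p : ℂ × ℂ => VI p.1 p.2) := by
  rw [continuous_iff_continuousAt]
  intro p
  have h1 : WI p.1 p.2 ≠ 0 :=
    (lt_of_lt_of_le (Real.exp_pos (-1)) (le_max_left _ _)).ne'
  exact (contI_W p).log h1

end

end Pool.Agent.Helper311.GB.J8723

namespace Pool.Agent.Helper311.GB

alias contI := J8723.contI

end Pool.Agent.Helper311.GB

namespace Pool.Agent.Helper311.GB.J8725

noncomputable section

theorem VN_le (n : ℕ) (hn : 1 ≤ n) (x y : ℂ) (hx : ‖x - 1‖ ≤ 3) :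
    VN n x y ≤ VI x y + 27 / n := by
  have hn0 : (0 : ℝ) < n := by exact_mod_cast hn
  have hn1 : (0 : ℝ) ≤ 1 / (n : ℝ) := by positivity
  set E : ℝ := Real.exp (27 / n) with hE
  have hE1 : 1 ≤ E := Real.one_le_exp (by positivity)
  have hpow : ∀ c : ℝ, 0 ≤ c → c ≤ Real.exp 27 → c ^ ((1:ℝ) / n) ≤ E := by
    intro c hc hc'
    calc c ^ ((1:ℝ) / n) ≤ (Real.exp 27) ^ ((1:ℝ) / n) := Real.rpow_le_rpow hc hc' hn1
      _ = E := by rw [← Real.exp_mul, hE]; congr 1; ring
  have hx' : ‖1 - x‖ ≤ 3 := by rw [norm_sub_rev]; exact hx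
  have hWI0 : Real.exp (-1) ≤ WI x y := le_max_left _ _
  have hWIp : 0 < WI x y := lt_of_lt_of_le (Real.exp_pos _) hWI0
  have h1 : Real.exp (-1) ≤ E * WI x y :=
    hWI0.trans (le_mul_of_one_le_left hWIp.le hE1)
  have h2 : barN n x y ≤ E * WI x y := by
    have hM0 : 0 ≤ max ‖x‖ ‖y‖ := le_max_of_le_left (norm_nonneg _)
    have e1 : ‖2 * y ^ n - x ^ n * (1 - x)‖ ≤ 5 * (max ‖x‖ ‖y‖) ^ n := by
      have a1 : ‖2 * y ^ n‖ ≤ 2 * (max ‖x‖ ‖y‖) ^ n := by
        rw [norm_mul, norm_pow]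
        have : ‖y‖ ^ n ≤ (max ‖x‖ ‖y‖) ^ n := pow_le_pow_left₀ (norm_nonneg _) (le_max_right _ _) n
        have h2 : ‖(2:ℂ)‖ = 2 := by simp
        rw [h2]; linarith
      have a2 : ‖x ^ n * (1 - x)‖ ≤ (max ‖x‖ ‖y‖) ^ n * 3 := by
        rw [norm_mul, norm_pow]
        have : ‖x‖ ^ n ≤ (max ‖x‖ ‖y‖) ^ n := pow_le_pow_left₀ (norm_nonneg _) (le_max_left _ _) n
        exact mul_le_mul this hx' (norm_nonneg _) (by positivity)
      calc ‖2 * y ^ n - x ^ n * (1 - x)‖ ≤ ‖2 * y ^ n‖ + ‖x ^ n * (1 - x)‖ := norm_sub_le _ _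
        _ ≤ 5 * (max ‖x‖ ‖y‖) ^ n := by linarith
    have e2 : ‖2 * y ^ n - x ^ n * (1 - x)‖ ^ ((1:ℝ) / n) ≤ E * max ‖x‖ ‖y‖ := by
      calc ‖2 * y ^ n - x ^ n * (1 - x)‖ ^ ((1:ℝ) / n)
          ≤ (5 * (max ‖x‖ ‖y‖) ^ n) ^ ((1:ℝ) / n) :=
            Real.rpow_le_rpow (norm_nonneg _) e1 hn1
        _ = 5 ^ ((1:ℝ) / n) * ((max ‖x‖ ‖y‖) ^ n) ^ ((1:ℝ) / n) :=
            Real.mul_rpow (by norm_num) (by positivity)
        _ = 5 ^ ((1:ℝ) / n) * max ‖x‖ ‖y‖ := by
            congr 1
            rw [one_div]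
            exact Real.pow_rpow_inv_natCast hM0 (by omega)
        _ ≤ E * max ‖x‖ ‖y‖ := by
            refine mul_le_mul_of_nonneg_right (hpow 5 (by norm_num) ?_) hM0
            have := Real.add_one_le_exp (27 : ℝ); linarith
    have e3 : barN n x y ≤ E * barI x y := by
      unfold barN barI
      calc 5 * ‖1 - x‖ * ‖2 * y ^ n - x ^ n * (1 - x)‖ ^ ((1:ℝ) / n)
          ≤ 5 * ‖1 - x‖ * (E * max ‖x‖ ‖y‖) := mul_le_mul_of_nonneg_left e2 (by positivity)
        _ = E * (5 * ‖1 - x‖ * max ‖x‖ ‖y‖) := by ring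
    refine e3.trans (mul_le_mul_of_nonneg_left ?_ (by linarith))
    exact (le_max_left _ _).trans (le_max_right _ _)
  have hpos : 0 ≤ E * WI x y := by positivity
  have h3 : (if x.re < 3 / 5 then vaN n x else 0) ≤ E * WI x y := by
    split_ifs with hc
    · have e1 : 1 ≤ WI x y := by
        have : (1 : ℝ) ≤ (if x.re < 3 / 5 then (1:ℝ) else 0) := by rw [if_pos hc]
        exact this.trans ((le_max_left _ _).trans ((le_max_right _ _).trans (le_max_right _ _)))
      have e2 : vaN n x ≤ E := by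
        unfold vaN
        have hre : -2 ≤ x.re := by
          have h := Complex.abs_re_le_norm (x - 1)
          have h' := (abs_le.1 (h.trans hx)).1
          simp at h'
          linarith
        have a1 : ‖1 - x‖ ^ ((1:ℝ) / n) ≤ Real.exp (2 / n) := by
          calc ‖1 - x‖ ^ ((1:ℝ) / n) ≤ (Real.exp 2) ^ ((1:ℝ) / n) := by
                refine Real.rpow_le_rpow (norm_nonneg _) (hx'.trans ?_) hn1
                have := Real.add_one_le_exp (2 : ℝ); linarith
            _ = Real.exp (2 / n) := by rw [← Real.exp_mul]; congr 1; ring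
        have a2 : Real.exp ((10 / n) * (1 / 2 - x.re)) ≤ Real.exp (25 / n) := by
          apply Real.exp_le_exp.2
          rw [div_mul_eq_mul_div]
          refine div_le_div_of_nonneg_right ?_ hn0.le
          linarith
        calc ‖1 - x‖ ^ ((1:ℝ) / n) * Real.exp ((10 / n) * (1 / 2 - x.re))
            ≤ Real.exp (2 / n) * Real.exp (25 / n) :=
              mul_le_mul a1 a2 (Real.exp_pos _).le (Real.exp_pos _).le
          _ = E := by rw [← Real.exp_add, hE]; congr 1; ring
      exact e2.trans (le_mul_of_one_le_right (by linarith) e1)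
    · exact hpos
  have h4 : (if 2 / 5 < x.re then vnN n x y else 0) ≤ E * WI x y := by
    split_ifs with hc
    · have e1 : ‖y‖ / ‖x‖ ≤ WI x y := by
        have : ‖y‖ / ‖x‖ ≤ (if 2 / 5 < x.re then ‖y‖ / ‖x‖ else 0) := by rw [if_pos hc]
        exact this.trans ((le_max_right _ _).trans ((le_max_right _ _).trans (le_max_right _ _)))
      have e2 : vnN n x y ≤ E * (‖y‖ / ‖x‖) := by
        unfold vnN
        rw [mul_div_assoc]
        refine mul_le_mul_of_nonneg_right (hpow 2 (by norm_num) ?_) (by positivity)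
        have := Real.add_one_le_exp (27 : ℝ); linarith
      exact e2.trans (mul_le_mul_of_nonneg_left e1 (by linarith))
    · exact hpos
  have hW : WN n x y ≤ E * WI x y := by
    unfold WN
    exact max_le h1 (max_le h2 (max_le h3 h4))
  have hWN0 : 0 < WN n x y := lt_of_lt_of_le (Real.exp_pos (-1)) (le_max_left _ _)
  unfold VN VI
  calc Real.log (WN n x y) ≤ Real.log (E * WI x y) := Real.log_le_log hWN0 hW
    _ = Real.log E + Real.log (WI x y) := Real.log_mul (by positivity) hWIp.ne'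
    _ = Real.log (WI x y) + 27 / n := by rw [hE, Real.log_exp]; ring

end

end Pool.Agent.Helper311.GB.J8725

namespace Pool.Agent.Helper311.GB

alias VN_le := J8725.VN_le

end Pool.Agent.Helper311.GB

namespace Pool.Agent.Helper311.GB.J8727

noncomputable section

theorem disc_vals (n : ℕ) (hn : 1 ≤ n) (ξ : ℂ) (hξ : ‖ξ‖ ≤ 1) :
    VN n (1 - 2 * ξ ^ n) (ξ * (1 - 2 * ξ ^ n)) ≤ 27 / n ∧
    VI (1 - 2 * ξ ^ n) (ξ * (1 - 2 * ξ ^ n)) ≤ 5 := by
  have hn0 : (0:ℝ) < n := by exact_mod_cast hn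
  set x : ℂ := 1 - 2 * ξ ^ n with hx
  have h1x : 1 - x = 2 * ξ ^ n := by rw [hx]; ring
  have hpow : ‖ξ ^ n‖ ≤ 1 := by
    rw [norm_pow]; exact pow_le_one₀ (norm_nonneg _) hξ
  have hn1x : ‖1 - x‖ ≤ 2 := by
    rw [h1x, norm_mul]
    have : ‖(2:ℂ)‖ = 2 := by simp
    rw [this]; linarith
  have hre : -1 ≤ x.re := by
    have h2 : (1 - x).re ≤ 2 := le_trans (Complex.re_le_norm _) hn1x
    simp only [Complex.sub_re, Complex.one_re] at h2
    linarith
  have hxn : ‖x‖ ≤ 3 := by
    have : x = 1 - (1 - x) := by ring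
    rw [this]
    refine le_trans (norm_sub_le _ _) ?_
    rw [norm_one]; linarith
  have hlog2 : Real.log 2 ≤ 1 := by
    have := Real.log_two_lt_d9; linarith
  have h2n : (2:ℝ) ^ ((1:ℝ) / n) ≤ Real.exp (1 / n) := by
    rw [Real.rpow_def_of_pos (by norm_num : (0:ℝ) < 2)]
    apply Real.exp_le_exp.mpr
    have : 0 ≤ (1:ℝ) / n := by positivity
    nlinarith
  constructor
  · unfold VN
    have hpos : 0 < WN n x (ξ * x) := lt_of_lt_of_le (Real.exp_pos (-1)) (le_max_left _ _)
    rw [Real.log_le_iff_le_exp hpos]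
    unfold WN
    have hexp0 : (0:ℝ) ≤ Real.exp (27 / n) := (Real.exp_pos _).le
    refine max_le ?_ (max_le ?_ (max_le ?_ ?_))
    · apply Real.exp_le_exp.mpr
      have : 0 ≤ (27:ℝ) / n := by positivity
      linarith
    · unfold barN
      have hz : 2 * (ξ * x) ^ n - x ^ n * (1 - x) = 0 := by
        rw [h1x, mul_pow]; ring_nf
      have hne : (1:ℝ) / n ≠ 0 := by positivity
      rw [hz, norm_zero, Real.zero_rpow hne, mul_zero]
      exact hexp0
    · split_ifs with h
      · unfold vaN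
        have ha : ‖1 - x‖ ^ ((1:ℝ) / n) ≤ Real.exp (1 / n) :=
          le_trans (Real.rpow_le_rpow (norm_nonneg _) hn1x (by positivity)) h2n
        have hb : Real.exp ((10 / n) * (1 / 2 - x.re)) ≤ Real.exp (15 / n) := by
          apply Real.exp_le_exp.mpr
          have h10 : 0 ≤ (10:ℝ) / n := by positivity
          calc (10:ℝ) / n * (1 / 2 - x.re) ≤ (10:ℝ) / n * (3 / 2) :=
                mul_le_mul_of_nonneg_left (by linarith) h10
            _ = 15 / n := by ring
        calc ‖1 - x‖ ^ ((1:ℝ) / n) * Real.exp ((10 / n) * (1 / 2 - x.re))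
            ≤ Real.exp (1 / n) * Real.exp (15 / n) :=
              mul_le_mul ha hb (Real.exp_pos _).le (Real.exp_pos _).le
          _ = Real.exp (1 / n + 15 / n) := (Real.exp_add _ _).symm
          _ ≤ Real.exp (27 / n) := by
            apply Real.exp_le_exp.mpr
            rw [← add_div]
            exact div_le_div_of_nonneg_right (by norm_num) hn0.le
      · exact hexp0
    · split_ifs with h
      · unfold vnN
        have hx0 : x ≠ 0 := by
          intro h0; rw [h0] at h; simp at h; linarith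
        have hxpos : 0 < ‖x‖ := norm_pos_iff.mpr hx0
        have : (2:ℝ) ^ ((1:ℝ) / n) * ‖ξ * x‖ / ‖x‖ = (2:ℝ) ^ ((1:ℝ) / n) * ‖ξ‖ := by
          rw [norm_mul]; field_simp
        rw [this]
        calc (2:ℝ) ^ ((1:ℝ) / n) * ‖ξ‖ ≤ Real.exp (1 / n) * 1 :=
              mul_le_mul h2n hξ (norm_nonneg _) (Real.exp_pos _).le
          _ = Real.exp (1 / n) := mul_one _
          _ ≤ Real.exp (27 / n) := by
            apply Real.exp_le_exp.mpr
            exact div_le_div_of_nonneg_right (by norm_num) hn0.le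
      · exact hexp0
  · unfold VI
    have hpos : 0 < WI x (ξ * x) := lt_of_lt_of_le (Real.exp_pos (-1)) (le_max_left _ _)
    rw [Real.log_le_iff_le_exp hpos]
    have he5 : (30:ℝ) ≤ Real.exp 5 := by
      have h1 : (2.7:ℝ) ≤ Real.exp 1 := by
        have := Real.exp_one_gt_d9; linarith
      have h2 : Real.exp 5 = Real.exp 1 ^ 5 := by
        rw [← Real.exp_nat_mul]; norm_num
      rw [h2]
      calc (30:ℝ) ≤ 2.7 ^ 5 := by norm_num
        _ ≤ Real.exp 1 ^ 5 := pow_le_pow_left₀ (by norm_num) h1 5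
    unfold WI
    refine max_le ?_ (max_le ?_ (max_le ?_ ?_))
    · apply Real.exp_le_exp.mpr; norm_num
    · unfold barI
      have hm : max ‖x‖ ‖ξ * x‖ ≤ 3 := by
        refine max_le hxn ?_
        rw [norm_mul]
        calc ‖ξ‖ * ‖x‖ ≤ 1 * 3 := mul_le_mul hξ hxn (norm_nonneg _) (by norm_num)
          _ = 3 := by norm_num
      have h0 : 0 ≤ max ‖x‖ ‖ξ * x‖ := le_trans (norm_nonneg _) (le_max_left _ _)
      have hA : 5 * ‖1 - x‖ ≤ 10 := by linarith
      calc 5 * ‖1 - x‖ * max ‖x‖ ‖ξ * x‖ ≤ 10 * 3 := mul_le_mul hA hm h0 (by norm_num)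
        _ ≤ Real.exp 5 := by linarith
    · split_ifs <;> linarith
    · split_ifs with h
      · have hx0 : x ≠ 0 := by
          intro h0; rw [h0] at h; simp at h; linarith
        have hxpos : 0 < ‖x‖ := norm_pos_iff.mpr hx0
        have : ‖ξ * x‖ / ‖x‖ = ‖ξ‖ := by
          rw [norm_mul]; field_simp
        rw [this]; linarith
      · linarith

end

end Pool.Agent.Helper311.GB.J8727

namespace Pool.Agent.Helper311.GB

alias disc_vals := J8727.disc_vals

end Pool.Agent.Helper311.GB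

namespace Pool.Agent.Helper311.GB.J8729

noncomputable section

theorem point_vals : (∀ n : ℕ, 1 ≤ n → VN n 1 0 = -1) ∧ VI 1 0 = -1 ∧ VI 0 0 = 0 := by
  have he : (0 : ℝ) ≤ Real.exp (-1) := (Real.exp_pos _).le
  have he1 : Real.exp (-1) ≤ 1 := Real.exp_le_one_iff.2 (by norm_num)
  refine ⟨fun n _ => ?_, ?_, ?_⟩
  · have h1 : WN n 1 0 = Real.exp (-1) := by
      have a : ¬ ((1 : ℝ) < 3 / 5) := by norm_num
      simp only [WN, barN, vnN, sub_self, norm_zero, mul_zero, zero_mul, one_re, if_neg a,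
        zero_div, ite_self, max_self]
      exact max_eq_left he
    rw [VN, h1, Real.log_exp]
  · have h1 : WI 1 0 = Real.exp (-1) := by
      have a : ¬ ((1 : ℝ) < 3 / 5) := by norm_num
      simp only [WI, barI, sub_self, norm_zero, mul_zero, zero_mul, one_re, if_neg a,
        zero_div, ite_self, max_self]
      exact max_eq_left he
    rw [VI, h1, Real.log_exp]
  · have h1 : WI 0 0 = 1 := by
      have a : ((0 : ℝ) < 3 / 5) := by norm_num
      simp only [WI, barI, norm_zero, mul_zero, zero_re, if_pos a,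
        zero_div, ite_self, max_self]
      rw [max_eq_left (zero_le_one), max_eq_right (zero_le_one), max_eq_right he1]
    rw [VI, h1, Real.log_one]

end

end Pool.Agent.Helper311.GB.J8729

namespace Pool.Agent.Helper311.GB

alias point_vals := J8729.point_vals

end Pool.Agent.Helper311.GB

namespace Pool.Agent.Helper311.GB.J8731

noncomputable section

theorem cus_ev (x₀ y₀ : ℂ) (ε : ℝ) (hε : 0 < ε) :
    ∀ᶠ p : ℕ × (ℂ × ℂ) in atTop ×ˢ 𝓝 (x₀, y₀), min (VI x₀ y₀) 0 - ε < VN p.1 p.2.1 p.2.2 := by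
  have hx : Tendsto (fun p : ℕ × (ℂ × ℂ) => p.2.1) (atTop ×ˢ 𝓝 (x₀, y₀)) (𝓝 x₀) :=
    ((continuous_fst.tendsto (x₀, y₀))).comp tendsto_snd
  have hy : Tendsto (fun p : ℕ × (ℂ × ℂ) => p.2.2) (atTop ×ˢ 𝓝 (x₀, y₀)) (𝓝 y₀) :=
    ((continuous_snd.tendsto (x₀, y₀))).comp tendsto_snd
  have hn : Tendsto (fun p : ℕ × (ℂ × ℂ) => p.1) (atTop ×ˢ 𝓝 (x₀, y₀)) atTop := tendsto_fst
  have hn1 : Tendsto (fun p : ℕ × (ℂ × ℂ) => (1 : ℝ) / (p.1 : ℝ)) (atTop ×ˢ 𝓝 (x₀, y₀)) (𝓝 0) :=
    tendsto_one_div_atTop_nhds_zero_nat.comp hn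
  have hre : Tendsto (fun p : ℕ × (ℂ × ℂ) => p.2.1.re) (atTop ×ˢ 𝓝 (x₀, y₀)) (𝓝 x₀.re) :=
    (Complex.continuous_re.tendsto x₀).comp hx
  have hexp1 : (0 : ℝ) < Real.exp (-1) := Real.exp_pos _
  have hWpos : ∀ (n : ℕ) (x y : ℂ), 0 < WN n x y := fun n x y => lt_max_of_lt_left hexp1
  by_cases hA : x₀.re < 3 / 5
  · -- case A
    have h1 : ∀ᶠ p : ℕ × (ℂ × ℂ) in atTop ×ˢ 𝓝 (x₀, y₀), p.2.1.re < 3 / 5 :=
      hre.eventually (eventually_lt_nhds hA)
    have h2 : ∀ᶠ p : ℕ × (ℂ × ℂ) in atTop ×ˢ 𝓝 (x₀, y₀),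
        -ε < (1 : ℝ) / (p.1 : ℝ) * (Real.log (2 / 5) - 1) := by
      have : Tendsto (fun p : ℕ × (ℂ × ℂ) => (1 : ℝ) / (p.1 : ℝ) * (Real.log (2 / 5) - 1))
          (atTop ×ˢ 𝓝 (x₀, y₀)) (𝓝 (0 * (Real.log (2 / 5) - 1))) := hn1.mul_const _
      rw [zero_mul] at this
      exact this.eventually (eventually_gt_nhds (by linarith))
    have h3 : ∀ᶠ p : ℕ × (ℂ × ℂ) in atTop ×ˢ 𝓝 (x₀, y₀), 1 ≤ p.1 :=
      hn.eventually (eventually_ge_atTop 1)
    filter_upwards [h1, h2, h3] with p hp1 hp2 hp3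
    obtain ⟨n, x, y⟩ := p
    simp only at hp1 hp2 hp3 ⊢
    have hn0 : (0 : ℝ) < n := by exact_mod_cast hp3
    have hx1 : 2 / 5 ≤ ‖1 - x‖ := by
      have h4 : (1 - x).re ≤ ‖1 - x‖ := Complex.re_le_norm _
      rw [Complex.sub_re, Complex.one_re] at h4
      linarith
    have hva : vaN n x ≤ WN n x y := by
      unfold WN
      rw [if_pos hp1]
      exact le_max_of_le_right (le_max_of_le_right (le_max_left _ _))
    have hvapos : 0 < vaN n x := by
      unfold vaN
      exact mul_pos (Real.rpow_pos_of_pos (by linarith) _) (Real.exp_pos _)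
    have hlog : Real.log (vaN n x) = 1 / (n : ℝ) * (Real.log ‖1 - x‖ + 10 * (1 / 2 - x.re)) := by
      unfold vaN
      rw [Real.log_mul (Real.rpow_pos_of_pos (by linarith) _).ne' (Real.exp_pos _).ne',
        Real.log_rpow (by linarith), Real.log_exp]
      ring
    have h5 : Real.log (2 / 5) ≤ Real.log ‖1 - x‖ := Real.log_le_log (by norm_num) hx1
    have h6 : 1 / (n : ℝ) * (Real.log (2 / 5) - 1)
        ≤ 1 / (n : ℝ) * (Real.log ‖1 - x‖ + 10 * (1 / 2 - x.re)) := by
      apply mul_le_mul_of_nonneg_left _ (by positivity)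
      linarith
    have h7 : Real.log (vaN n x) ≤ VN n x y := Real.log_le_log hvapos hva
    have h8 : min (VI x₀ y₀) 0 ≤ 0 := min_le_right _ _
    linarith
  · -- case B
    push Not at hA
    have hx0 : x₀ ≠ 0 := by
      intro h
      rw [h, Complex.zero_re] at hA
      norm_num at hA
    have hx0n : 0 < ‖x₀‖ := norm_pos_iff.mpr hx0
    have h1 : ∀ᶠ p : ℕ × (ℂ × ℂ) in atTop ×ˢ 𝓝 (x₀, y₀), 2 / 5 < p.2.1.re :=
      hre.eventually (eventually_gt_nhds (by linarith))
    have hdiv : Tendsto (fun p : ℕ × (ℂ × ℂ) => ‖p.2.2‖ / ‖p.2.1‖) (atTop ×ˢ 𝓝 (x₀, y₀))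
        (𝓝 (‖y₀‖ / ‖x₀‖)) := hy.norm.div hx.norm hx0n.ne'
    have hvn : ∀ (n : ℕ) (x y : ℂ), 2 / 5 < x.re → ‖y‖ / ‖x‖ ≤ WN n x y := by
      intro n x y h
      have h2 : vnN n x y ≤ WN n x y := by
        unfold WN
        rw [if_pos h]
        exact le_max_of_le_right (le_max_of_le_right (le_max_right _ _))
      refine le_trans ?_ h2
      unfold vnN
      rw [mul_div_assoc]
      have h3 : (1 : ℝ) ≤ (2 : ℝ) ^ ((1 : ℝ) / n) :=
        Real.one_le_rpow (by norm_num) (by positivity)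
      have h4 : 0 ≤ ‖y‖ / ‖x‖ := by positivity
      calc ‖y‖ / ‖x‖ = 1 * (‖y‖ / ‖x‖) := (one_mul _).symm
        _ ≤ _ := mul_le_mul_of_nonneg_right h3 h4
    -- reduction: it is enough to have c < WN with log c = bound
    by_cases hB : ‖x₀‖ ≤ ‖y₀‖
    · have h2 : Real.exp (-ε) < ‖y₀‖ / ‖x₀‖ := by
        have h3 : Real.exp (-ε) < 1 := by
          rw [Real.exp_lt_one_iff]; linarith
        have h4 : 1 ≤ ‖y₀‖ / ‖x₀‖ := by rwa [one_le_div hx0n]
        linarith
      filter_upwards [h1, hdiv.eventually (eventually_gt_nhds h2)] with p hp1 hp2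
      obtain ⟨n, x, y⟩ := p
      simp only at hp1 hp2 ⊢
      have h3 : Real.exp (-ε) < WN n x y := lt_of_lt_of_le hp2 (hvn n x y hp1)
      have h4 : -ε < VN n x y := by
        unfold VN
        rwa [Real.lt_log_iff_exp_lt (hWpos _ _ _)]
      have h8 : min (VI x₀ y₀) 0 ≤ 0 := min_le_right _ _
      linarith
    · push Not at hB
      set c : ℝ := WI x₀ y₀ * Real.exp (-ε) with hc
      have hWI : 0 < WI x₀ y₀ := lt_max_of_lt_left hexp1
      have hc0 : 0 < c := mul_pos hWI (Real.exp_pos _)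
      have hcW : c < WI x₀ y₀ := by
        have h3 : Real.exp (-ε) < 1 := by
          rw [Real.exp_lt_one_iff]; linarith
        calc c < WI x₀ y₀ * 1 := mul_lt_mul_of_pos_left h3 hWI
          _ = _ := mul_one _
      have hlogc : Real.log c = VI x₀ y₀ - ε := by
        rw [hc, Real.log_mul hWI.ne' (Real.exp_pos _).ne', Real.log_exp]
        unfold VI
        ring
      have hsuff : (∀ᶠ p : ℕ × (ℂ × ℂ) in atTop ×ˢ 𝓝 (x₀, y₀), c < WN p.1 p.2.1 p.2.2) →
          ∀ᶠ p : ℕ × (ℂ × ℂ) in atTop ×ˢ 𝓝 (x₀, y₀),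
            min (VI x₀ y₀) 0 - ε < VN p.1 p.2.1 p.2.2 := by
        intro h
        filter_upwards [h] with p hp
        have h3 : Real.log c < VN p.1 p.2.1 p.2.2 := Real.log_lt_log hc0 hp
        have h8 : min (VI x₀ y₀) 0 ≤ VI x₀ y₀ := min_le_left _ _
        linarith
      apply hsuff
      have hcW' := hcW
      unfold WI at hcW'
      rw [if_neg (not_lt.mpr hA), if_pos (show 2 / 5 < x₀.re by linarith)] at hcW'
      rw [lt_max_iff, lt_max_iff, lt_max_iff] at hcW'
      rcases hcW' with h | h | h | h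
      · exact Filter.Eventually.of_forall fun p => lt_max_of_lt_left h
      · -- barI
        have hbar : barI x₀ y₀ = 5 * ‖1 - x₀‖ * ‖x₀‖ := by
          unfold barI
          rw [max_eq_left hB.le]
        rw [hbar] at h
        have hx1 : 0 < ‖1 - x₀‖ := by
          rcases (norm_nonneg (1 - x₀)).lt_or_eq with h2 | h2
          · exact h2
          · exfalso
            rw [← h2] at h
            simp at h
            linarith
        -- q
        obtain ⟨q, hq1, hq2⟩ : ∃ q, ‖y₀‖ / ‖x₀‖ < q ∧ q < 1 :=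
          exists_between (by rwa [div_lt_one hx0n])
        have hq0 : 0 ≤ q := le_trans (by positivity) hq1.le
        set m : ℝ := ‖1 - x₀‖ / 4 with hm
        have hm0 : 0 < m := by positivity
        have e1 : ∀ᶠ p : ℕ × (ℂ × ℂ) in atTop ×ˢ 𝓝 (x₀, y₀), ‖p.2.2‖ / ‖p.2.1‖ < q :=
          hdiv.eventually (eventually_lt_nhds hq1)
        have hx1t : Tendsto (fun p : ℕ × (ℂ × ℂ) => ‖1 - p.2.1‖) (atTop ×ˢ 𝓝 (x₀, y₀))
            (𝓝 ‖1 - x₀‖) := (tendsto_const_nhds.sub hx).norm
        have e2 : ∀ᶠ p : ℕ × (ℂ × ℂ) in atTop ×ˢ 𝓝 (x₀, y₀), ‖1 - x₀‖ / 2 < ‖1 - p.2.1‖ :=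
          hx1t.eventually (eventually_gt_nhds (by linarith))
        have e3 : ∀ᶠ p : ℕ × (ℂ × ℂ) in atTop ×ˢ 𝓝 (x₀, y₀), q ^ p.1 < m / 2 := by
          have : Tendsto (fun p : ℕ × (ℂ × ℂ) => q ^ p.1) (atTop ×ˢ 𝓝 (x₀, y₀)) (𝓝 0) :=
            (tendsto_pow_atTop_nhds_zero_of_lt_one hq0 hq2).comp hn
          exact this.eventually (eventually_lt_nhds (by linarith))
        have e4 : ∀ᶠ p : ℕ × (ℂ × ℂ) in atTop ×ˢ 𝓝 (x₀, y₀), 0 < ‖p.2.1‖ :=
          hx.norm.eventually (eventually_gt_nhds hx0n)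
        have e5 : ∀ᶠ p : ℕ × (ℂ × ℂ) in atTop ×ˢ 𝓝 (x₀, y₀), 1 ≤ p.1 :=
          hn.eventually (eventually_ge_atTop 1)
        have e6 : ∀ᶠ p : ℕ × (ℂ × ℂ) in atTop ×ˢ 𝓝 (x₀, y₀),
            c < 5 * ‖1 - p.2.1‖ * (‖p.2.1‖ * m ^ ((1 : ℝ) / (p.1 : ℝ))) := by
          have hmt : Tendsto (fun p : ℕ × (ℂ × ℂ) => m ^ ((1 : ℝ) / (p.1 : ℝ)))
              (atTop ×ˢ 𝓝 (x₀, y₀)) (𝓝 (m ^ (0 : ℝ))) :=
            tendsto_const_nhds.rpow hn1 (Or.inl hm0.ne')
          rw [Real.rpow_zero] at hmt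
          have := (hx1t.const_mul 5).mul (hx.norm.mul hmt)
          rw [mul_one] at this
          exact this.eventually (eventually_gt_nhds h)
        filter_upwards [e1, e2, e3, e4, e5, e6] with p p1 p2 p3 p4 p5 p6
        obtain ⟨n, x, y⟩ := p
        simp only at p1 p2 p3 p4 p5 p6 ⊢
        refine lt_of_lt_of_le p6 ?_
        have hbarle : barN n x y ≤ WN n x y := by
          unfold WN
          exact le_max_of_le_right (le_max_left _ _)
        refine le_trans ?_ hbarle
        unfold barN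
        apply mul_le_mul_of_nonneg_left _ (by positivity)
        have hyx : ‖y‖ ≤ q * ‖x‖ := by
          rw [div_lt_iff₀ p4] at p1
          exact p1.le
        have hyn : ‖y‖ ^ n ≤ q ^ n * ‖x‖ ^ n := by
          rw [← mul_pow]
          exact pow_le_pow_left₀ (norm_nonneg _) hyx n
        have hxn : 0 < ‖x‖ ^ n := by positivity
        have hlow : ‖x‖ ^ n * m ≤ ‖2 * y ^ n - x ^ n * (1 - x)‖ := by
          have h3 : ‖x ^ n * (1 - x)‖ - ‖2 * y ^ n‖ ≤ ‖2 * y ^ n - x ^ n * (1 - x)‖ := by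
            rw [norm_sub_rev]
            exact norm_sub_norm_le _ _
          have h4 : ‖x ^ n * (1 - x)‖ = ‖x‖ ^ n * ‖1 - x‖ := by rw [norm_mul, norm_pow]
          have h5 : ‖2 * y ^ n‖ = 2 * ‖y‖ ^ n := by
            rw [norm_mul, norm_pow]; simp
          rw [h4, h5] at h3
          have h6 : ‖x‖ ^ n * (2 * m) ≤ ‖x‖ ^ n * ‖1 - x‖ :=
            mul_le_mul_of_nonneg_left (by rw [hm]; linarith) hxn.le
          have h7 : q ^ n * ‖x‖ ^ n ≤ m / 2 * ‖x‖ ^ n := mul_le_mul_of_nonneg_right p3.le hxn.le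
          nlinarith
        have hroot : (‖x‖ ^ n * m) ^ ((1 : ℝ) / n) = ‖x‖ * m ^ ((1 : ℝ) / n) := by
          rw [Real.mul_rpow hxn.le hm0.le, one_div,
            Real.pow_rpow_inv_natCast (norm_nonneg _) (by omega)]
        rw [← hroot]
        exact Real.rpow_le_rpow (by positivity) hlow (by positivity)
      · exact absurd h (not_lt.mpr hc0.le)
      · filter_upwards [h1, hdiv.eventually (eventually_gt_nhds h)] with p hp1 hp2
        exact lt_of_lt_of_le hp2 (hvn p.1 p.2.1 p.2.2 hp1)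

theorem VN_low (x₀ y₀ : ℂ) (ε : ℝ) (hε : 0 < ε) : ∃ N : ℕ, ∃ δ : ℝ, 0 < δ ∧ ∀ n : ℕ, N ≤ n →
    ∀ x y : ℂ, ‖x - x₀‖ < δ → ‖y - y₀‖ < δ → min (VI x₀ y₀) 0 - ε < VN n x y := by
  have h := cus_ev x₀ y₀ ε hε
  rw [Filter.eventually_prod_iff] at h
  obtain ⟨pa, hpa, pb, hpb, hab⟩ := h
  obtain ⟨N, hN⟩ := Filter.eventually_atTop.mp hpa
  obtain ⟨δ, hδ, hball⟩ := Metric.eventually_nhds_iff.mp hpb
  refine ⟨N, δ, hδ, fun n hn x y hx hy => ?_⟩
  have h2 : dist (x, y) (x₀, y₀) < δ := by
    rw [Prod.dist_eq]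
    refine max_lt ?_ ?_
    · simpa [dist_eq_norm] using hx
    · simpa [dist_eq_norm] using hy
  exact hab (hN n hn) (hball h2)

end

end Pool.Agent.Helper311.GB.J8731

namespace Pool.Agent.Helper311.GB

alias VN_low := J8731.VN_low

end Pool.Agent.Helper311.GB

namespace Pool.Agent.Helper311.GB.J8733

noncomputable section

theorem logSup {F : ℂ × ℂ → ℂ} {p : ℂ × ℂ} (hF : AnalyticAt ℂ F p) (h0 : F p ≠ 0) :
    ∃ G : ℂ × ℂ → ℂ, AnalyticAt ℂ G p ∧ ∀ᶠ q in 𝓝 p, (G q).re = Real.log ‖F q‖ := by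
  refine ⟨fun q => Complex.log (F q / F p) + (Real.log ‖F p‖ : ℂ), ?_, ?_⟩
  · apply AnalyticAt.add _ analyticAt_const
    apply AnalyticAt.clog
    · exact hF.div analyticAt_const h0
    · rw [div_self h0]; exact Complex.one_mem_slitPlane
  · have hne : ∀ᶠ q in 𝓝 p, F q ≠ 0 := hF.continuousAt.eventually_ne h0
    filter_upwards [hne] with q hq
    rw [Complex.add_re, Complex.log_re, Complex.ofReal_re, norm_div,
      Real.log_div (norm_ne_zero_iff.2 hq) (norm_ne_zero_iff.2 h0)]
    ring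

theorem hsup_of {u : ℂ × ℂ → ℝ} {p : ℂ × ℂ} {T : ℂ × ℂ → ℝ} (G : ℂ × ℂ → ℂ)
    (hG : AnalyticAt ℂ G p) (hT : ∀ᶠ q in 𝓝 p, (G q).re = T q) (hp : u p = T p)
    (hle : ∀ᶠ q in 𝓝 p, T q ≤ u q) : HSup u p := by
  refine ⟨G, hG, ?_, ?_⟩
  · rw [hp]; exact hT.self_of_nhds
  · filter_upwards [hT, hle] with q h1 h2
    rw [h1]; exact h2

theorem WN_ge_exp (n : ℕ) (x y : ℂ) : Real.exp (-1) ≤ WN n x y := le_max_left _ _
theorem WN_ge_bar (n : ℕ) (x y : ℂ) : barN n x y ≤ WN n x y :=
  (le_max_left _ _).trans (le_max_right _ _)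
theorem WN_ge_va (n : ℕ) (x y : ℂ) (h : x.re < 3 / 5) : vaN n x ≤ WN n x y := by
  have h1 : vaN n x = (if x.re < 3 / 5 then vaN n x else 0) := by rw [if_pos h]
  rw [h1]
  exact (le_max_left _ _).trans ((le_max_right _ _).trans (le_max_right _ _))
theorem WN_ge_vn (n : ℕ) (x y : ℂ) (h : 2 / 5 < x.re) : vnN n x y ≤ WN n x y := by
  have h1 : vnN n x y = (if 2 / 5 < x.re then vnN n x y else 0) := by rw [if_pos h]
  rw [h1]
  exact (le_max_right _ _).trans ((le_max_right _ _).trans (le_max_right _ _))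

theorem suppN (n : ℕ) (hn : 1 ≤ n) (p : ℂ × ℂ) : HSup (fun q => VN n q.1 q.2) p := by
  have hn0 : (n : ℝ) ≠ 0 := by
    have : n ≠ 0 := by omega
    exact_mod_cast this
  have hinv : (1 : ℝ) / n ≠ 0 := by
    exact one_div_ne_zero hn0
  have hpos : 0 < WN n p.1 p.2 := lt_of_lt_of_le (Real.exp_pos _) (WN_ge_exp n _ _)
  have hfst : AnalyticAt ℂ (fun q : ℂ × ℂ => q.1) p := analyticAt_fst
  have hsnd : AnalyticAt ℂ (fun q : ℂ × ℂ => q.2) p := analyticAt_snd
  have hA : AnalyticAt ℂ (fun q : ℂ × ℂ => 1 - q.1) p := analyticAt_const.sub hfst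
  have hcases : WN n p.1 p.2 = Real.exp (-1) ∨ WN n p.1 p.2 = barN n p.1 p.2 ∨
      (p.1.re < 3 / 5 ∧ WN n p.1 p.2 = vaN n p.1) ∨
      (2 / 5 < p.1.re ∧ WN n p.1 p.2 = vnN n p.1 p.2) := by
    rcases max_choice (Real.exp (-1)) (max (barN n p.1 p.2)
      (max (if p.1.re < 3 / 5 then vaN n p.1 else 0)
        (if 2 / 5 < p.1.re then vnN n p.1 p.2 else 0))) with h | h
    · exact Or.inl h
    · have hW : WN n p.1 p.2 = (max (barN n p.1 p.2)
        (max (if p.1.re < 3 / 5 then vaN n p.1 else 0)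
        (if 2 / 5 < p.1.re then vnN n p.1 p.2 else 0))) := h
      rcases max_choice (barN n p.1 p.2)
        (max (if p.1.re < 3 / 5 then vaN n p.1 else 0)
        (if 2 / 5 < p.1.re then vnN n p.1 p.2 else 0)) with h2 | h2
      · exact Or.inr (Or.inl (hW.trans h2))
      · rw [h2] at hW
        rcases max_choice (if p.1.re < 3 / 5 then vaN n p.1 else 0)
          (if 2 / 5 < p.1.re then vnN n p.1 p.2 else 0) with h3 | h3
        · rw [h3] at hW
          by_cases hc : p.1.re < 3 / 5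
          · rw [if_pos hc] at hW
            exact Or.inr (Or.inr (Or.inl ⟨hc, hW⟩))
          · rw [if_neg hc] at hW
            exact absurd hW hpos.ne'
        · rw [h3] at hW
          by_cases hc : 2 / 5 < p.1.re
          · rw [if_pos hc] at hW
            exact Or.inr (Or.inr (Or.inr ⟨hc, hW⟩))
          · rw [if_neg hc] at hW
            exact absurd hW hpos.ne'
  rcases hcases with h | h | ⟨hc, h⟩ | ⟨hc, h⟩
  · refine hsup_of (T := fun _ => -1) (fun _ => (-1 : ℂ)) analyticAt_const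
      (Filter.Eventually.of_forall (fun q => by simp)) ?_ ?_
    · change Real.log (WN n p.1 p.2) = -1
      rw [h, Real.log_exp]
    · refine Filter.Eventually.of_forall (fun q => ?_)
      change -1 ≤ Real.log (WN n q.1 q.2)
      have := Real.log_le_log (Real.exp_pos _) (WN_ge_exp n q.1 q.2)
      rwa [Real.log_exp] at this
  · -- bar
    have hb : 0 < barN n p.1 p.2 := h ▸ hpos
    have h1 : (1 : ℂ) - p.1 ≠ 0 := by
      intro h0
      unfold barN at hb
      rw [h0] at hb
      simp at hb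
    have h2 : 2 * p.2 ^ n - p.1 ^ n * (1 - p.1) ≠ 0 := by
      intro h0
      unfold barN at hb
      rw [h0] at hb
      rw [norm_zero, Real.zero_rpow hinv] at hb
      simp at hb
    have hE : AnalyticAt ℂ (fun q : ℂ × ℂ => 2 * q.2 ^ n - q.1 ^ n * (1 - q.1)) p :=
      (analyticAt_const.mul (hsnd.pow n)).sub ((hfst.pow n).mul hA)
    obtain ⟨G1, hG1, hG1'⟩ := logSup hA h1
    obtain ⟨G2, hG2, hG2'⟩ := logSup hE h2
    have hne1 : ∀ᶠ q : ℂ × ℂ in 𝓝 p, 1 - q.1 ≠ 0 := hA.continuousAt.eventually_ne h1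
    have hne2 : ∀ᶠ q : ℂ × ℂ in 𝓝 p, 2 * q.2 ^ n - q.1 ^ n * (1 - q.1) ≠ 0 :=
      hE.continuousAt.eventually_ne h2
    refine hsup_of (T := fun q => Real.log (barN n q.1 q.2))
      (fun q => (Real.log 5 : ℂ) + G1 q + ((1 / n : ℝ) : ℂ) * G2 q)
      ((analyticAt_const.add hG1).add (analyticAt_const.mul hG2)) ?_ ?_ ?_
    · filter_upwards [hG1', hG2', hne1, hne2] with q e1 e2 n1 n2
      have m1 : (0 : ℝ) < ‖1 - q.1‖ := norm_pos_iff.2 n1
      have m2 : (0 : ℝ) < ‖2 * q.2 ^ n - q.1 ^ n * (1 - q.1)‖ := norm_pos_iff.2 n2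
      unfold barN
      rw [Real.log_mul (by positivity) (by positivity), Real.log_mul (by norm_num) m1.ne',
        Real.log_rpow m2, Complex.add_re, Complex.add_re, Complex.re_ofReal_mul, e1, e2]
      congr 1
    · change Real.log (WN n p.1 p.2) = _
      rw [h]
    · filter_upwards [hne1, hne2] with q n1 n2
      have m1 : (0 : ℝ) < ‖1 - q.1‖ := norm_pos_iff.2 n1
      have m2 : (0 : ℝ) < ‖2 * q.2 ^ n - q.1 ^ n * (1 - q.1)‖ := norm_pos_iff.2 n2
      exact Real.log_le_log (by unfold barN; positivity) (WN_ge_bar n q.1 q.2)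
  · -- va
    have hb : 0 < vaN n p.1 := h ▸ hpos
    have h1 : (1 : ℂ) - p.1 ≠ 0 := by
      intro h0
      unfold vaN at hb
      rw [h0] at hb
      rw [norm_zero, Real.zero_rpow hinv] at hb
      simp at hb
    obtain ⟨G1, hG1, hG1'⟩ := logSup hA h1
    have hne1 : ∀ᶠ q : ℂ × ℂ in 𝓝 p, 1 - q.1 ≠ 0 := hA.continuousAt.eventually_ne h1
    have hre : ∀ᶠ q : ℂ × ℂ in 𝓝 p, q.1.re < 3 / 5 := by
      have hcont : ContinuousAt (fun q : ℂ × ℂ => q.1.re) p :=
        (Complex.continuous_re.comp continuous_fst).continuousAt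
      exact hcont.eventually (gt_mem_nhds hc)
    refine hsup_of (T := fun q => Real.log (vaN n q.1))
      (fun q => ((1 / n : ℝ) : ℂ) * G1 q + ((10 / n : ℝ) : ℂ) * (((1 / 2 : ℝ) : ℂ) - q.1))
      ((analyticAt_const.mul hG1).add (analyticAt_const.mul (analyticAt_const.sub hfst))) ?_ ?_ ?_
    · filter_upwards [hG1', hne1] with q e1 n1
      have m1 : (0 : ℝ) < ‖1 - q.1‖ := norm_pos_iff.2 n1
      unfold vaN
      rw [Real.log_mul (by positivity) (by positivity), Real.log_rpow m1, Real.log_exp,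
        Complex.add_re, Complex.re_ofReal_mul, Complex.re_ofReal_mul, Complex.sub_re,
        Complex.ofReal_re, e1]
    · change Real.log (WN n p.1 p.2) = _
      rw [h]
    · filter_upwards [hne1, hre] with q n1 hr
      have m1 : (0 : ℝ) < ‖1 - q.1‖ := norm_pos_iff.2 n1
      exact Real.log_le_log (by unfold vaN; positivity) (WN_ge_va n q.1 q.2 hr)
  · -- vn
    have hb : 0 < vnN n p.1 p.2 := h ▸ hpos
    have h1 : p.1 ≠ 0 := by
      intro h0
      rw [h0] at hc
      norm_num at hc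
    have h2 : p.2 ≠ 0 := by
      intro h0
      unfold vnN at hb
      rw [h0] at hb
      simp at hb
    obtain ⟨G1, hG1, hG1'⟩ := logSup hfst h1
    obtain ⟨G2, hG2, hG2'⟩ := logSup hsnd h2
    have hne1 : ∀ᶠ q : ℂ × ℂ in 𝓝 p, q.1 ≠ 0 := hfst.continuousAt.eventually_ne h1
    have hne2 : ∀ᶠ q : ℂ × ℂ in 𝓝 p, q.2 ≠ 0 := hsnd.continuousAt.eventually_ne h2
    have hre : ∀ᶠ q : ℂ × ℂ in 𝓝 p, 2 / 5 < q.1.re := by
      have hcont : ContinuousAt (fun q : ℂ × ℂ => q.1.re) p :=
        (Complex.continuous_re.comp continuous_fst).continuousAt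
      exact hcont.eventually (lt_mem_nhds hc)
    refine hsup_of (T := fun q => Real.log (vnN n q.1 q.2))
      (fun q => (((1 / n : ℝ) * Real.log 2 : ℝ) : ℂ) + G2 q - G1 q)
      ((analyticAt_const.add hG2).sub hG1) ?_ ?_ ?_
    · filter_upwards [hG1', hG2', hne1, hne2] with q e1 e2 n1 n2
      have m1 : (0 : ℝ) < ‖q.1‖ := norm_pos_iff.2 n1
      have m2 : (0 : ℝ) < ‖q.2‖ := norm_pos_iff.2 n2
      unfold vnN
      rw [Real.log_div (by positivity) m1.ne', Real.log_mul (by positivity) m2.ne',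
        Real.log_rpow (by norm_num), Complex.sub_re, Complex.add_re, Complex.ofReal_re, e1, e2]
    · change Real.log (WN n p.1 p.2) = _
      rw [h]
    · filter_upwards [hne1, hne2, hre] with q n1 n2 hr
      have m1 : (0 : ℝ) < ‖q.1‖ := norm_pos_iff.2 n1
      have m2 : (0 : ℝ) < ‖q.2‖ := norm_pos_iff.2 n2
      exact Real.log_le_log (by unfold vnN; positivity) (WN_ge_vn n q.1 q.2 hr)

end

end Pool.Agent.Helper311.GB.J8733

namespace Pool.Agent.Helper311.GB

alias suppN := J8733.suppN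

end Pool.Agent.Helper311.GB

namespace Pool.Agent.Helper311.GB.J8735

noncomputable section

theorem WI_pos (x y : ℂ) : 0 < WI x y := lt_of_lt_of_le (Real.exp_pos _) (le_max_left _ _)

theorem suppI_aux (p : ℂ × ℂ) (φ : ℂ × ℂ → ℂ) (hφ : AnalyticAt ℂ φ p)
    (h0 : ‖φ p‖ = WI p.1 p.2) (hle : ∀ᶠ q in 𝓝 p, ‖φ q‖ ≤ WI q.1 q.2) :
    HSup (fun q => VI q.1 q.2) p := by
  have hp : φ p ≠ 0 := by
    intro h
    rw [h, norm_zero] at h0
    exact (WI_pos p.1 p.2).ne h0
  have hp' : ‖φ p‖ ≠ 0 := norm_ne_zero_iff.2 hp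
  refine ⟨fun q => Complex.log (φ q / φ p) + (Real.log ‖φ p‖ : ℂ), ?_, ?_, ?_⟩
  · refine AnalyticAt.add (AnalyticAt.clog (hφ.div analyticAt_const hp) ?_) analyticAt_const
    rw [div_self hp]
    exact Complex.one_mem_slitPlane
  · show (Complex.log (φ p / φ p) + (Real.log ‖φ p‖ : ℂ)).re = VI p.1 p.2
    rw [div_self hp, Complex.log_one, zero_add, Complex.ofReal_re, h0]
    rfl
  · have hne : ∀ᶠ q in 𝓝 p, φ q ≠ 0 := hφ.continuousAt.eventually_ne hp
    filter_upwards [hle, hne] with q hq1 hq2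
    have hq2' : ‖φ q‖ ≠ 0 := norm_ne_zero_iff.2 hq2
    show (Complex.log (φ q / φ p) + (Real.log ‖φ p‖ : ℂ)).re ≤ Real.log (WI q.1 q.2)
    rw [Complex.add_re, Complex.log_re, Complex.ofReal_re, norm_div, Real.log_div hq2' hp',
      sub_add_cancel]
    exact Real.log_le_log (norm_pos_iff.2 hq2) hq1

theorem suppI (p : ℂ × ℂ) : HSup (fun q => VI q.1 q.2) p := by
  have hpos := WI_pos p.1 p.2
  -- which term attains the maximum
  rcases le_total (Real.exp (-1)) (max (barI p.1 p.2)
    (max (if p.1.re < 3 / 5 then (1 : ℝ) else 0) (if 2 / 5 < p.1.re then ‖p.2‖ / ‖p.1‖ else 0)))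
    with h1 | h1
  · have e1 : WI p.1 p.2 = max (barI p.1 p.2)
        (max (if p.1.re < 3 / 5 then (1 : ℝ) else 0)
          (if 2 / 5 < p.1.re then ‖p.2‖ / ‖p.1‖ else 0)) := max_eq_right h1
    rcases le_total (barI p.1 p.2) (max (if p.1.re < 3 / 5 then (1 : ℝ) else 0)
      (if 2 / 5 < p.1.re then ‖p.2‖ / ‖p.1‖ else 0)) with h2 | h2
    · rw [max_eq_right h2] at e1
      rcases le_total (if p.1.re < 3 / 5 then (1 : ℝ) else 0)
        (if 2 / 5 < p.1.re then ‖p.2‖ / ‖p.1‖ else 0) with h3 | h3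
      · rw [max_eq_right h3] at e1
        by_cases hc : 2 / 5 < p.1.re
        · rw [if_pos hc] at e1
          have hx : p.1 ≠ 0 := by
            intro h
            rw [h] at hc
            norm_num at hc
          refine suppI_aux p (fun q => q.2 / q.1) (analyticAt_snd.div analyticAt_fst hx) ?_ ?_
          · rw [e1, norm_div]
          · have hev : ∀ᶠ q : ℂ × ℂ in 𝓝 p, 2 / 5 < q.1.re :=
              (isOpen_lt continuous_const (Complex.continuous_re.comp continuous_fst)).mem_nhds hc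
            filter_upwards [hev] with q hq
            rw [norm_div]
            unfold WI
            refine le_trans ?_ (le_max_right _ _)
            refine le_trans ?_ (le_max_right _ _)
            refine le_trans ?_ (le_max_right _ _)
            rw [if_pos hq]
        · rw [if_neg hc] at e1
          exact absurd e1 hpos.ne'
      · rw [max_eq_left h3] at e1
        by_cases hc : p.1.re < 3 / 5
        · rw [if_pos hc] at e1
          refine suppI_aux p (fun _ => 1) analyticAt_const ?_ ?_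
          · rw [e1, norm_one]
          · have hev : ∀ᶠ q : ℂ × ℂ in 𝓝 p, q.1.re < 3 / 5 :=
              (isOpen_lt (Complex.continuous_re.comp continuous_fst) continuous_const).mem_nhds hc
            filter_upwards [hev] with q hq
            rw [norm_one]
            unfold WI
            refine le_trans ?_ (le_max_right _ _)
            refine le_trans ?_ (le_max_right _ _)
            refine le_trans ?_ (le_max_left _ _)
            rw [if_pos hq]
        · rw [if_neg hc] at e1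
          exact absurd e1 hpos.ne'
    · rw [max_eq_left h2] at e1
      have h5 : ‖(5 : ℂ)‖ = 5 := by simp
      rcases le_total ‖p.1‖ ‖p.2‖ with h3 | h3
      · refine suppI_aux p (fun q => 5 * (1 - q.1) * q.2)
          ((analyticAt_const.mul (analyticAt_const.sub analyticAt_fst)).mul analyticAt_snd) ?_ ?_
        · rw [e1, norm_mul, norm_mul, h5]
          unfold barI
          rw [max_eq_right h3]
        · refine Filter.Eventually.of_forall fun q => ?_
          rw [norm_mul, norm_mul, h5]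
          unfold WI
          refine le_trans ?_ (le_max_right _ _)
          refine le_trans ?_ (le_max_left _ _)
          unfold barI
          exact mul_le_mul_of_nonneg_left (le_max_right _ _) (by positivity)
      · refine suppI_aux p (fun q => 5 * (1 - q.1) * q.1)
          ((analyticAt_const.mul (analyticAt_const.sub analyticAt_fst)).mul analyticAt_fst) ?_ ?_
        · rw [e1, norm_mul, norm_mul, h5]
          unfold barI
          rw [max_eq_left h3]
        · refine Filter.Eventually.of_forall fun q => ?_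
          rw [norm_mul, norm_mul, h5]
          unfold WI
          refine le_trans ?_ (le_max_right _ _)
          refine le_trans ?_ (le_max_left _ _)
          unfold barI
          exact mul_le_mul_of_nonneg_left (le_max_left _ _) (by positivity)
  · have e1 : WI p.1 p.2 = Real.exp (-1) := max_eq_left h1
    refine suppI_aux p (fun _ => ((Real.exp (-1) : ℝ) : ℂ)) analyticAt_const ?_ ?_
    · rw [e1, Complex.norm_real, Real.norm_of_nonneg (Real.exp_pos _).le]
    · refine Filter.Eventually.of_forall fun q => ?_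
      rw [Complex.norm_real, Real.norm_of_nonneg (Real.exp_pos _).le]
      exact le_max_left _ _

end

end Pool.Agent.Helper311.GB.J8735

namespace Pool.Agent.Helper311.GB

alias suppI := J8735.suppI

end Pool.Agent.Helper311.GB
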