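import Mathlib
import Pool.Agent.Helper311.GB.Defs

set_option autoImplicit false

open MeasureTheory Filter Topology Complex Set

namespace Pool.Agent.Helper311.GB.J8709

noncomputable section

theorem tm_mono_le (m n : ℕ) (h : n ≤ m) (a b : ℂ) :
    ∃ r : Polynomial ℂ, ∀ ζ : ℂ, ‖ζ‖ = 1 → (a * ζ ^ m).re * (b * ζ ^ n).re = (r.eval ζ).re := by
  refine ⟨Polynomial.monomial (m + n) (a * b / 2) +
    Polynomial.monomial (m - n) (a * (starRingEnd ℂ b) / 2), fun ζ hζ => ?_⟩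
  have h1 : ζ * (starRingEnd ℂ ζ) = 1 := by
    rw [Complex.mul_conj, Complex.normSq_eq_norm_sq, hζ]; norm_num
  have h2 : ∀ z w : ℂ, z.re * w.re = (z * w / 2 + z * (starRingEnd ℂ w) / 2).re := by
    intro z w
    simp [Complex.add_re, Complex.mul_re]
    ring
  have h3 : ζ ^ m = ζ ^ (m - n) * ζ ^ n := by rw [← pow_add, Nat.sub_add_cancel h]
  have h4 : a * ζ ^ m * (starRingEnd ℂ (b * ζ ^ n)) / 2 =
      a * (starRingEnd ℂ b) / 2 * ζ ^ (m - n) := by
    rw [map_mul, map_pow, h3]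
    have h5 : ζ ^ n * (starRingEnd ℂ ζ) ^ n = 1 := by rw [← mul_pow, h1, one_pow]
    linear_combination (a * ζ ^ (m - n) * (starRingEnd ℂ b) / 2) * h5
  rw [h2, h4, Polynomial.eval_add, Polynomial.eval_monomial, Polynomial.eval_monomial, pow_add]
  congr 1
  ring

theorem tm_mono (m n : ℕ) (a b : ℂ) :
    ∃ r : Polynomial ℂ, ∀ ζ : ℂ, ‖ζ‖ = 1 → (a * ζ ^ m).re * (b * ζ ^ n).re = (r.eval ζ).re := by
  rcases le_total n m with h | h
  · exact tm_mono_le m n h a b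
  · obtain ⟨r, hr⟩ := tm_mono_le n m h b a
    exact ⟨r, fun ζ hζ => by rw [← hr ζ hζ, mul_comm]⟩

theorem tm_mul (p q : Polynomial ℂ) :
    ∃ r : Polynomial ℂ, ∀ ζ : ℂ, ‖ζ‖ = 1 → (p.eval ζ).re * (q.eval ζ).re = (r.eval ζ).re := by
  induction p using Polynomial.induction_on' with
  | add p1 p2 h1 h2 =>
    obtain ⟨r1, hr1⟩ := h1
    obtain ⟨r2, hr2⟩ := h2
    refine ⟨r1 + r2, fun ζ hζ => ?_⟩
    rw [Polynomial.eval_add, Polynomial.eval_add, Complex.add_re, Complex.add_re, add_mul,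
      hr1 ζ hζ, hr2 ζ hζ]
  | monomial m a =>
    induction q using Polynomial.induction_on' with
    | add p1 p2 h1 h2 =>
      obtain ⟨r1, hr1⟩ := h1
      obtain ⟨r2, hr2⟩ := h2
      refine ⟨r1 + r2, fun ζ hζ => ?_⟩
      rw [Polynomial.eval_add, Polynomial.eval_add, Complex.add_re, Complex.add_re, mul_add,
        hr1 ζ hζ, hr2 ζ hζ]
    | monomial n b =>
      obtain ⟨r, hr⟩ := tm_mono m n a b
      refine ⟨r, fun ζ hζ => ?_⟩
      rw [Polynomial.eval_monomial, Polynomial.eval_monomial]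
      exact hr ζ hζ

/-- real parts of polynomials on the circle -/
def tmA : Subalgebra ℝ C(Metric.sphere (0:ℂ) 1, ℝ) where
  carrier := {f | ∃ p : Polynomial ℂ, ∀ ζ : Metric.sphere (0:ℂ) 1, f ζ = (p.eval (ζ:ℂ)).re}
  algebraMap_mem' := by
    intro r
    refine ⟨Polynomial.C (r : ℂ), fun ζ => ?_⟩
    rw [Polynomial.eval_C, Complex.ofReal_re]
    rfl
  add_mem' := by
    rintro f g ⟨p, hp⟩ ⟨q, hq⟩
    refine ⟨p + q, fun ζ => ?_⟩
    rw [Polynomial.eval_add, Complex.add_re, ← hp, ← hq]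
    rfl
  mul_mem' := by
    rintro f g ⟨p, hp⟩ ⟨q, hq⟩
    obtain ⟨r, hr⟩ := tm_mul p q
    refine ⟨r, fun ζ => ?_⟩
    rw [← hr ζ (by simpa using ζ.2), ← hp, ← hq]
    rfl

theorem tmA_sep : tmA.SeparatesPoints := by
  intro x y hxy
  by_cases h : (x : ℂ).re = (y : ℂ).re
  · refine ⟨fun ζ => (ζ : ℂ).im, ⟨⟨fun ζ : Metric.sphere (0:ℂ) 1 => (ζ : ℂ).im, by fun_prop⟩,
      ⟨Polynomial.monomial 1 (-Complex.I), fun ζ => ?_⟩, rfl⟩, ?_⟩
    · rw [Polynomial.eval_monomial]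
      simp
    · intro h'
      exact hxy (Subtype.ext (Complex.ext h h'))
  · refine ⟨fun ζ => (ζ : ℂ).re, ⟨⟨fun ζ : Metric.sphere (0:ℂ) 1 => (ζ : ℂ).re, by fun_prop⟩,
      ⟨Polynomial.X, fun ζ => ?_⟩, rfl⟩, h⟩
    rw [Polynomial.eval_X]
    rfl

theorem trig_maj (φ : ℂ → ℝ) (hφ : ContinuousOn φ (Metric.sphere (0:ℂ) 1)) (ε : ℝ) (hε : 0 < ε) :
    ∃ p : Polynomial ℂ, (∀ ζ : ℂ, ‖ζ‖ = 1 → φ ζ ≤ (p.eval ζ).re) ∧
      (p.eval 0).re ≤ Real.circleAverage φ 0 1 + ε := by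
  have hc : Continuous (fun ζ : Metric.sphere (0:ℂ) 1 => φ ζ + ε / 2) :=
    (continuousOn_iff_continuous_domRestrict.1 hφ).add continuous_const
  obtain ⟨⟨g, p, hp⟩, hg⟩ :=
    ContinuousMap.exists_mem_subalgebra_near_continuousMap_of_separatesPoints tmA tmA_sep
      ⟨fun ζ : Metric.sphere (0:ℂ) 1 => φ ζ + ε / 2, hc⟩ (ε / 2) (by linarith)
  have key : ∀ ζ : ℂ, ‖ζ‖ = 1 → |(p.eval ζ).re - (φ ζ + ε / 2)| < ε / 2 := by
    intro ζ hζ
    have h1 := (ContinuousMap.norm_lt_iff _ (by linarith : (0:ℝ) < ε / 2)).1 hg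
      ⟨ζ, by simpa using hζ⟩
    rw [Real.norm_eq_abs] at h1
    have h2 := hp ⟨ζ, by simpa using hζ⟩
    change |g _ - (φ ζ + ε / 2)| < ε / 2 at h1
    rw [h2] at h1
    exact h1
  refine ⟨p, fun ζ hζ => ?_, ?_⟩
  · have := (abs_lt.1 (key ζ hζ)).1
    linarith
  · have hpc : Continuous (fun ζ : ℂ => p.eval ζ) := p.continuous
    have hmv : Real.circleAverage (fun ζ : ℂ => p.eval ζ) 0 1 = p.eval 0 := by
      apply DiffContOnCl.circleAverage (f := fun ζ : ℂ => p.eval ζ)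
      exact (Polynomial.differentiable p).diffContOnCl
    have hci : CircleIntegrable (fun ζ : ℂ => p.eval ζ) 0 1 :=
      hpc.continuousOn.circleIntegrable'
    have h1 : Real.circleAverage (fun ζ : ℂ => (p.eval ζ).re) 0 1 = (p.eval 0).re := by
      have h2 := ContinuousLinearMap.circleAverage_comp_comm Complex.reCLM hci
      rw [hmv] at h2
      exact h2
    rw [← h1]
    have hφi : CircleIntegrable φ 0 1 := by
      apply ContinuousOn.circleIntegrable'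
      simpa using hφ
    have hci2 : CircleIntegrable (fun ζ : ℂ => (p.eval ζ).re) 0 1 :=
      (Complex.continuous_re.comp hpc).continuousOn.circleIntegrable'
    have hconst : CircleIntegrable (fun _ : ℂ => ε) 0 1 := continuous_const.continuousOn.circleIntegrable'
    have h3 : Real.circleAverage (fun ζ : ℂ => φ ζ + ε) 0 1 = Real.circleAverage φ 0 1 + ε := by
      rw [Real.circleAverage_fun_add hφi hconst, Real.circleAverage_const]
    rw [← h3]
    refine Real.circleAverage_mono hci2 ?_ ?_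
    · exact hφi.add hconst
    · intro ζ hζ
      have hζ' : ‖ζ‖ = 1 := by simpa using hζ
      have := (abs_lt.1 (key ζ hζ')).2
      linarith

end

end Pool.Agent.Helper311.GB.J8709

namespace Pool.Agent.Helper311.GB

alias trig_maj := J8709.trig_maj

end Pool.Agent.Helper311.GB

namespace Pool.Agent.Helper311.GB.J8712

noncomputable section

private theorem avg_re_holo (P : ℂ → ℂ) (hP : Differentiable ℂ P) (c : ℂ) (R : ℝ) :
    Real.circleAverage (fun z => (P z).re) c R = (P c).re := by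
  have h1 : CircleIntegrable P c R := hP.continuous.continuousOn.circleIntegrable'
  have h2 := Complex.reCLM.circleAverage_comp_comm h1
  have h3 : Real.circleAverage P c R = P c := (hP.diffContOnCl).circleAverage
  rw [h3] at h2
  exact h2

theorem loc_glob (h : ℂ → ℝ) (S : Set ℂ) (hS : IsOpen S) (hsub : Metric.closedBall (0:ℂ) 1 ⊆ S)
    (hc : ContinuousOn h S)
    (hl : ∀ ζ ∈ Metric.ball (0:ℂ) 1, ∀ᶠ ρ in 𝓝[>] (0:ℝ), h ζ ≤ Real.circleAverage h ζ ρ) :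
    h 0 ≤ Real.circleAverage h 0 1 := by
  by_contra hcon
  push Not at hcon
  set D : ℝ := h 0 - Real.circleAverage h 0 1 with hD
  have hD0 : 0 < D := by rw [hD]; linarith
  have hcb : ContinuousOn h (Metric.closedBall (0:ℂ) 1) := hc.mono hsub
  obtain ⟨p, hp1, hp0⟩ := trig_maj h (hcb.mono Metric.sphere_subset_closedBall) (D / 2) (by linarith)
  set g : ℂ → ℝ := fun ζ => h ζ - (p.eval ζ).re + D / 4 * ‖ζ‖ ^ 2 with hg
  have hgc : ContinuousOn g (Metric.closedBall (0:ℂ) 1) := by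
    rw [hg]
    refine (hcb.sub ?_).add ?_
    · exact (Complex.continuous_re.comp p.continuous).continuousOn
    · exact (continuous_const.mul (continuous_norm.pow 2)).continuousOn
  obtain ⟨z, hz, hzmax⟩ := (isCompact_closedBall (0:ℂ) 1).exists_isMaxOn
    ⟨0, Metric.mem_closedBall_self zero_le_one⟩ hgc
  have hg0 : D / 2 ≤ g 0 := by
    simp only [hg, norm_zero]
    rw [hD]
    have : (Polynomial.eval 0 p).re ≤ Real.circleAverage h 0 1 + D / 2 := hp0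
    rw [hD] at this
    linarith
  have hgz : D / 2 ≤ g z := hg0.trans (hzmax (Metric.mem_closedBall_self zero_le_one))
  have hzb : z ∈ Metric.ball (0:ℂ) 1 := by
    rw [mem_ball_zero_iff]
    rw [mem_closedBall_zero_iff] at hz
    rcases hz.lt_or_eq with h' | h'
    · exact h'
    · exfalso
      have h1 := hp1 z h'
      have h2 : g z ≤ D / 4 := by
        simp only [hg, h']
        linarith
      linarith
  -- choose the radius
  obtain ⟨r, hr0, hr⟩ := Metric.isOpen_iff.1 Metric.isOpen_ball z hzb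
  have hev : ∀ᶠ ρ in 𝓝[>] (0:ℝ), 0 < ρ ∧ ρ < r :=
    Filter.inter_mem self_mem_nhdsWithin (mem_nhdsWithin_of_mem_nhds (Iio_mem_nhds hr0))
  obtain ⟨ρ, hρ1, hρ0, hρr⟩ := ((hl z hzb).and hev).exists
  have hsph : Metric.sphere z |ρ| ⊆ Metric.closedBall (0:ℂ) 1 := by
    intro w hw
    rw [abs_of_pos hρ0] at hw
    apply Metric.ball_subset_closedBall
    apply hr
    rw [Metric.mem_sphere] at hw
    rw [Metric.mem_ball, hw]
    exact hρr
  set P : ℂ → ℂ := fun w => p.eval w -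
    (D / 4 : ℝ) * (((‖z‖ ^ 2 + ρ ^ 2 : ℝ) : ℂ) + 2 * (starRingEnd ℂ z) * (w - z)) + (g z : ℝ) with hP
  have hPd : Differentiable ℂ P := by
    rw [hP]
    have := p.differentiable
    fun_prop
  have hkey : ∀ w ∈ Metric.sphere z |ρ|, h w ≤ (P w).re := by
    intro w hw
    have h1 : g w ≤ g z := hzmax (hsph hw)
    rw [abs_of_pos hρ0, Metric.mem_sphere, dist_eq_norm] at hw
    have h2 : ‖w‖ ^ 2 = ‖z‖ ^ 2 + ρ ^ 2 + 2 * ((starRingEnd ℂ z) * (w - z)).re := by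
      rw [← hw, ← Complex.normSq_eq_norm_sq, ← Complex.normSq_eq_norm_sq,
        ← Complex.normSq_eq_norm_sq]
      simp only [Complex.normSq_apply, Complex.mul_re, Complex.sub_re, Complex.sub_im,
        Complex.conj_re, Complex.conj_im]
      ring
    have h3 : (P w).re = (p.eval w).re - D / 4 * ‖w‖ ^ 2 + g z := by
      rw [h2]
      simp only [hP, Complex.add_re, Complex.sub_re, Complex.ofReal_re]
      rw [Complex.re_ofReal_mul, Complex.add_re, Complex.ofReal_re, mul_assoc 2,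
        show (2 : ℂ) = ((2 : ℝ) : ℂ) by norm_num, Complex.re_ofReal_mul]
    rw [h3]
    simp only [hg] at h1 ⊢
    linarith
  have hint1 : CircleIntegrable h z ρ := (hcb.mono hsph).circleIntegrable'
  have hint2 : CircleIntegrable (fun w => (P w).re) z ρ :=
    (Complex.continuous_re.comp hPd.continuous).continuousOn.circleIntegrable'
  have h5 := Real.circleAverage_mono hint1 hint2 hkey
  rw [avg_re_holo P hPd z ρ] at h5
  have h6 : (P z).re = h z - D / 4 * ρ ^ 2 := by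
    simp only [hP]
    rw [sub_self, mul_zero, add_zero, Complex.add_re, Complex.sub_re, Complex.re_ofReal_mul,
      Complex.ofReal_re, Complex.ofReal_re]
    simp only [hg]
    ring
  rw [h6] at h5
  have : 0 < D / 4 * ρ ^ 2 := by positivity
  linarith

end

end Pool.Agent.Helper311.GB.J8712

namespace Pool.Agent.Helper311.GB

alias loc_glob := J8712.loc_glob

end Pool.Agent.Helper311.GB

namespace Pool.Agent.Helper311.GB.J8714

noncomputable section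

theorem avg_re (H : ℂ → ℂ) (hH : Differentiable ℂ H) (C : ℝ) :
    Real.circleAverage (fun ζ => (H ζ).re + C) 0 1 = (H 0).re + C := by
  have h1 : (fun ζ : ℂ => (H ζ).re + C) = Complex.reCLM ∘ (fun ζ => H ζ + (C : ℂ)) := by
    ext ζ; simp
  rw [h1, ContinuousLinearMap.circleAverage_comp_comm]
  · have h2 : Real.circleAverage (fun ζ => H ζ + (C:ℂ)) 0 1 = H 0 + C :=
      DiffContOnCl.circleAverage (c := 0) (R := 1) (f := fun ζ => H ζ + (C:ℂ))
        (hH.add_const _).diffContOnCl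
    rw [h2]; simp
  · exact (hH.continuous.add continuous_const).continuousOn.circleIntegrable'

theorem local_step (n : ℕ) (Ω : Set (EuclideanSpace ℂ (Fin n)))
    (u : EuclideanSpace ℂ (Fin n) → EReal) (hu : PSH Ω u)
    (f : ℂ → EuclideanSpace ℂ (Fin n)) (hf : Differentiable ℂ f) (p : Polynomial ℂ)
    (M η k ρ : ℝ) (hη : 0 < η) (hk : 0 ≤ k) (hρ : 0 < ρ)
    (ζ₀ : ℂ) (z₀ : EuclideanSpace ℂ (Fin n))
    (hu0 : u z₀ = ((M + ((p.eval ζ₀).re - η * ‖ζ₀‖ ^ 2) + k * ‖z₀ - f ζ₀‖ ^ 2 : ℝ) : EReal))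
    (hloc : ∀ τ : ℂ, ‖τ‖ < ρ → z₀ + τ • deriv f ζ₀ ∈ Ω ∧ u (z₀ + τ • deriv f ζ₀) ≤
      ((M + ((p.eval (ζ₀ + τ)).re - η * ‖ζ₀ + τ‖ ^ 2) +
        k * ‖z₀ + τ • deriv f ζ₀ - f (ζ₀ + τ)‖ ^ 2 : ℝ) : EReal)) : False := by
  have hc0 : 0 < η / (k + 1) := by positivity
  set c : ℝ := Real.sqrt (η / (k + 1)) with hc
  have hcpos : 0 < c := Real.sqrt_pos.2 hc0
  have hc2 : c ^ 2 = η / (k + 1) := Real.sq_sqrt hc0.le
  have hkc : k * c ^ 2 < η := by
    rw [hc2, mul_div_assoc', div_lt_iff₀ (by linarith)]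
    nlinarith
  have hder := (hasDerivAt_iff_isLittleO_nhds_zero.1 (hf ζ₀).hasDerivAt).def hcpos
  obtain ⟨δ₁, hδ₁, hball⟩ := Metric.eventually_nhds_iff.1 hder
  set r : ℝ := min ρ δ₁ / 2 with hr
  have hmin : 0 < min ρ δ₁ := lt_min hρ hδ₁
  have hr0 : 0 < r := by positivity
  have hrρ : r < ρ := by
    have := min_le_left ρ δ₁
    rw [hr]; linarith
  have hrδ : r < δ₁ := by
    have := min_le_right ρ δ₁
    rw [hr]; linarith
  set d : EuclideanSpace ℂ (Fin n) := z₀ - f ζ₀ with hd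
  let G : ℂ → EuclideanSpace ℂ (Fin n) := fun τ => f ζ₀ + τ • deriv f ζ₀ - f (ζ₀ + τ)
  have hG0 : G 0 = 0 := by simp [G]
  have hGd : Differentiable ℂ G := by
    show Differentiable ℂ (fun τ : ℂ => f ζ₀ + τ • deriv f ζ₀ - f (ζ₀ + τ))
    exact (((differentiable_const _).add (differentiable_id.smul_const _))).sub
      (hf.comp ((differentiable_const _).add differentiable_id))
  have hGn : ∀ τ : ℂ, ‖τ‖ < δ₁ → ‖G τ‖ ≤ c * ‖τ‖ := by
    intro τ hτ
    have h1 := hball (y := τ) (by rwa [dist_zero_right])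
    have h2 : G τ = -(f (ζ₀ + τ) - f ζ₀ - τ • deriv f ζ₀) := by
      show f ζ₀ + τ • deriv f ζ₀ - f (ζ₀ + τ) = _
      abel
    rw [h2, norm_neg]
    exact h1
  let H : ℂ → ℂ := fun ζ => p.eval (ζ₀ + (r : ℂ) * ζ) - 2 * η * (starRingEnd ℂ ζ₀) * (r * ζ) +
    2 * k * inner ℂ d (G (r * ζ))
  have hlin : Differentiable ℂ (fun ζ : ℂ => (r : ℂ) * ζ) := differentiable_id.const_mul _
  have hHd : Differentiable ℂ H := by
    refine Differentiable.add (Differentiable.sub ?_ ?_) ?_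
    · exact p.differentiable.comp ((differentiable_const _).add hlin)
    · exact hlin.const_mul _
    · refine Differentiable.const_mul ?_ _
      exact (innerSL ℂ d).differentiable.comp (hGd.comp hlin)
  have hH0 : (H 0).re = (p.eval ζ₀).re := by
    simp [H, hG0]
  set C : ℝ := M - η * ‖ζ₀‖ ^ 2 - η * r ^ 2 + k * ‖d‖ ^ 2 + k * (c * r) ^ 2 with hC
  have hmem : ∀ ζ : ℂ, ‖ζ‖ ≤ 1 → z₀ + ζ • ((r : ℂ) • deriv f ζ₀) ∈ Ω := by
    intro ζ hζ
    rw [smul_smul]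
    refine (hloc _ ?_).1
    rw [norm_mul, Complex.norm_real, Real.norm_of_nonneg hr0.le]
    nlinarith
  have hle : ∀ ζ : ℂ, ‖ζ‖ = 1 → u (z₀ + ζ • ((r : ℂ) • deriv f ζ₀)) ≤
      (((H ζ).re + C : ℝ) : EReal) := by
    intro ζ hζ
    have hn : ‖(r : ℂ) * ζ‖ = r := by
      rw [norm_mul, Complex.norm_real, Real.norm_of_nonneg hr0.le, hζ, mul_one]
    have h1 := (hloc ((r : ℂ) * ζ) (by rw [hn]; exact hrρ)).2
    have e0 : ζ • ((r : ℂ) • deriv f ζ₀) = ((r : ℂ) * ζ) • deriv f ζ₀ := by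
      rw [smul_smul, mul_comm]
    rw [e0]
    refine h1.trans ?_
    rw [EReal.coe_le_coe_iff]
    have e1 : z₀ + ((r : ℂ) * ζ) • deriv f ζ₀ - f (ζ₀ + (r : ℂ) * ζ) = d + G ((r : ℂ) * ζ) := by
      show _ = z₀ - f ζ₀ + (f ζ₀ + ((r : ℂ) * ζ) • deriv f ζ₀ - f (ζ₀ + (r : ℂ) * ζ))
      abel
    have e2 : ‖d + G ((r : ℂ) * ζ)‖ ^ 2 = ‖d‖ ^ 2 + 2 * (inner ℂ d (G ((r : ℂ) * ζ)) : ℂ).re +
        ‖G ((r : ℂ) * ζ)‖ ^ 2 := by
      exact norm_add_sq (𝕜 := ℂ) d (G ((r : ℂ) * ζ))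
    have e3 : ‖ζ₀ + (r : ℂ) * ζ‖ ^ 2 = ‖ζ₀‖ ^ 2 + 2 * ((starRingEnd ℂ ζ₀) * (r * ζ)).re + r ^ 2 := by
      have h5 : ‖(r : ℂ) * ζ‖ ^ 2 = r ^ 2 := by rw [hn]
      rw [← h5, ← Complex.normSq_eq_norm_sq, ← Complex.normSq_eq_norm_sq,
        ← Complex.normSq_eq_norm_sq]
      simp only [Complex.normSq_apply, Complex.add_re, Complex.add_im, Complex.mul_re,
        Complex.mul_im, Complex.conj_re, Complex.conj_im, Complex.ofReal_re, Complex.ofReal_im]
      ring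
    have e4 : ‖G ((r : ℂ) * ζ)‖ ^ 2 ≤ (c * r) ^ 2 := by
      have := hGn ((r : ℂ) * ζ) (by rw [hn]; exact hrδ)
      rw [hn] at this
      exact pow_le_pow_left₀ (norm_nonneg _) this 2
    have e5 : (H ζ).re = (p.eval (ζ₀ + (r : ℂ) * ζ)).re -
        2 * η * ((starRingEnd ℂ ζ₀) * (r * ζ)).re + 2 * k * (inner ℂ d (G ((r : ℂ) * ζ)) : ℂ).re := by
      show (p.eval (ζ₀ + (r : ℂ) * ζ) - 2 * η * (starRingEnd ℂ ζ₀) * (r * ζ) +
        2 * k * inner ℂ d (G (r * ζ))).re = _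
      rw [Complex.add_re, Complex.sub_re]
      have a1 : (2 * (η : ℂ) * (starRingEnd ℂ ζ₀) * (r * ζ)).re =
          2 * η * ((starRingEnd ℂ ζ₀) * (r * ζ)).re := by
        have : (2 * (η : ℂ) * (starRingEnd ℂ ζ₀) * (r * ζ)) =
            ((2 * η : ℝ) : ℂ) * ((starRingEnd ℂ ζ₀) * (r * ζ)) := by push_cast; ring
        rw [this, Complex.re_ofReal_mul]
      have a2 : (2 * (k : ℂ) * inner ℂ d (G (r * ζ))).re =
          2 * k * (inner ℂ d (G ((r : ℂ) * ζ)) : ℂ).re := by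
        have : (2 * (k : ℂ) * inner ℂ d (G (r * ζ))) =
            ((2 * k : ℝ) : ℂ) * inner ℂ d (G (r * ζ)) := by push_cast; ring
        rw [this, Complex.re_ofReal_mul]
      rw [a1, a2]
    rw [e1, e2, e3, e5, hC]
    have e6 := mul_le_mul_of_nonneg_left e4 hk
    nlinarith
  have hcont : Continuous (fun ζ : ℂ => (H ζ).re + C) :=
    (Complex.continuous_re.comp hHd.continuous).add continuous_const
  have hfin := hu.2.2 z₀ ((r : ℂ) • deriv f ζ₀) hmem (fun ζ => (H ζ).re + C) hcont hle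
  rw [avg_re H hHd C, hH0, hu0, EReal.coe_le_coe_iff, hC] at hfin
  have : (η - k * c ^ 2) * r ^ 2 ≤ 0 := by nlinarith
  have h9 : 0 < (η - k * c ^ 2) * r ^ 2 := mul_pos (by linarith) (by positivity)
  linarith

theorem psh_comp (n : ℕ) (Ω : Set (EuclideanSpace ℂ (Fin n))) (hΩ : IsOpen Ω)
    (u : EuclideanSpace ℂ (Fin n) → EReal) (hu : PSH Ω u)
    (f : ℂ → EuclideanSpace ℂ (Fin n)) (hf : Differentiable ℂ f)
    (hfΩ : ∀ ζ : ℂ, ‖ζ‖ ≤ 1 → f ζ ∈ Ω) (φ : ℂ → ℝ) (hφ : Continuous φ)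
    (h : ∀ ζ : ℂ, ‖ζ‖ = 1 → u (f ζ) ≤ ((φ ζ : ℝ) : EReal)) :
    u (f 0) ≤ ((Real.circleAverage φ 0 1 : ℝ) : EReal) := by
  by_contra hcon
  push Not at hcon
  obtain ⟨r, hr1, hr2⟩ := EReal.lt_iff_exists_real_btwn.1 hcon
  have hr1' : Real.circleAverage φ 0 1 < r := by exact_mod_cast hr1
  set ε : ℝ := (r - Real.circleAverage φ 0 1) / 2 with hε
  have hε0 : 0 < ε := by rw [hε]; linarith
  obtain ⟨p, hp1, hp2⟩ := trig_maj φ hφ.continuousOn ε hε0
  let g : ℂ → ℝ := fun ζ => (p.eval ζ).re - ε / 2 * ‖ζ‖ ^ 2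
  have hgc : Continuous g :=
    (Complex.continuous_re.comp p.continuous).sub (continuous_const.mul (continuous_norm.pow 2))
  have hcomp : IsCompact (f '' Metric.closedBall 0 1) :=
    (isCompact_closedBall 0 1).image hf.continuous
  obtain ⟨δ, hδ, hδΩ⟩ := hcomp.exists_cthickening_subset_open hΩ (by
    rintro _ ⟨ζ, hζ, rfl⟩
    exact hfΩ ζ (by simpa using hζ))
  let K : Set (ℂ × EuclideanSpace ℂ (Fin n)) := {q | ‖q.1‖ ≤ 1 ∧ ‖q.2 - f q.1‖ ≤ δ}
  have hK : IsCompact K := by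
    have h1 : IsCompact ((fun q : ℂ × EuclideanSpace ℂ (Fin n) => (q.1, f q.1 + q.2)) ''
        (Metric.closedBall 0 1 ×ˢ Metric.closedBall 0 δ)) := by
      refine ((isCompact_closedBall 0 1).prod (isCompact_closedBall 0 δ)).image ?_
      exact continuous_fst.prodMk ((hf.continuous.comp continuous_fst).add continuous_snd)
    have h2 : K = ((fun q : ℂ × EuclideanSpace ℂ (Fin n) => (q.1, f q.1 + q.2)) ''
        (Metric.closedBall 0 1 ×ˢ Metric.closedBall 0 δ)) := by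
      ext ⟨ζ, z⟩
      constructor
      · rintro ⟨h3, h4⟩
        refine ⟨(ζ, z - f ζ), ⟨?_, ?_⟩, ?_⟩
        · simpa using h3
        · simpa using h4
        · simp
      · rintro ⟨⟨ζ', w⟩, ⟨h3, h4⟩, h5⟩
        simp only [Prod.mk.injEq] at h5
        obtain ⟨rfl, rfl⟩ := h5
        refine ⟨?_, ?_⟩
        · simpa using h3
        · simpa using h4
    rw [h2]; exact h1
  have hKΩ : ∀ q ∈ K, q.2 ∈ Ω := by
    rintro ⟨ζ, z⟩ ⟨h1, h2⟩
    apply hδΩ
    refine Metric.mem_cthickening_of_dist_le z (f ζ) δ _ ⟨ζ, by simpa using h1, rfl⟩ ?_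
    rw [dist_eq_norm]; exact h2
  have husc : UpperSemicontinuousOn (fun q : ℂ × EuclideanSpace ℂ (Fin n) => u q.2) K :=
    UpperSemicontinuousOn.comp hu.1 continuous_snd.continuousOn (fun q hq => hKΩ q hq)
  let hh : ℝ → ℂ × EuclideanSpace ℂ (Fin n) → ℝ := fun k q => -(g q.1) - k * ‖q.2 - f q.1‖ ^ 2
  let F : ℝ → ℂ × EuclideanSpace ℂ (Fin n) → EReal := fun k q => u q.2 + ((hh k q : ℝ) : EReal)
  have hF : ∀ k, UpperSemicontinuousOn (F k) K := by
    intro k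
    refine UpperSemicontinuousOn.add' husc ?_ ?_
    · have : Continuous (fun q => ((hh k q : ℝ) : EReal)) := by
        refine continuous_coe_real_ereal.comp ?_
        refine ((hgc.comp continuous_fst).neg).sub (continuous_const.mul ?_)
        exact (continuous_norm.comp (continuous_snd.sub (hf.continuous.comp continuous_fst))).pow 2
      exact this.upperSemicontinuous.upperSemicontinuousOn K
    · intro q hq
      exact EReal.continuousAt_add (Or.inr (EReal.coe_ne_bot _)) (Or.inr (EReal.coe_ne_top _))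
  have h0K : ((0 : ℂ), f 0) ∈ K := ⟨by simp, by simp [hδ.le]⟩
  obtain ⟨qB, hqB, hmaxB⟩ := husc.exists_isMaxOn ⟨_, h0K⟩ hK
  obtain ⟨B, hB, -⟩ := EReal.lt_iff_exists_real_btwn.1 (hu.2.1 _ (hKΩ qB hqB))
  have hB' : ∀ q ∈ K, u q.2 ≤ (B : EReal) := fun q hq => (hmaxB hq).trans hB.le
  obtain ⟨G, hG⟩ := (isCompact_closedBall (0:ℂ) 1).exists_bound_of_continuousOn hgc.continuousOn
  have hFle : ∀ k, ∀ q ∈ K, F k q ≤ ((B + G - k * ‖q.2 - f q.1‖ ^ 2 : ℝ) : EReal) := by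
    intro k q hq
    have h1 : hh k q ≤ G - k * ‖q.2 - f q.1‖ ^ 2 := by
      have := hG q.1 (by simpa using hq.1)
      rw [Real.norm_eq_abs, abs_le] at this
      show -(g q.1) - k * ‖q.2 - f q.1‖ ^ 2 ≤ _
      linarith
    have h2 : ((hh k q : ℝ) : EReal) ≤ ((G - k * ‖q.2 - f q.1‖ ^ 2 : ℝ) : EReal) :=
      EReal.coe_le_coe_iff.2 h1
    calc F k q = u q.2 + ((hh k q : ℝ) : EReal) := rfl
      _ ≤ (B : EReal) + ((G - k * ‖q.2 - f q.1‖ ^ 2 : ℝ) : EReal) := add_le_add (hB' q hq) h2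
      _ = _ := by rw [← EReal.coe_add]; congr 1; ring
  -- the bad set
  obtain ⟨v, hv, hv'⟩ := (upperSemicontinuousOn_iff_preimage_Ici.1 (hF 0)) (ε : EReal)
  have hTc : IsCompact ((K ∩ v) ∩ {q : ℂ × EuclideanSpace ℂ (Fin n) | ‖q.1‖ = 1}) := by
    refine (hK.inter_right hv).inter_right ?_
    exact isClosed_eq (continuous_norm.comp continuous_fst) continuous_const
  have hTpos : ∀ q ∈ (K ∩ v) ∩ {q : ℂ × EuclideanSpace ℂ (Fin n) | ‖q.1‖ = 1},
      0 < ‖q.2 - f q.1‖ := by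
    rintro ⟨ζ, z⟩ ⟨hq, hq1⟩
    rw [← hv'] at hq
    rw [norm_pos_iff]
    intro h0
    have hz : z = f ζ := sub_eq_zero.1 h0
    subst hz
    have h1 : (ε : EReal) ≤ F 0 (ζ, f ζ) := hq.2
    have hq1' : ‖ζ‖ = 1 := hq1
    have h2 : F 0 (ζ, f ζ) ≤ ((φ ζ : ℝ) : EReal) + ((hh 0 (ζ, f ζ) : ℝ) : EReal) :=
      add_le_add (h ζ hq1') le_rfl
    rw [← EReal.coe_add] at h2
    have h3 : φ ζ + hh 0 (ζ, f ζ) ≤ ε / 2 := by
      have h4 := hp1 ζ hq1'
      show φ ζ + (-((p.eval ζ).re - ε / 2 * ‖ζ‖ ^ 2) - 0 * ‖f ζ - f ζ‖ ^ 2) ≤ ε / 2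
      rw [hq1']
      nlinarith
    have h5 : (ε : EReal) ≤ ((φ ζ + hh 0 (ζ, f ζ) : ℝ) : EReal) := h1.trans h2
    rw [EReal.coe_le_coe_iff] at h5
    linarith
  obtain ⟨δ', hδ', hδT⟩ : ∃ δ' : ℝ, 0 < δ' ∧
      ∀ q ∈ (K ∩ v) ∩ {q : ℂ × EuclideanSpace ℂ (Fin n) | ‖q.1‖ = 1}, δ' ≤ ‖q.2 - f q.1‖ := by
    rcases ((K ∩ v) ∩ {q : ℂ × EuclideanSpace ℂ (Fin n) | ‖q.1‖ = 1}).eq_empty_or_nonempty with he | he
    · exact ⟨1, one_pos, fun q hq => by rw [he] at hq; exact absurd hq (Set.notMem_empty q)⟩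
    · obtain ⟨q₀, hq₀, hmin⟩ := hTc.exists_isMinOn he (f := fun q => ‖q.2 - f q.1‖)
        ((continuous_norm.comp (continuous_snd.sub (hf.continuous.comp continuous_fst))).continuousOn)
      exact ⟨‖q₀.2 - f q₀.1‖, hTpos q₀ hq₀, fun q hq => hmin hq⟩
  set δ'' : ℝ := min δ δ' with hδ''
  have hδ''0 : 0 < δ'' := lt_min hδ hδ'
  set k : ℝ := |B + G| / δ'' ^ 2 with hk
  have hk0 : 0 ≤ k := by positivity
  have hkδ : B + G - k * δ'' ^ 2 ≤ 0 := by
    rw [hk, div_mul_cancel₀ _ (by positivity)]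
    linarith [le_abs_self (B + G)]
  obtain ⟨⟨ζ₀, z₀⟩, hq₀, hmax⟩ := (hF k).exists_isMaxOn ⟨_, h0K⟩ hK
  have hbig : (ε : EReal) < F k (ζ₀, z₀) := by
    refine lt_of_lt_of_le ?_ (hmax h0K)
    show (ε : EReal) < u (f 0) + ((hh k (0, f 0) : ℝ) : EReal)
    have h1 : ((r : ℝ) : EReal) + ((hh k (0, f 0) : ℝ) : EReal) ≤
        u (f 0) + ((hh k (0, f 0) : ℝ) : EReal) := add_le_add hr2.le le_rfl
    have h1' : ((r : ℝ) : EReal) + ((hh k (0, f 0) : ℝ) : EReal) <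
        u (f 0) + ((hh k (0, f 0) : ℝ) : EReal) := EReal.add_lt_add_right_coe hr2 _
    refine lt_of_le_of_lt ?_ h1'
    rw [← EReal.coe_add, EReal.coe_le_coe_iff]
    have h3 : hh k (0, f 0) = -(p.eval 0).re := by
      show -((p.eval 0).re - ε / 2 * ‖(0:ℂ)‖ ^ 2) - k * ‖f 0 - f 0‖ ^ 2 = _
      simp
    rw [h3]
    rw [hε] at hp2 ⊢
    linarith
  have hfar : ‖z₀ - f ζ₀‖ < δ'' := by
    by_contra hge
    push Not at hge
    have h1 := hFle k _ hq₀
    have h2 : (ε : EReal) < ((B + G - k * ‖z₀ - f ζ₀‖ ^ 2 : ℝ) : EReal) := lt_of_lt_of_le hbig h1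
    rw [EReal.coe_lt_coe_iff] at h2
    have h3 : δ'' ^ 2 ≤ ‖z₀ - f ζ₀‖ ^ 2 := pow_le_pow_left₀ hδ''0.le hge 2
    have h4 := mul_le_mul_of_nonneg_left h3 hk0
    linarith
  have hfarδ : ‖z₀ - f ζ₀‖ < δ := lt_of_lt_of_le hfar (min_le_left _ _)
  have hζ : ‖ζ₀‖ < 1 := by
    refine lt_of_le_of_ne hq₀.1 ?_
    intro h1
    have h2 : F k (ζ₀, z₀) ≤ F 0 (ζ₀, z₀) := by
      refine add_le_add le_rfl ?_
      rw [EReal.coe_le_coe_iff]
      show -(g ζ₀) - k * ‖z₀ - f ζ₀‖ ^ 2 ≤ -(g ζ₀) - 0 * ‖z₀ - f ζ₀‖ ^ 2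
      have : 0 ≤ k * ‖z₀ - f ζ₀‖ ^ 2 := by positivity
      linarith
    have h3 : (ζ₀, z₀) ∈ (K ∩ v) ∩ {q : ℂ × EuclideanSpace ℂ (Fin n) | ‖q.1‖ = 1} := by
      refine ⟨?_, h1⟩
      rw [← hv']
      exact ⟨hq₀, hbig.le.trans h2⟩
    have h4 := hδT _ h3
    have h5 : δ'' ≤ δ' := min_le_right _ _
    have h6 : δ' ≤ ‖z₀ - f ζ₀‖ := h4
    linarith
  -- the value
  have hne_top : F k (ζ₀, z₀) ≠ ⊤ := by
    intro h1
    have h2 := hFle k _ hq₀
    rw [h1, top_le_iff] at h2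
    exact EReal.coe_ne_top _ h2
  have hne_bot : F k (ζ₀, z₀) ≠ ⊥ := ne_bot_of_gt hbig
  set M : ℝ := (F k (ζ₀, z₀)).toReal with hM
  have hMF : F k (ζ₀, z₀) = (M : EReal) := (EReal.coe_toReal hne_top hne_bot).symm
  have hconv : ∀ q, F k q ≤ (M : EReal) → u q.2 ≤ ((M - hh k q : ℝ) : EReal) := by
    intro q hq
    have h1 : u q.2 + ((hh k q : ℝ) : EReal) ≤ (M : EReal) := hq
    have h2 := (EReal.le_sub_iff_add_le (Or.inl (EReal.coe_ne_bot (hh k q)))
      (Or.inl (EReal.coe_ne_top (hh k q)))).2 h1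
    rwa [← EReal.coe_sub] at h2
  have hu0 : u z₀ = ((M - hh k (ζ₀, z₀) : ℝ) : EReal) := by
    refine le_antisymm (hconv (ζ₀, z₀) hMF.le) ?_
    have h1 : u z₀ + ((hh k (ζ₀, z₀) : ℝ) : EReal) = (M : EReal) := hMF
    rw [EReal.coe_sub, ← h1]
    rw [EReal.add_sub_cancel_right]
  have hopen : ∀ᶠ τ : ℂ in 𝓝 0, ‖ζ₀ + τ‖ < 1 ∧
      ‖z₀ + τ • deriv f ζ₀ - f (ζ₀ + τ)‖ < δ := by
    refine Filter.Eventually.and ?_ ?_
    · have hc : Continuous (fun τ : ℂ => ‖ζ₀ + τ‖) := by fun_prop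
      refine (hc.tendsto 0).eventually (gt_mem_nhds ?_)
      simpa using hζ
    · have hfc := hf.continuous
      have hc : Continuous (fun τ : ℂ => ‖z₀ + τ • deriv f ζ₀ - f (ζ₀ + τ)‖) := by fun_prop
      refine (hc.tendsto 0).eventually (gt_mem_nhds ?_)
      simpa using hfarδ
  obtain ⟨ρ, hρ, hρ'⟩ := Metric.eventually_nhds_iff.1 hopen
  refine local_step n Ω u hu f hf p M (ε / 2) k ρ (by linarith) hk0 hρ ζ₀ z₀ ?_ ?_
  · rw [hu0]
    congr 1
    show M - (-((p.eval ζ₀).re - ε / 2 * ‖ζ₀‖ ^ 2) - k * ‖z₀ - f ζ₀‖ ^ 2) = _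
    ring
  · intro τ hτ
    obtain ⟨h1, h2⟩ := hρ' (y := τ) (by rwa [dist_zero_right])
    have h3 : (ζ₀ + τ, z₀ + τ • deriv f ζ₀) ∈ K := ⟨h1.le, h2.le⟩
    refine ⟨hKΩ _ h3, ?_⟩
    have h4 := hconv _ (hMF ▸ hmax h3)
    refine h4.trans_eq ?_
    congr 1
    show M - (-((p.eval (ζ₀ + τ)).re - ε / 2 * ‖ζ₀ + τ‖ ^ 2) -
      k * ‖z₀ + τ • deriv f ζ₀ - f (ζ₀ + τ)‖ ^ 2) = _
    ring

end

end Pool.Agent.Helper311.GB.J8714

namespace Pool.Agent.Helper311.GB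

alias psh_comp := J8714.psh_comp

end Pool.Agent.Helper311.GB

namespace Pool.Agent.Helper311.GB.J8716

noncomputable section

theorem log_pole_ereal {x : EReal} {a b : ℝ} (h : x + (a : EReal) ≤ (b : EReal)) :
    x ≤ ((b - a : ℝ) : EReal) := by
  induction x with
  | bot => exact bot_le
  | coe x =>
    norm_cast at h ⊢
    linarith
  | top =>
    rw [EReal.top_add_coe] at h
    exact absurd h (by simp)

/-- the comparison function -/
theorem log_pole_circle (z0 : ℂ) (r M d e : ℝ) (m : ℕ)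
    (h1 : ∀ ζ ∈ Metric.closedBall (0 : ℂ) 1, (2 : ℂ) * (z0 + (r : ℂ) * ζ) ^ m - 1 ≠ 0)
    (h2 : ∀ ζ ∈ Metric.closedBall (0 : ℂ) 1, (2 : ℂ) - (z0 + (r : ℂ) * ζ) ^ m ≠ 0) :
    ∃ φ : ℂ → ℝ, Continuous φ ∧
      (∀ ζ : ℂ, ‖ζ‖ = 1 → φ ζ = M - d * ‖z0 + (r : ℂ) * ζ‖ ^ 2 +
        (1 - e) * (Real.log ‖(2 : ℂ) * (z0 + (r : ℂ) * ζ) ^ m - 1‖ -
          Real.log ‖(2 : ℂ) - (z0 + (r : ℂ) * ζ) ^ m‖)) ∧
      Real.circleAverage φ 0 1 = M - d * (‖z0‖ ^ 2 + r ^ 2) +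
        (1 - e) * (Real.log ‖(2 : ℂ) * z0 ^ m - 1‖ - Real.log ‖(2 : ℂ) - z0 ^ m‖) := by
  set f1 : ℂ → ℂ := fun ζ => (2 : ℂ) * (z0 + (r : ℂ) * ζ) ^ m - 1 with hf1
  set f2 : ℂ → ℂ := fun ζ => (2 : ℂ) - (z0 + (r : ℂ) * ζ) ^ m with hf2
  set f3 : ℂ → ℂ := fun ζ => (2 * r : ℂ) * ((starRingEnd ℂ) z0 * ζ) with hf3
  have hf1a : ∀ z, AnalyticAt ℂ f1 z := fun z => by
    simp only [hf1]
    fun_prop
  have hf2a : ∀ z, AnalyticAt ℂ f2 z := fun z => by
    simp only [hf2]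
    fun_prop
  have hf3a : ∀ z, AnalyticAt ℂ f3 z := fun z => by
    simp only [hf3]
    fun_prop
  set Hf : ℂ → ℝ := fun ζ => (M - d * (‖z0‖ ^ 2 + r ^ 2)) + (-d) * (f3 ζ).re +
    (1 - e) * (Real.log ‖f1 ζ‖ - Real.log ‖f2 ζ‖) with hHf
  have hharm : InnerProductSpace.HarmonicOnNhd Hf (Metric.closedBall (0 : ℂ) |1|) := by
    intro x hx
    rw [abs_one] at hx
    have e1 : InnerProductSpace.HarmonicAt (fun ζ => Real.log ‖f1 ζ‖) x :=
      (hf1a x).harmonicAt_log_norm (h1 x hx)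
    have e2 : InnerProductSpace.HarmonicAt (fun ζ => Real.log ‖f2 ζ‖) x :=
      (hf2a x).harmonicAt_log_norm (h2 x hx)
    have e3 : InnerProductSpace.HarmonicAt (fun ζ => (f3 ζ).re) x := (hf3a x).harmonicAt_re
    have e4 : InnerProductSpace.HarmonicAt (fun _ : ℂ => M - d * (‖z0‖ ^ 2 + r ^ 2)) x :=
      InnerProductSpace.harmonicAt_const _
    exact (e4.add (e3.const_smul (c := -d))).add ((e1.sub e2).const_smul (c := 1 - e))
  have hcont : ContinuousOn Hf (Metric.closedBall (0 : ℂ) 1) := by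
    have := hharm.continuousOn
    rwa [abs_one] at this
  set pr : ℂ → ℂ := fun ζ => ((max 1 ‖ζ‖ : ℝ) : ℂ)⁻¹ * ζ with hpr
  have hmax : ∀ ζ : ℂ, (0 : ℝ) < max 1 ‖ζ‖ := fun ζ => lt_of_lt_of_le one_pos (le_max_left _ _)
  have hprc : Continuous pr := by
    simp only [hpr]
    have h0 : Continuous fun ζ : ℂ => ((max 1 ‖ζ‖ : ℝ) : ℂ) :=
      Complex.continuous_ofReal.comp (continuous_const.max continuous_norm)
    exact (h0.inv₀ fun ζ => by
      have := (hmax ζ).ne'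
      exact_mod_cast this).mul continuous_id
  have hprm : ∀ ζ, pr ζ ∈ Metric.closedBall (0 : ℂ) 1 := by
    intro ζ
    rw [mem_closedBall_zero_iff]
    simp only [hpr]
    rw [norm_mul, norm_inv, Complex.norm_real, Real.norm_of_nonneg (hmax ζ).le,
      inv_mul_le_iff₀ (hmax ζ), mul_one]
    exact le_max_right _ _
  have hpr1 : ∀ ζ : ℂ, ‖ζ‖ = 1 → pr ζ = ζ := by
    intro ζ hζ
    simp only [hpr]
    rw [hζ, max_self, Complex.ofReal_one, inv_one, one_mul]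
  refine ⟨fun ζ => Hf (pr ζ), hcont.comp_continuous hprc hprm, ?_, ?_⟩
  · intro ζ hζ
    show Hf (pr ζ) = _
    rw [hpr1 ζ hζ]
    have hn : ‖z0 + (r : ℂ) * ζ‖ ^ 2 = ‖z0‖ ^ 2 + r ^ 2 + (f3 ζ).re := by
      have e1 : ‖ζ‖ ^ 2 = 1 := by rw [hζ]; norm_num
      rw [← Complex.normSq_eq_norm_sq, Complex.normSq_apply] at e1
      rw [← Complex.normSq_eq_norm_sq, ← Complex.normSq_eq_norm_sq, Complex.normSq_apply,
        Complex.normSq_apply]
      simp only [hf3, Complex.add_re, Complex.add_im, Complex.mul_re, Complex.mul_im,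
        Complex.ofReal_re, Complex.ofReal_im, Complex.conj_re, Complex.conj_im, Complex.re_ofNat,
        Complex.im_ofNat]
      linear_combination r ^ 2 * e1
    rw [hn]
    simp only [hHf, hf1, hf2]
    ring
  · have e1 : Real.circleAverage (fun ζ => Hf (pr ζ)) 0 1 = Real.circleAverage Hf 0 1 := by
      apply Real.circleAverage_congr_sphere
      intro ζ hζ
      rw [abs_one, mem_sphere_zero_iff_norm] at hζ
      show Hf (pr ζ) = Hf ζ
      rw [hpr1 ζ hζ]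
    rw [e1, hharm.circleAverage_eq]
    simp only [hHf, hf1, hf2, hf3, mul_zero, add_zero, Complex.zero_re]

theorem log_pole (v : ℂ → EReal) (m : ℕ) (hm : 1 ≤ m)
    (husc : UpperSemicontinuousOn v (Metric.closedBall (0:ℂ) 1))
    (hneg : ∀ ζ : ℂ, ‖ζ‖ ≤ 1 → v ζ ≤ 0)
    (hsub : ∀ (c : ℂ) (r : ℝ), 0 < r → ‖c‖ + r ≤ 1 → ∀ φ : ℂ → ℝ, Continuous φ →
      (∀ ζ : ℂ, ‖ζ‖ = 1 → v (c + (r : ℂ) * ζ) ≤ ((φ ζ : ℝ) : EReal)) →
        v c ≤ ((Real.circleAverage φ 0 1 : ℝ) : EReal))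
    (C : ℝ) (hlog : ∀ ζ : ℂ, ‖ζ‖ ≤ 1 → 2 * ζ ^ m ≠ 1 →
      v ζ ≤ ((Real.log ‖1 - 2 * ζ ^ m‖ + C : ℝ) : EReal)) :
    v 0 ≤ ((-Real.log 2 : ℝ) : EReal) := by
  by_contra hcon
  push Not at hcon
  have hm0 : (0 : ℂ) ^ m = 0 := zero_pow (by omega)
  -- `v 0` is a real number
  obtain ⟨v0, hv0⟩ : ∃ v0 : ℝ, v 0 = (v0 : EReal) := by
    have h1 : v 0 ≠ ⊤ := by
      intro h
      have := hneg 0 (by simp)
      rw [h] at this
      exact absurd this (by simp)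
    have h2 : v 0 ≠ ⊥ := by
      intro h
      rw [h] at hcon
      exact absurd hcon (by simp)
    exact ⟨(v 0).toReal, (EReal.coe_toReal h1 h2).symm⟩
  rw [hv0] at hcon
  have hcon' : -Real.log 2 < v0 := by exact_mod_cast hcon
  have hv0le : v0 ≤ 0 := by
    have := hneg 0 (by simp)
    rw [hv0] at this
    exact_mod_cast this
  have hlog2 : Real.log 2 < 1 := by
    have := Real.log_two_lt_d9
    linarith
  have hlog2p : 0 < Real.log 2 := Real.log_pos (by norm_num)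
  have hlog3 : Real.log 3 ≤ 2 := by
    have := Real.log_le_sub_one_of_pos (show (0 : ℝ) < 3 by norm_num)
    linarith
  have hlog3p : 0 < Real.log 3 := Real.log_pos (by norm_num)
  set η : ℝ := v0 + Real.log 2 with hη
  have hη0 : 0 < η := by linarith
  have hη1 : η < 1 := by linarith
  set e : ℝ := η / 4 with he
  set d : ℝ := η / 4 with hd
  have he0 : 0 < e := by positivity
  have he1 : e < 1 := by linarith
  have hd0 : 0 < d := by positivity
  set κ : ℝ := Real.exp (-(|C| + 2 + d) / e) with hκ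
  have hκ0 : 0 < κ := Real.exp_pos _
  have hκ1 : κ ≤ 1 := by
    rw [hκ, Real.exp_le_one_iff]
    apply div_nonpos_of_nonpos_of_nonneg _ he0.le
    have := abs_nonneg C
    linarith
  have hlogκ : e * Real.log κ = -(|C| + 2 + d) := by
    rw [hκ, Real.log_exp]
    field_simp
  -- the denominator
  have hden : ∀ z : ℂ, ‖z‖ ≤ 1 → 1 ≤ ‖(2 : ℂ) - z ^ m‖ ∧ ‖(2 : ℂ) - z ^ m‖ ≤ 3 := by
    intro z hz
    have h1 : ‖z ^ m‖ ≤ 1 := by
      rw [norm_pow]
      exact pow_le_one₀ (norm_nonneg _) hz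
    have h2 : ‖(2 : ℂ)‖ = 2 := by simp
    constructor
    · have := norm_sub_norm_le (2 : ℂ) (z ^ m)
      linarith
    · have := norm_sub_le (2 : ℂ) (z ^ m)
      linarith
  set g : ℂ → ℝ := fun z => -(1 - e) * (Real.log ‖(2 : ℂ) * z ^ m - 1‖ -
    Real.log ‖(2 : ℂ) - z ^ m‖) + d * ‖z‖ ^ 2 with hg
  set K : Set ℂ := {z | ‖z‖ ≤ 1 ∧ κ ≤ ‖(2 : ℂ) * z ^ m - 1‖} with hK
  have hKclosed : IsClosed K := by
    have hc1 : IsClosed {z : ℂ | ‖z‖ ≤ 1} := isClosed_le continuous_norm continuous_const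
    have hc2 : IsClosed {z : ℂ | κ ≤ ‖(2 : ℂ) * z ^ m - 1‖} :=
      isClosed_le continuous_const (by fun_prop)
    exact hc1.inter hc2
  have hKcpt : IsCompact K := by
    refine (isCompact_closedBall (0 : ℂ) 1).of_isClosed_subset hKclosed ?_
    intro z hz
    rw [mem_closedBall_zero_iff]
    exact hz.1
  have h0K : (0 : ℂ) ∈ K := by
    refine ⟨by simp, ?_⟩
    rw [hm0]
    simpa using hκ1
  have hgc : ContinuousOn g K := by
    have c1 : ContinuousOn (fun z : ℂ => Real.log ‖(2 : ℂ) * z ^ m - 1‖) K := by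
      apply ContinuousOn.log (by fun_prop)
      intro z hz
      exact (lt_of_lt_of_le hκ0 hz.2).ne'
    have c2 : ContinuousOn (fun z : ℂ => Real.log ‖(2 : ℂ) - z ^ m‖) K := by
      apply ContinuousOn.log (by fun_prop)
      intro z hz
      exact (lt_of_lt_of_le one_pos (hden z hz.1).1).ne'
    have c3 : ContinuousOn (fun z : ℂ => d * ‖z‖ ^ 2) K := by fun_prop
    exact (continuousOn_const.mul (c1.sub c2)).add c3
  have hWusc : UpperSemicontinuousOn (fun z => v z + ((g z : ℝ) : EReal)) K := by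
    refine UpperSemicontinuousOn.add' (husc.mono ?_) ?_ ?_
    · intro z hz
      rw [mem_closedBall_zero_iff]
      exact hz.1
    · have : ContinuousOn (fun z => ((g z : ℝ) : EReal)) K :=
        continuous_coe_real_ereal.comp_continuousOn hgc
      exact this.upperSemicontinuousOn
    · intro z hz
      exact EReal.continuousAt_add (Or.inr (by simp)) (Or.inr (by simp))
  obtain ⟨zs, hzsK, hmax⟩ := hWusc.exists_isMaxOn ⟨0, h0K⟩ hKcpt
  have hmax' : ∀ z ∈ K, v z + ((g z : ℝ) : EReal) ≤ v zs + ((g zs : ℝ) : EReal) :=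
    fun z hz => hmax hz
  have hg0 : g 0 = (1 - e) * Real.log 2 := by
    simp only [hg]
    rw [hm0]
    simp
    ring
  have hF0 : 2 * d < v0 + g 0 := by
    rw [hg0]
    have : v0 + (1 - e) * Real.log 2 = η - e * Real.log 2 := by rw [hη]; ring
    rw [this]
    have : e * Real.log 2 ≤ e * 1 := mul_le_mul_of_nonneg_left hlog2.le he0.le
    linarith
  obtain ⟨as, has⟩ : ∃ as : ℝ, v zs = (as : EReal) := by
    have h1 : v zs ≠ ⊤ := by
      intro h
      have := hneg zs hzsK.1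
      rw [h] at this
      exact absurd this (by simp)
    have h2 : v zs ≠ ⊥ := by
      intro h
      have := hmax' 0 h0K
      rw [h, hv0, EReal.bot_add] at this
      norm_cast at this
    exact ⟨(v zs).toReal, (EReal.coe_toReal h1 h2).symm⟩
  set M : ℝ := as + g zs with hM
  have hvM : ∀ z ∈ K, v z ≤ ((M - g z : ℝ) : EReal) := by
    intro z hz
    apply log_pole_ereal
    have := hmax' z hz
    rw [has, ← EReal.coe_add] at this
    exact this
  have hM2 : 2 * d < M := by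
    have := hvM 0 h0K
    rw [hv0] at this
    have h1 : v0 ≤ M - g 0 := by exact_mod_cast this
    linarith
  have hasle : as ≤ 0 := by
    have := hneg zs hzsK.1
    rw [has] at this
    exact_mod_cast this
  -- `zs` is not on the unit circle
  have hzs1 : ‖zs‖ < 1 := by
    refine lt_of_le_of_ne hzsK.1 fun h => ?_
    have hs1 : ‖zs ^ m‖ = 1 := by rw [norm_pow, h, one_pow]
    have h2 : ‖(2 : ℂ) * zs ^ m - 1‖ = ‖(2 : ℂ) - zs ^ m‖ := by
      have h3 : ‖(2 : ℂ) * zs ^ m - 1‖ ^ 2 = ‖(2 : ℂ) - zs ^ m‖ ^ 2 := by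
        have h4 : ‖zs ^ m‖ ^ 2 = 1 := by rw [hs1]; norm_num
        rw [← Complex.normSq_eq_norm_sq, Complex.normSq_apply] at h4
        rw [← Complex.normSq_eq_norm_sq, ← Complex.normSq_eq_norm_sq, Complex.normSq_apply,
          Complex.normSq_apply]
        simp only [Complex.sub_re, Complex.sub_im, Complex.mul_re, Complex.mul_im,
          Complex.re_ofNat, Complex.im_ofNat, Complex.one_re, Complex.one_im]
        linear_combination 3 * h4
      exact (sq_eq_sq₀ (norm_nonneg _) (norm_nonneg _)).1 h3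
    have h5 : g zs = d := by
      simp only [hg]
      rw [h2, h]
      ring
    rw [hM, h5] at hM2
    linarith
  -- `zs` is not on the inner boundary
  have hzs2 : κ < ‖(2 : ℂ) * zs ^ m - 1‖ := by
    refine lt_of_le_of_ne hzsK.2 fun h => ?_
    have h2 : (2 : ℂ) * zs ^ m ≠ 1 := by
      intro h3
      rw [h3, sub_self, norm_zero] at h
      exact hκ0.ne' h
    have h4 := hlog zs hzsK.1 h2
    rw [has, norm_sub_rev, ← h] at h4
    have h5 : as ≤ Real.log κ + C := by exact_mod_cast h4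
    obtain ⟨h6, h7⟩ := hden zs hzsK.1
    have h8 : Real.log ‖(2 : ℂ) - zs ^ m‖ ≤ Real.log 3 :=
      Real.log_le_log (by linarith) h7
    have h9 : 0 ≤ Real.log ‖(2 : ℂ) - zs ^ m‖ := Real.log_nonneg h6
    have h10 : g zs = -(1 - e) * (Real.log κ - Real.log ‖(2 : ℂ) - zs ^ m‖) + d * ‖zs‖ ^ 2 := by
      simp only [hg]
      rw [← h]
    have h11 : ‖zs‖ ^ 2 ≤ 1 := pow_le_one₀ (norm_nonneg _) hzsK.1
    have h12 : (1 - e) * Real.log ‖(2 : ℂ) - zs ^ m‖ ≤ 2 := by nlinarith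
    have h13 := le_abs_self C
    have h14 : d * ‖zs‖ ^ 2 ≤ d := by nlinarith
    have h15 : M ≤ e * Real.log κ + C + 2 + d := by
      rw [hM, h10]
      nlinarith
    rw [hlogκ] at h15
    linarith
  -- a small disc
  have hUo : IsOpen {z : ℂ | κ < ‖(2 : ℂ) * z ^ m - 1‖} :=
    isOpen_lt continuous_const (by fun_prop)
  obtain ⟨ε, hε, hball⟩ := Metric.isOpen_iff.1 hUo zs hzs2
  set r : ℝ := min (ε / 2) (1 - ‖zs‖) with hr
  have hr0 : 0 < r := lt_min (by positivity) (by linarith)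
  have hr1 : ‖zs‖ + r ≤ 1 := by
    have := min_le_right (ε / 2) (1 - ‖zs‖)
    linarith
  have hrε : r < ε := lt_of_le_of_lt (min_le_left _ _) (by linarith)
  have hin : ∀ ζ : ℂ, ‖ζ‖ ≤ 1 → ‖zs + (r : ℂ) * ζ‖ ≤ 1 ∧
      κ < ‖(2 : ℂ) * (zs + (r : ℂ) * ζ) ^ m - 1‖ := by
    intro ζ hζ
    have h1 : ‖(r : ℂ) * ζ‖ ≤ r := by
      rw [norm_mul, Complex.norm_real, Real.norm_of_nonneg hr0.le]
      nlinarith
    refine ⟨?_, ?_⟩
    · have := norm_add_le zs ((r : ℂ) * ζ)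
      linarith
    · apply hball
      rw [Metric.mem_ball, dist_eq_norm, add_sub_cancel_left]
      linarith
  obtain ⟨φ, hφc, hφ1, hφ2⟩ := log_pole_circle zs r M d e m
    (fun ζ hζ => by
      rw [mem_closedBall_zero_iff] at hζ
      have := (hin ζ hζ).2
      intro h
      rw [h, norm_zero] at this
      linarith)
    (fun ζ hζ => by
      rw [mem_closedBall_zero_iff] at hζ
      have := (hden _ (hin ζ hζ).1).1
      intro h
      rw [h, norm_zero] at this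
      linarith)
  have hfin := hsub zs r hr0 hr1 φ hφc (fun ζ hζ => by
    obtain ⟨h1, h2⟩ := hin ζ hζ.le
    refine (hvM _ ⟨h1, h2.le⟩).trans ?_
    rw [hφ1 ζ hζ]
    apply le_of_eq
    congr 1
    simp only [hg]
    ring)
  rw [has, hφ2] at hfin
  have hfin' : as ≤ M - d * (‖zs‖ ^ 2 + r ^ 2) +
        (1 - e) * (Real.log ‖(2 : ℂ) * zs ^ m - 1‖ - Real.log ‖(2 : ℂ) - zs ^ m‖) := by
    exact_mod_cast hfin
  have hgz : g zs = -(1 - e) * (Real.log ‖(2 : ℂ) * zs ^ m - 1‖ -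
    Real.log ‖(2 : ℂ) - zs ^ m‖) + d * ‖zs‖ ^ 2 := rfl
  rw [hM, hgz] at hfin'
  have : 0 < d * r ^ 2 := by positivity
  linarith

end

end Pool.Agent.Helper311.GB.J8716

namespace Pool.Agent.Helper311.GB

alias log_pole := J8716.log_pole

end Pool.Agent.Helper311.GB

namespace Pool.Agent.Helper311.GB.J8718

noncomputable section

theorem green_disc (n : ℕ) (Ω : Set (EuclideanSpace ℂ (Fin n))) (hΩ : IsOpen Ω)
    (q e₁ e₂ : EuclideanSpace ℂ (Fin n)) (he : ∀ ξ : ℂ, e₁ + ξ • e₂ ≠ 0) (m : ℕ) (hm : 1 ≤ m)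
    (hd : ∀ ξ : ℂ, ‖ξ‖ ≤ 1 → q + (1 - 2 * ξ ^ m) • (e₁ + ξ • e₂) ∈ Ω) :
    green Ω q (q + e₁) ≤ ((-Real.log 2 : ℝ) : EReal) := by
  apply sSup_le
  rintro t ⟨u, hpsh, hneg, ⟨C, hC⟩, rfl⟩
  set f : ℂ → EuclideanSpace ℂ (Fin n) := fun ξ => q + (1 - 2 * ξ ^ m) • (e₁ + ξ • e₂) with hf
  have hf0 : f 0 = q + e₁ := by
    simp only [hf]
    rw [zero_pow (by omega)]
    simp
  have hfd : Differentiable ℂ f := by
    simp only [hf]
    fun_prop
  have hfc : Continuous f := hfd.continuous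
  rw [← hf0]
  refine log_pole (fun ζ => u (f ζ)) m hm ?_ ?_ ?_ (C + Real.log (‖e₁‖ + ‖e₂‖)) ?_
  · intro ζ hζ y hy
    have hζ' : ‖ζ‖ ≤ 1 := by simpa using hζ
    have h1 := hpsh.1 (f ζ) (hd ζ hζ') y hy
    have h2 : Tendsto f (𝓝[Metric.closedBall (0:ℂ) 1] ζ) (𝓝[Ω] (f ζ)) := by
      apply tendsto_nhdsWithin_of_tendsto_nhds_of_eventually_within
      · exact (hfc.tendsto ζ).mono_left nhdsWithin_le_nhds
      · filter_upwards [self_mem_nhdsWithin] with x hx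
        exact hd x (by simpa using hx)
    exact h2.eventually h1
  · intro ζ hζ
    exact hneg _ (hd ζ hζ)
  · intro c r hr hcr φ hφ h
    have := psh_comp n Ω hΩ u hpsh (fun ζ => f (c + (r : ℂ) * ζ))
      (hfd.comp (by fun_prop)) (by
        intro ζ hζ
        apply hd
        calc ‖c + (r : ℂ) * ζ‖ ≤ ‖c‖ + ‖(r : ℂ) * ζ‖ := norm_add_le _ _
          _ ≤ ‖c‖ + r * 1 := by
              rw [norm_mul, Complex.norm_real, Real.norm_eq_abs, abs_of_pos hr]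
              gcongr
          _ ≤ 1 := by linarith) φ hφ h
    simpa using this
  · intro ζ hζ hne
    have h1 : (1 - 2 * ζ ^ m) ≠ 0 := by
      intro h0
      apply hne
      linear_combination -h0
    have h2 : f ζ ≠ q := by
      intro h0
      have : (1 - 2 * ζ ^ m) • (e₁ + ζ • e₂) = 0 := by
        have h3 : f ζ = q + (1 - 2 * ζ ^ m) • (e₁ + ζ • e₂) := rfl
        rw [h3] at h0
        simpa using h0
      rcases smul_eq_zero.1 this with h3 | h3
      · exact h1 h3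
      · exact he ζ h3
    have h4 := hC (f ζ) (hd ζ hζ) h2
    refine h4.trans ?_
    rw [EReal.coe_le_coe_iff]
    have h5 : f ζ - q = (1 - 2 * ζ ^ m) • (e₁ + ζ • e₂) := by
      simp [hf]
    rw [h5, norm_smul]
    have h6 : 0 < ‖1 - 2 * ζ ^ m‖ := norm_pos_iff.2 h1
    have h7 : 0 < ‖e₁ + ζ • e₂‖ := norm_pos_iff.2 (he ζ)
    have h8 : ‖e₁ + ζ • e₂‖ ≤ ‖e₁‖ + ‖e₂‖ := by
      refine (norm_add_le _ _).trans ?_
      rw [norm_smul]
      have := mul_le_of_le_one_left (norm_nonneg e₂) hζ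
      linarith
    rw [Real.log_mul h6.ne' h7.ne']
    have h9 := Real.log_le_log h7 h8
    linarith

end

end Pool.Agent.Helper311.GB.J8718

namespace Pool.Agent.Helper311.GB

alias green_disc := J8718.green_disc

end Pool.Agent.Helper311.GB
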