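import Mathlib
import Pool.Agent.Helper311.GB.Defs

set_option autoImplicit false

open MeasureTheory Filter Topology Complex Set

namespace Pool.Agent.Helper311.GB.J8736

noncomputable section

theorem logmax_sub (w c : ℂ) (τ ρ : ℝ) (hw : w ≠ 0) (hτ : 0 < τ) (hρ : 0 < ρ) :
    Real.log (max ‖1 - c / w‖ τ) ≤
      Real.circleAverage (fun t => Real.log (max ‖1 - t / w‖ τ)) c ρ := by
  have hw0 : 0 < ‖w‖ := norm_pos_iff.2 hw
  have hfc : Continuous (fun t : ℂ => Real.log (max ‖1 - t / w‖ τ)) := by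
    apply Continuous.log
    · exact ((continuous_const.sub (continuous_id.div_const w)).norm).max continuous_const
    · intro t
      exact (lt_of_lt_of_le hτ (le_max_right _ _)).ne'
  have hfi : CircleIntegrable (fun t : ℂ => Real.log (max ‖1 - t / w‖ τ)) c ρ :=
    hfc.continuousOn.circleIntegrable'
  rcases le_or_gt ‖1 - c / w‖ τ with h | h
  · rw [max_eq_right h]
    have h1 : Real.circleAverage (fun _ : ℂ => Real.log τ) c ρ ≤
        Real.circleAverage (fun t => Real.log (max ‖1 - t / w‖ τ)) c ρ := by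
      apply Real.circleAverage_mono (circleIntegrable_const _ _ _) hfi
      intro t _
      exact Real.log_le_log hτ (le_max_right _ _)
    rwa [Real.circleAverage_const] at h1
  · rw [max_eq_left h.le]
    have hnorm : ∀ t : ℂ, ‖1 - t / w‖ = ‖t - w‖ / ‖w‖ := by
      intro t
      rw [show 1 - t / w = -((t - w) / w) by field_simp; ring, norm_neg, norm_div]
    have hcw : 0 < ‖c - w‖ := by
      have : 0 < ‖1 - c / w‖ := hτ.trans h
      rw [hnorm] at this
      by_contra hcon
      have h0 : ‖c - w‖ = 0 := le_antisymm (not_lt.1 hcon) (norm_nonneg _)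
      rw [h0, zero_div] at this
      exact lt_irrefl _ this
    rw [hnorm, Real.log_div hcw.ne' hw0.ne']
    -- the comparison function
    set G : ℂ → ℝ := fun t => Real.log ‖t - w‖ + (-Real.log ‖w‖) with hG
    have hgi : CircleIntegrable (fun t : ℂ => Real.log ‖t - w‖) c ρ :=
      circleIntegrable_log_norm_sub_const ρ
    have hGi : CircleIntegrable G c ρ := hgi.add (circleIntegrable_const _ _ _)
    have hGavg : Real.circleAverage G c ρ =
        Real.log ρ + Real.posLog (ρ⁻¹ * ‖c - w‖) - Real.log ‖w‖ := by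
      have e1 := Real.circleAverage_fun_add hgi (circleIntegrable_const (-Real.log ‖w‖) c ρ)
      rw [Real.circleAverage_const] at e1
      have e2 : Real.circleAverage (fun t : ℂ => Real.log ‖t - w‖) c ρ = _ :=
        circleAverage_log_norm_sub_const_eq_log_radius_add_posLog (a := w) (c := c) hρ.ne'
      rw [e2] at e1
      rw [hG]
      linarith [e1]
    have h2 : Real.log ‖c - w‖ - Real.log ‖w‖ ≤ Real.circleAverage G c ρ := by
      rw [hGavg]
      have h3 : Real.log (ρ⁻¹ * ‖c - w‖) ≤ Real.posLog (ρ⁻¹ * ‖c - w‖) := by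
        rw [Real.posLog_apply]
        exact le_max_right _ _
      rw [Real.log_mul (inv_ne_zero hρ.ne') hcw.ne', Real.log_inv] at h3
      linarith
    refine h2.trans ?_
    -- modify at one point
    have hco : {w}ᶜ ∈ codiscreteWithin (Metric.sphere c |ρ|) := by
      apply codiscreteWithin_iff_locallyFiniteComplementWithin.2
      intro z hz
      refine ⟨Set.univ, Filter.univ_mem, ?_⟩
      apply Set.Subsingleton.finite
      intro z₁ hz₁ z₂ hz₂
      have e1 : z₁ = w := by
        by_contra hne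
        exact hz₁.2.2 hne
      have e2 : z₂ = w := by
        by_contra hne
        exact hz₂.2.2 hne
      rw [e1, e2]
    classical
    have hcongr : G =ᶠ[codiscreteWithin (Metric.sphere c |ρ|)]
        (Function.update G w (Real.log τ)) := by
      filter_upwards [hco] with t ht
      rw [Function.update_of_ne ht]
    rw [Real.circleAverage_congr_codiscreteWithin hcongr hρ.ne']
    apply Real.circleAverage_mono (hGi.congr_codiscreteWithin hcongr) hfi
    intro t _
    by_cases htw : t = w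
    · rw [htw, Function.update_self]
      exact Real.log_le_log hτ (le_max_right _ _)
    · rw [Function.update_of_ne htw]
      have htw' : 0 < ‖t - w‖ := norm_pos_iff.2 (sub_ne_zero.2 htw)
      have e1 : G t = Real.log ‖1 - t / w‖ := by
        rw [hnorm, Real.log_div htw'.ne' hw0.ne']
        rfl
      rw [e1]
      apply Real.log_le_log _ (le_max_left _ _)
      rw [hnorm]
      positivity

end

end Pool.Agent.Helper311.GB.J8736

namespace Pool.Agent.Helper311.GB

alias logmax_sub := J8736.logmax_sub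

end Pool.Agent.Helper311.GB

namespace Pool.Agent.Helper311.GB.J8737

noncomputable section

private theorem norm_pw (i : ℕ) : ‖pw i‖ = (8:ℝ)⁻¹ ^ (i + 2) := by
  unfold pw
  rw [norm_pow, norm_inv]
  simp

private theorem norm_div_pw (i : ℕ) (t : ℂ) : ‖t / pw i‖ = ‖t‖ * 8 ^ (i + 2) := by
  rw [norm_div, norm_pw, inv_pow, div_inv_eq_mul]

private theorem pt_pos (i : ℕ) : 0 < pt i := Real.exp_pos _

private theorem pt_le (i : ℕ) : pt i ≤ 1 := by
  unfold pt
  rw [Real.exp_le_one_iff]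
  have : (0:ℝ) < 7 * 4 ^ (i + 3) := by positivity
  linarith

theorem psi_normal (δ R : ℝ) (hδ : 0 < δ) : ∃ M : ℕ → ℝ, Summable M ∧
    ∀ (i : ℕ) (t : ℂ), δ ≤ ‖t‖ → ‖t‖ ≤ R → |pd i * pphi i t| ≤ M i := by
  have hlim : Tendsto (fun i : ℕ => (8:ℝ)⁻¹ ^ (i + 2)) atTop (𝓝 0) := by
    have h := tendsto_pow_atTop_nhds_zero_of_lt_one (r := (8:ℝ)⁻¹) (by norm_num) (by norm_num)
    exact (tendsto_add_atTop_iff_nat 2).mpr h
  obtain ⟨N, hN⟩ := (hlim.eventually (ge_mem_nhds (show (0:ℝ) < δ / 2 by positivity))).exists_forall_of_atTop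
  refine ⟨fun i => pd i * (Real.log (1 + |R|) + ((i : ℝ) + 2) * Real.log 8) +
    (if i < N then 7 else 0), ?_, ?_⟩
  · apply Summable.add
    · have h0 := summable_geometric_of_lt_one (r := (4:ℝ)⁻¹) (by norm_num) (by norm_num)
      have h1 := summable_pow_mul_geometric_of_norm_lt_one (R := ℝ) 1 (r := (4:ℝ)⁻¹) (by norm_num)
      have h2 := (h0.mul_left ((4:ℝ)⁻¹ ^ 3 * (Real.log (1 + |R|) + 2 * Real.log 8))).add
        (h1.mul_left ((4:ℝ)⁻¹ ^ 3 * Real.log 8))
      refine h2.congr ?_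
      intro i
      unfold pd
      rw [pow_add]
      ring
    · apply summable_of_ne_finset_zero (s := Finset.range N)
      intro i hi
      rw [if_neg]
      simpa using hi
  · intro i t ht1 ht2
    have hR : ‖t‖ ≤ |R| := ht2.trans (le_abs_self R)
    have hpd : 0 < pd i := by unfold pd; positivity
    have hmaxpos : 0 < max ‖1 - t / pw i‖ (pt i) := lt_max_of_lt_right (pt_pos i)
    have h8 : (1:ℝ) ≤ 8 ^ (i + 2) := one_le_pow₀ (by norm_num)
    have hup : pphi i t ≤ Real.log (1 + |R|) + ((i : ℝ) + 2) * Real.log 8 := by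
      have e1 : Real.log (1 + |R|) + ((i : ℝ) + 2) * Real.log 8 =
          Real.log ((1 + |R|) * 8 ^ (i + 2)) := by
        rw [Real.log_mul (by positivity) (by positivity), Real.log_pow]
        push_cast
        ring
      rw [e1]
      unfold pphi
      apply Real.log_le_log hmaxpos
      apply max_le
      · calc ‖1 - t / pw i‖ ≤ ‖(1:ℂ)‖ + ‖t / pw i‖ := norm_sub_le _ _
          _ = 1 + ‖t‖ * 8 ^ (i + 2) := by rw [norm_one, norm_div_pw]
          _ ≤ 8 ^ (i + 2) + |R| * 8 ^ (i + 2) := by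
              apply add_le_add h8
              exact mul_le_mul_of_nonneg_right hR (by positivity)
          _ = (1 + |R|) * 8 ^ (i + 2) := by ring
      · calc pt i ≤ 1 := pt_le i
          _ = 1 * 1 := by ring
          _ ≤ (1 + |R|) * 8 ^ (i + 2) := by
              apply mul_le_mul _ h8 (by norm_num) (by positivity)
              have := abs_nonneg R
              linarith
    have hLnn : 0 ≤ Real.log (1 + |R|) + ((i : ℝ) + 2) * Real.log 8 := by
      have h1 : 0 ≤ Real.log (1 + |R|) := Real.log_nonneg (by have := abs_nonneg R; linarith)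
      have h2 : 0 ≤ Real.log 8 := Real.log_nonneg (by norm_num)
      positivity
    rw [abs_le]
    constructor
    · -- lower bound
      have hlow : -(if i < N then (7:ℝ) else 0) ≤ pd i * pphi i t := by
        by_cases hi : i < N
        · rw [if_pos hi]
          have h1 : -(7 * 4 ^ (i + 3)) ≤ pphi i t := by
            unfold pphi
            have : Real.log (pt i) = -(7 * 4 ^ (i + 3)) := Real.log_exp _
            rw [← this]
            exact Real.log_le_log (pt_pos i) (le_max_right _ _)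
          have h2 : pd i * (7 * 4 ^ (i + 3)) = 7 := by
            unfold pd
            rw [inv_pow]
            field_simp
          have h3 := mul_le_mul_of_nonneg_left h1 hpd.le
          rw [mul_neg, h2] at h3
          exact h3
        · rw [if_neg hi, neg_zero]
          apply mul_nonneg hpd.le
          unfold pphi
          apply Real.log_nonneg
          apply le_max_of_le_left
          have h1 : (8:ℝ)⁻¹ ^ (i + 2) ≤ δ / 2 := hN i (by omega)
          have h2 : 2 ≤ ‖t‖ * 8 ^ (i + 2) := by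
            have h3 : δ / 2 ≤ ‖t‖ / 2 := by linarith
            have h4 : (8:ℝ)⁻¹ ^ (i + 2) ≤ ‖t‖ / 2 := h1.trans h3
            rw [inv_pow, inv_le_iff_one_le_mul₀ (by positivity)] at h4
            linarith
          have h5 : ‖t / pw i‖ - ‖(1:ℂ)‖ ≤ ‖t / pw i - 1‖ := norm_sub_norm_le _ _
          rw [norm_sub_rev, norm_div_pw, norm_one] at h5
          linarith
      have h6 : 0 ≤ pd i * (Real.log (1 + |R|) + ((i : ℝ) + 2) * Real.log 8) := by positivity
      linarith
    · have h1 := mul_le_mul_of_nonneg_left hup hpd.le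
      have h2 : (0:ℝ) ≤ if i < N then 7 else 0 := by
        split_ifs <;> norm_num
      linarith

end

end Pool.Agent.Helper311.GB.J8737

namespace Pool.Agent.Helper311.GB

alias psi_normal := J8737.psi_normal

end Pool.Agent.Helper311.GB

namespace Pool.Agent.Helper311.GB.J8738

noncomputable section

theorem pt_pos8738 (i : ℕ) : 0 < pt i := Real.exp_pos _

theorem pphi_cont8738 (i : ℕ) : Continuous (pphi i) := by
  unfold pphi
  refine Continuous.log (by fun_prop) fun s => ?_
  have := pt_pos8738 i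
  exact (lt_of_lt_of_le this (le_max_right _ _)).ne'

theorem pd_nonneg8738 (i : ℕ) : 0 ≤ pd i := by
  unfold pd; positivity

theorem pw_ne8738 (i : ℕ) : pw i ≠ 0 := by
  unfold pw
  exact pow_ne_zero _ (by norm_num)

theorem sub8738 (c : ℂ) (δ R ρ : ℝ) (hδ : 0 < δ) (hρ : 0 < ρ)
    (h : ∀ s : ℂ, ‖s - c‖ = ρ → δ ≤ ‖s‖ ∧ ‖s‖ ≤ R)
    (hc : Summable fun i => pd i * pphi i c) : psi c ≤ Real.circleAverage psi c ρ := by
  obtain ⟨M, hM, hMb⟩ := psi_normal δ R hδ
  have hcirc : ∀ θ : ℝ, ‖circleMap c ρ θ - c‖ = ρ := by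
    intro θ
    rw [circleMap_sub_center, norm_circleMap_zero, abs_of_pos hρ]
  have hsum : HasSum (fun i => ∫ θ in (0:ℝ)..(2 * Real.pi), pd i * pphi i (circleMap c ρ θ))
      (∫ θ in (0:ℝ)..(2 * Real.pi), psi (circleMap c ρ θ)) := by
    refine intervalIntegral.hasSum_integral_of_dominated_convergence (fun i _ => M i) ?_ ?_ ?_ ?_ ?_
    · intro i
      exact (continuous_const.mul ((pphi_cont8738 i).comp
        (continuous_circleMap c ρ))).aestronglyMeasurable
    · intro i
      refine Eventually.of_forall fun θ _ => ?_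
      obtain ⟨h1, h2⟩ := h _ (hcirc θ)
      exact hMb i _ h1 h2
    · exact Eventually.of_forall fun θ _ => hM
    · exact intervalIntegrable_const
    · refine Eventually.of_forall fun θ _ => ?_
      obtain ⟨h1, h2⟩ := h _ (hcirc θ)
      exact (Summable.of_norm_bounded hM fun i => hMb i _ h1 h2).hasSum
  have hsum2 := hsum.const_smul ((2 * Real.pi)⁻¹ : ℝ)
  refine hasSum_le (fun i => ?_) hc.hasSum hsum2
  have h1 := logmax_sub (pw i) c (pt i) ρ (pw_ne8738 i) (pt_pos8738 i) hρ
  have h2 := mul_le_mul_of_nonneg_left h1 (pd_nonneg8738 i)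
  refine h2.trans (le_of_eq ?_)
  unfold Real.circleAverage
  rw [intervalIntegral.integral_const_mul]
  simp only [smul_eq_mul, pphi]
  ring

theorem psi_cont_sub : (∀ t : ℂ, t ≠ 0 → ContinuousAt psi t) ∧
    (∀ t : ℂ, ∀ᶠ ρ in 𝓝[>] (0:ℝ), psi t ≤ Real.circleAverage psi t ρ) := by
  constructor
  · intro t ht
    have ht' : 0 < ‖t‖ := norm_pos_iff.mpr ht
    obtain ⟨M, hM, hMb⟩ := psi_normal (‖t‖ / 2) (2 * ‖t‖) (by linarith)
    have h1 : ContinuousOn psi {s : ℂ | ‖t‖ / 2 < ‖s‖ ∧ ‖s‖ < 2 * ‖t‖} := by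
      refine continuousOn_tsum (u := M) (fun i => ?_) hM fun i s hs => ?_
      · exact (continuous_const.mul (pphi_cont8738 i)).continuousOn
      · exact hMb i s hs.1.le hs.2.le
    refine h1.continuousAt (IsOpen.mem_nhds ?_ ⟨by linarith, by linarith⟩)
    exact (isOpen_lt continuous_const continuous_norm).inter
      (isOpen_lt continuous_norm continuous_const)
  · intro t
    by_cases ht : t = 0
    · subst ht
      filter_upwards [self_mem_nhdsWithin] with ρ hρ
      have hρ' : 0 < ρ := hρ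
      have h0 : ∀ i, pd i * pphi i 0 = 0 := by
        intro i
        have h1 : pt i ≤ 1 := by
          unfold pt
          rw [Real.exp_le_one_iff]
          have : (0:ℝ) ≤ 7 * 4 ^ (i + 3) := by positivity
          linarith
        unfold pphi
        rw [zero_div, sub_zero, norm_one, max_eq_left h1, Real.log_one, mul_zero]
      refine sub8738 0 ρ ρ ρ hρ' hρ' (fun s hs => ?_) ?_
      · rw [sub_zero] at hs
        exact ⟨hs.ge, hs.le⟩
      · simp only [h0]
        exact summable_zero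
    · have ht' : 0 < ‖t‖ := norm_pos_iff.mpr ht
      have h1 : ∀ᶠ ρ in 𝓝[>] (0:ℝ), ρ ∈ Ioo 0 (‖t‖ / 2) := Ioo_mem_nhdsGT (by linarith)
      filter_upwards [h1] with ρ hρ
      refine sub8738 t (‖t‖ / 2) (2 * ‖t‖) ρ (by linarith) hρ.1 (fun s hs => ?_) ?_
      · have h2 : ‖t‖ ≤ ‖s‖ + ‖s - t‖ := by
          have := norm_sub_norm_le t s
          rw [norm_sub_rev t s] at this
          linarith
        have h3 : ‖s‖ ≤ ‖t‖ + ‖s - t‖ := by
          have := norm_sub_norm_le s t
          linarith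
        rw [hs] at h2 h3
        constructor <;> linarith [hρ.1, hρ.2]
      · obtain ⟨M, hM, hMb⟩ := psi_normal (‖t‖ / 2) (2 * ‖t‖) (by linarith)
        exact Summable.of_norm_bounded hM fun i => hMb i t (by linarith) (by linarith)

end

end Pool.Agent.Helper311.GB.J8738

namespace Pool.Agent.Helper311.GB

alias psi_cont_sub := J8738.psi_cont_sub

end Pool.Agent.Helper311.GB

namespace Pool.Agent.Helper311.GB.J8739

noncomputable section

theorem pvn_pw_norm (i : ℕ) : ‖pw i‖ = (8:ℝ)⁻¹ ^ (i + 2) := by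
  unfold pw
  rw [norm_pow, norm_inv]
  norm_num

theorem pvn_pt_pos (i : ℕ) : 0 < pt i := Real.exp_pos _

theorem pvn_pt_le_one (i : ℕ) : pt i ≤ 1 := by
  unfold pt
  rw [Real.exp_le_one_iff]
  have : (0:ℝ) ≤ 7 * 4 ^ (i + 3) := by positivity
  linarith

theorem pvn_pd_pos (i : ℕ) : 0 < pd i := by
  unfold pd
  positivity

theorem pvn_pphi_le (i : ℕ) (t : ℂ) : pphi i t ≤ Real.log (1 + 8 ^ (i + 2) * ‖t‖) := by
  unfold pphi
  apply Real.log_le_log (lt_max_of_lt_right (pvn_pt_pos i))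
  apply max_le
  · have h1 : ‖1 - t / pw i‖ ≤ ‖(1:ℂ)‖ + ‖t / pw i‖ := norm_sub_le _ _
    rw [norm_one, norm_div, pvn_pw_norm, inv_pow, div_inv_eq_mul] at h1
    linarith
  · have : 0 ≤ (8:ℝ) ^ (i + 2) * ‖t‖ := by positivity
    linarith [pvn_pt_le_one i]

theorem pvn_log_bd (i : ℕ) (x : ℝ) (hx0 : 0 ≤ x) (hx : x ≤ 1) :
    Real.log (1 + 8 ^ (i + 2) * x) ≤ (i + 3) * Real.log 8 := by
  have h : (1:ℝ) ≤ 8 ^ (i + 2) := one_le_pow₀ (by norm_num)
  have h1 : 1 + 8 ^ (i + 2) * x ≤ (8:ℝ) ^ (i + 3) := by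
    have : (8:ℝ) ^ (i + 3) = 8 * 8 ^ (i + 2) := by ring
    nlinarith
  calc Real.log (1 + 8 ^ (i + 2) * x) ≤ Real.log (8 ^ (i + 3)) :=
        Real.log_le_log (by positivity) h1
    _ = (i + 3) * Real.log 8 := by rw [Real.log_pow]; push_cast; ring

theorem pvn_ub_sum : HasSum (fun i : ℕ => pd i * (((i:ℝ) + 3) * Real.log 8))
    (5 / 72 * Real.log 8) := by
  have h0 : HasSum (fun n : ℕ => (n:ℝ) * (1 / 4 : ℝ) ^ n) ((1 / 4) / (1 - 1 / 4) ^ 2) :=
    hasSum_coe_mul_geometric_of_norm_lt_one (by norm_num)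
  have h1 := ((hasSum_nat_add_iff' 3).2 h0).mul_right (Real.log 8)
  have e1 : (fun i : ℕ => pd i * (((i:ℝ) + 3) * Real.log 8)) =
      fun i : ℕ => ((i + 3 : ℕ) : ℝ) * (1 / 4 : ℝ) ^ (i + 3) * Real.log 8 := by
    funext i
    unfold pd
    push_cast
    rw [one_div]
    ring
  have e2 : 5 / 72 * Real.log 8 = ((1 / 4 : ℝ) / (1 - 1 / 4) ^ 2 -
      ∑ i ∈ Finset.range 3, ((i:ℕ):ℝ) * (1 / 4 : ℝ) ^ i) * Real.log 8 := by
    congr 1
    norm_num [Finset.sum_range_succ]
  rw [e1, e2]
  exact h1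

theorem pvn_log8 : Real.log 8 ≤ 3 := by
  have h : (8:ℝ) = 2 ^ (3:ℕ) := by norm_num
  rw [h, Real.log_pow]
  have := Real.log_two_lt_d9
  push_cast
  linarith

theorem pvn_ub_nonneg (i : ℕ) : 0 ≤ pd i * (((i:ℝ) + 3) * Real.log 8) := by
  have h1 := pvn_pd_pos i
  have h2 : 0 ≤ Real.log 8 := Real.log_nonneg (by norm_num)
  positivity

theorem pvn_term_le (i : ℕ) (t : ℂ) :
    pd i * pphi i t ≤ pd i * Real.log (1 + 8 ^ (i + 2) * ‖t‖) :=
  mul_le_mul_of_nonneg_left (pvn_pphi_le i t) (pvn_pd_pos i).le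

theorem pvn_term_le' (i : ℕ) (t : ℂ) (ht : ‖t‖ ≤ 1) :
    pd i * Real.log (1 + 8 ^ (i + 2) * ‖t‖) ≤ pd i * (((i:ℝ) + 3) * Real.log 8) :=
  mul_le_mul_of_nonneg_left (pvn_log_bd i _ (norm_nonneg _) ht) (pvn_pd_pos i).le

theorem pvn_log_nonneg (i : ℕ) (t : ℂ) : 0 ≤ pd i * Real.log (1 + 8 ^ (i + 2) * ‖t‖) := by
  apply mul_nonneg (pvn_pd_pos i).le
  apply Real.log_nonneg
  have : 0 ≤ (8:ℝ) ^ (i + 2) * ‖t‖ := by positivity
  linarith

theorem pvn_summable_log (t : ℂ) (ht : ‖t‖ ≤ 1) :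
    Summable fun i => pd i * Real.log (1 + 8 ^ (i + 2) * ‖t‖) :=
  Summable.of_nonneg_of_le (fun i => pvn_log_nonneg i t) (fun i => pvn_term_le' i t ht)
    pvn_ub_sum.summable

theorem pvn_zero (i : ℕ) : pphi i 0 = 0 := by
  unfold pphi
  rw [zero_div, sub_zero, norm_one, max_eq_left (pvn_pt_le_one i), Real.log_one]

theorem pvn_psi_zero : psi 0 = 0 := by
  unfold psi
  simp [pvn_zero]

theorem pvn_summable (t : ℂ) : Summable fun i => pd i * pphi i t := by
  by_cases ht : t = 0
  · subst ht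
    simp only [pvn_zero, mul_zero]
    exact summable_zero
  · obtain ⟨M, hM, hb⟩ := psi_normal ‖t‖ ‖t‖ (norm_pos_iff.2 ht)
    exact Summable.of_norm_bounded hM (fun i => hb i t le_rfl le_rfl)

theorem pvn_psi_le (t : ℂ) (ht : ‖t‖ ≤ 1) :
    psi t ≤ ∑' i, pd i * Real.log (1 + 8 ^ (i + 2) * ‖t‖) :=
  (pvn_summable t).tsum_le_tsum (fun i => pvn_term_le i t) (pvn_summable_log t ht)

theorem pvn_own (i : ℕ) : pd i * pphi i (pw i) = -7 := by
  have h1 : pw i ≠ 0 := by
    unfold pw
    exact pow_ne_zero _ (by norm_num)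
  unfold pphi
  rw [div_self h1, sub_self, norm_zero, max_eq_right (pvn_pt_pos i).le]
  unfold pt pd
  rw [Real.log_exp, inv_pow]
  have : (4:ℝ) ^ (i + 3) ≠ 0 := by positivity
  field_simp

theorem psi_vals : psi 0 = 0 ∧ (∀ i, psi (pw i) ≤ -6) ∧ (∀ t : ℂ, ‖t‖ ≤ 1 → psi t ≤ 1 / 2) ∧
    (∀ ε : ℝ, 0 < ε → ∀ᶠ t in 𝓝 (0:ℂ), psi t < ε) := by
  refine ⟨pvn_psi_zero, ?_, ?_, ?_⟩
  · intro i
    have hn : ‖pw i‖ ≤ 1 := by
      rw [pvn_pw_norm]
      exact pow_le_one₀ (by norm_num) (by norm_num)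
    have h7 : HasSum (fun k : ℕ => if k = i then (7:ℝ) else 0) 7 := hasSum_ite_eq i 7
    have h1 := pvn_ub_sum.sub h7
    have h2 : psi (pw i) ≤ 5 / 72 * Real.log 8 - 7 := by
      unfold psi
      apply hasSum_le _ (pvn_summable (pw i)).hasSum h1
      intro k
      by_cases hk : k = i
      · subst hk
        rw [pvn_own, if_pos rfl]
        linarith [pvn_ub_nonneg k]
      · rw [if_neg hk, sub_zero]
        exact (pvn_term_le k _).trans (pvn_term_le' k _ hn)
    linarith [pvn_log8]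
  · intro t ht
    refine (pvn_psi_le t ht).trans ?_
    have h1 : ∑' i, pd i * Real.log (1 + 8 ^ (i + 2) * ‖t‖) ≤ 5 / 72 * Real.log 8 :=
      hasSum_le (fun i => pvn_term_le' i t ht) (pvn_summable_log t ht).hasSum pvn_ub_sum
    linarith [pvn_log8]
  · intro ε hε
    have hball : ∀ᶠ t in 𝓝 (0:ℂ), ‖t‖ ≤ 1 := by
      have := Metric.closedBall_mem_nhds (0:ℂ) one_pos
      filter_upwards [this] with t ht
      simpa using ht
    have htend : Tendsto (fun t : ℂ => ∑' i, pd i * Real.log (1 + 8 ^ (i + 2) * ‖t‖)) (𝓝 0)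
        (𝓝 (∑' i : ℕ, (0:ℝ))) := by
      apply tendsto_tsum_of_dominated_convergence pvn_ub_sum.summable
      · intro k
        have hc : ContinuousAt (fun t : ℂ => pd k * Real.log (1 + 8 ^ (k + 2) * ‖t‖)) 0 := by
          apply ContinuousAt.mul continuousAt_const
          apply ContinuousAt.log
          · fun_prop
          · simp
        have := hc.tendsto
        simpa using this
      · filter_upwards [hball] with t ht k
        rw [Real.norm_eq_abs, abs_of_nonneg (pvn_log_nonneg k t)]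
        exact pvn_term_le' k t ht
    rw [tsum_zero] at htend
    filter_upwards [hball, htend.eventually_lt_const hε] with t ht ht'
    exact (pvn_psi_le t ht).trans_lt ht'

end

end Pool.Agent.Helper311.GB.J8739

namespace Pool.Agent.Helper311.GB

alias psi_vals := J8739.psi_vals

end Pool.Agent.Helper311.GB

namespace Pool.Agent.Helper311.GB.J8740

noncomputable section

theorem aux_pt_pos (i : ℕ) : 0 < pt i := Real.exp_pos _

theorem aux_pphi_cont (i : ℕ) : Continuous (pphi i) := by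
  unfold pphi
  apply Continuous.log
  · fun_prop
  · intro t; exact (lt_of_lt_of_le (aux_pt_pos i) (le_max_right _ _)).ne'

theorem aux_pphi_zero (i : ℕ) : pphi i 0 = 0 := by
  unfold pphi
  have h1 : pt i ≤ 1 := by
    unfold pt
    rw [Real.exp_le_one_iff]
    have : (0:ℝ) ≤ 7 * 4 ^ (i + 3) := by positivity
    linarith
  rw [zero_div, sub_zero, norm_one, max_eq_left h1, Real.log_one]

theorem aux_pw_ne (i : ℕ) : pw i ≠ 0 := pow_ne_zero _ (by norm_num)

theorem aux_pd_pos (i : ℕ) : 0 < pd i := by unfold pd; positivity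

theorem aux_pd_sum : Summable pd := by
  unfold pd
  exact (summable_nat_add_iff 3).2 (summable_geometric_of_lt_one (by norm_num) (by norm_num))

theorem aux_low (i : ℕ) (t : ℂ) (h : ‖pw i‖ / 2 ≤ ‖t - pw i‖) : -Real.log 2 ≤ pphi i t := by
  unfold pphi
  rw [← Real.log_inv]
  apply Real.log_le_log (by norm_num)
  apply le_max_of_le_left
  have hp : 0 < ‖pw i‖ := norm_pos_iff.2 (aux_pw_ne i)
  have e : (1:ℂ) - t / pw i = -((t - pw i) / pw i) := by
    field_simp [aux_pw_ne i]
    ring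
  rw [e, norm_neg, norm_div, le_div_iff₀ hp]
  linarith

theorem aux_summ (t : ℂ) : Summable (fun i => pd i * pphi i t) := by
  by_cases ht : t = 0
  · subst ht
    simp only [aux_pphi_zero, mul_zero]
    exact summable_zero
  · obtain ⟨M, hM, hb⟩ := psi_normal ‖t‖ ‖t‖ (norm_pos_iff.2 ht)
    refine Summable.of_norm_bounded hM (fun i => ?_)
    rw [Real.norm_eq_abs]
    exact hb i t le_rfl le_rfl

theorem psi_low (ε : ℝ) (hε : 0 < ε) :
    ∀ᶠ t in 𝓝 (0:ℂ), (∀ i, ‖pw i‖ / 2 ≤ ‖t - pw i‖) → -ε < psi t := by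
  have htail := tendsto_sum_nat_add (fun i => pd i * Real.log 2)
  obtain ⟨L, hL⟩ := ((htail.eventually_lt_const (half_pos hε))).exists
  have hc : Continuous (fun t : ℂ => ∑ i ∈ Finset.range L, pd i * pphi i t) := by
    apply continuous_finsetSum
    intro i _
    exact continuous_const.mul (aux_pphi_cont i)
  have h0 : ∑ i ∈ Finset.range L, pd i * pphi i 0 = 0 := by
    simp [aux_pphi_zero]
  have hev : ∀ᶠ t in 𝓝 (0:ℂ), -(ε / 2) < ∑ i ∈ Finset.range L, pd i * pphi i t := by
    have := hc.tendsto 0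
    rw [h0] at this
    exact this.eventually_const_lt (by linarith)
  filter_upwards [hev] with t ht hw
  have hs := aux_summ t
  have h1 := hs.sum_add_tsum_nat_add L
  have hs2 : Summable (fun i => pd i * Real.log 2) := aux_pd_sum.mul_right _
  have h2 : -(∑' i, pd (i + L) * Real.log 2) ≤ ∑' i, pd (i + L) * pphi (i + L) t := by
    rw [← tsum_neg]
    apply Summable.tsum_le_tsum
    · intro i
      have := aux_low (i + L) t (hw (i + L))
      have h3 := mul_le_mul_of_nonneg_left this (aux_pd_pos (i + L)).le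
      linarith
    · exact ((summable_nat_add_iff L).2 hs2).neg
    · exact (summable_nat_add_iff L).2 hs
  unfold psi
  rw [← h1]
  linarith

end

end Pool.Agent.Helper311.GB.J8740

namespace Pool.Agent.Helper311.GB

alias psi_low := J8740.psi_low

end Pool.Agent.Helper311.GB

namespace Pool.Agent.Helper311.GB.J8741

noncomputable section

theorem norm_pw (i : ℕ) : ‖pw i‖ = (8:ℝ)⁻¹ ^ (i + 2) := by
  rw [pw, norm_pow, norm_inv]
  norm_num

theorem norm_pw_pos (i : ℕ) : 0 < ‖pw i‖ := by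
  rw [norm_pw]; positivity

theorem norm_pw_le {i j : ℕ} (h : i < j) : ‖pw j‖ ≤ ‖pw i‖ / 8 := by
  rw [norm_pw, norm_pw]
  have h1 : (8:ℝ)⁻¹ ^ (j + 2) ≤ (8:ℝ)⁻¹ ^ (i + 2 + 1) :=
    pow_le_pow_of_le_one (by norm_num) (by norm_num) (by omega)
  rw [pow_succ (8:ℝ)⁻¹ (i + 2)] at h1
  linarith

theorem tendsto_norm_pw : Tendsto (fun i => ‖pw i‖) atTop (𝓝 0) := by
  have h1 : Tendsto (fun i : ℕ => (8:ℝ)⁻¹ ^ i) atTop (𝓝 0) :=
    tendsto_pow_atTop_nhds_zero_of_lt_one (by norm_num) (by norm_num)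
  have h2 := h1.comp (tendsto_add_atTop_nat 2)
  refine h2.congr fun i => ?_
  rw [norm_pw]
  rfl

theorem pw_disj (i j : ℕ) (hij : i ≠ j) (t : ℂ) (ht : ‖t - pw i‖ ≤ ‖pw i‖ / 2) :
    ‖pw j‖ / 2 < ‖t - pw j‖ := by
  have hi := norm_pw_pos i
  have hj := norm_pw_pos j
  rcases lt_or_gt_of_ne hij with h | h
  · have h1 := norm_pw_le h
    have h2 : ‖pw i‖ ≤ ‖t - pw i‖ + ‖t‖ := by
      have := norm_sub_norm_le (pw i) t
      rw [norm_sub_rev] at this
      linarith
    have h3 : ‖t‖ ≤ ‖t - pw j‖ + ‖pw j‖ := by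
      have := norm_sub_norm_le t (pw j)
      linarith
    linarith
  · have h1 := norm_pw_le h
    have h2 : ‖t‖ ≤ ‖t - pw i‖ + ‖pw i‖ := by
      have := norm_sub_norm_le t (pw i)
      linarith
    have h3 : ‖pw j‖ ≤ ‖t - pw j‖ + ‖t‖ := by
      have := norm_sub_norm_le (pw j) t
      rw [norm_sub_rev] at this
      linarith
    linarith

theorem exists_circ_min (i : ℕ) : ∃ t : ℂ, ‖t - pw i‖ = ‖pw i‖ / 2 ∧
    ∀ s : ℂ, ‖s - pw i‖ = ‖pw i‖ / 2 → psi t ≤ psi s := by
  have hi := norm_pw_pos i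
  have hc : IsCompact (Metric.sphere (pw i) (‖pw i‖ / 2)) := isCompact_sphere _ _
  have hne : (Metric.sphere (pw i) (‖pw i‖ / 2)).Nonempty :=
    NormedSpace.sphere_nonempty.2 (by positivity)
  have hcont : ContinuousOn psi (Metric.sphere (pw i) (‖pw i‖ / 2)) := by
    intro t ht
    refine (psi_cont_sub.1 t ?_).continuousWithinAt
    rintro rfl
    rw [mem_sphere_iff_norm, zero_sub, norm_neg] at ht
    linarith
  obtain ⟨t, ht, hmin⟩ := hc.exists_isMinOn hne hcont
  refine ⟨t, mem_sphere_iff_norm.1 ht, fun s hs => hmin (mem_sphere_iff_norm.2 hs)⟩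

theorem dat_exists : Nonempty Dat := by
  choose τ hτ1 hτ2 using exists_circ_min
  have hτt : Tendsto τ atTop (𝓝 0) := by
    rw [tendsto_zero_iff_norm_tendsto_zero]
    have h1 : Tendsto (fun i => 2 * ‖pw i‖) atTop (𝓝 0) := by
      simpa using tendsto_norm_pw.const_mul 2
    refine squeeze_zero (fun i => norm_nonneg _) (fun i => ?_) h1
    have h2 := norm_sub_norm_le (τ i) (pw i)
    have h3 := hτ1 i
    have h4 := norm_pw_pos i
    linarith
  have hmt : Tendsto (fun i => max (-psi (τ i)) 0) atTop (𝓝 0) := by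
    rw [Metric.tendsto_atTop]
    intro ε hε
    have h1 := hτt.eventually (psi_low ε hε)
    obtain ⟨N, hN⟩ := eventually_atTop.1 h1
    refine ⟨N, fun n hn => ?_⟩
    have h2 := hN n hn (fun j => by
      rcases eq_or_ne n j with h | h
      · subst h
        exact (hτ1 n).ge
      · exact (pw_disj n j h (τ n) (hτ1 n).le).le)
    rw [Real.dist_eq, sub_zero, abs_of_nonneg (le_max_right _ _)]
    exact max_lt (by linarith) hε
  have hηp : ∀ i : ℕ, 0 < (2:ℝ)⁻¹ ^ i + max (-psi (τ i)) 0 := fun i => by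
    have h1 : 0 < (2:ℝ)⁻¹ ^ i := by positivity
    have h2 := le_max_right (-psi (τ i)) 0
    linarith
  have hηt : Tendsto (fun i : ℕ => (2:ℝ)⁻¹ ^ i + max (-psi (τ i)) 0) atTop (𝓝 0) := by
    have h1 : Tendsto (fun i : ℕ => (2:ℝ)⁻¹ ^ i) atTop (𝓝 0) :=
      tendsto_pow_atTop_nhds_zero_of_lt_one (by norm_num) (by norm_num)
    simpa using h1.add hmt
  refine ⟨{ w := pw, r := fun i => ‖pw i‖ / 2, η := fun i => (2:ℝ)⁻¹ ^ i + max (-psi (τ i)) 0,
            ψ := psi, m := fun i => max 7 ⌈54 / ((2:ℝ)⁻¹ ^ i + max (-psi (τ i)) 0)⌉₊,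
            r_pos := ?_, r_lt := ?_, wr := ?_, w_tendsto := ?_, disj := ?_, η_pos := hηp,
            η_tendsto := hηt, ψ_zero := psi_vals.1, ψ_cont := psi_cont_sub.1,
            ψ_usc := psi_vals.2.2.2, ψ_low := psi_low, ψ_circ := ?_, ψ_well := psi_vals.2.1,
            ψ_le := psi_vals.2.2.1, ψ_sub := psi_cont_sub.2, m_ge := ?_, m_η := ?_ }⟩
  · intro i
    have := norm_pw_pos i
    show 0 < ‖pw i‖ / 2
    linarith
  · intro i
    have := norm_pw_pos i
    show ‖pw i‖ / 2 < ‖pw i‖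
    linarith
  · intro i
    show ‖pw i‖ + ‖pw i‖ / 2 < 1 / 2
    have h1 : ‖pw i‖ ≤ (8:ℝ)⁻¹ ^ 2 := by
      rw [norm_pw]
      exact pow_le_pow_of_le_one (by norm_num) (by norm_num) (by omega)
    norm_num at h1
    linarith
  · exact tendsto_zero_iff_norm_tendsto_zero.2 tendsto_norm_pw
  · intro i j hij t ht
    exact pw_disj i j hij t ht
  · intro i t ht
    have h1 := hτ2 i t ht
    have h2 : 0 < (2:ℝ)⁻¹ ^ i := by positivity
    have h3 := le_max_left (-psi (τ i)) 0
    show -((2:ℝ)⁻¹ ^ i + max (-psi (τ i)) 0) < psi t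
    linarith
  · intro i
    exact le_max_left _ _
  · intro i
    have hη := hηp i
    set e := (2:ℝ)⁻¹ ^ i + max (-psi (τ i)) 0 with he
    show 27 / ((max 7 ⌈54 / e⌉₊ : ℕ) : ℝ) ≤ e / 2
    have h1 : 54 / e ≤ ((max 7 ⌈54 / e⌉₊ : ℕ) : ℝ) :=
      (Nat.le_ceil _).trans (by exact_mod_cast le_max_right _ _)
    have h2 : (0:ℝ) < ((max 7 ⌈54 / e⌉₊ : ℕ) : ℝ) := lt_of_lt_of_le (by positivity) h1
    rw [div_le_iff₀ hη] at h1
    rw [div_le_iff₀ h2]
    nlinarith

end

end Pool.Agent.Helper311.GB.J8741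

namespace Pool.Agent.Helper311.GB

alias dat_exists := J8741.dat_exists

end Pool.Agent.Helper311.GB
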