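import Mathlib
import Pool.Agent.Helper311.GB.Defs
import Pool.Agent.Helper311.GB.Fun

set_option autoImplicit false

open MeasureTheory Filter Topology Complex Set

namespace Pool.Agent.Helper311.GB.J8742

noncomputable section

theorem u_api (D : Dat) (x y t : ℂ) : VI x y + D.ψ t ≤ Uf D x y t ∧
    (∀ i, ‖t - D.w i‖ < D.r i →
      Uf D x y t = max (VI x y + D.ψ t) (VN (D.m i) x y - 2 * D.η i)) ∧
    ((∀ i, D.r i ≤ ‖t - D.w i‖) → Uf D x y t = VI x y + D.ψ t) := by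
  refine ⟨?_, ?_, ?_⟩
  · unfold Uf
    split_ifs with h
    · exact le_max_left _ _
    · exact le_rfl
  · intro i hi
    have h : ∃ i, ‖t - D.w i‖ < D.r i := ⟨i, hi⟩
    have hc : ‖t - D.w (Classical.choose h)‖ < D.r (Classical.choose h) := Classical.choose_spec h
    have he : Classical.choose h = i := by
      by_contra hne
      exact lt_asymm hi (D.disj _ _ hne t hc.le)
    unfold Uf
    rw [dif_pos h, he]
  · intro hall
    have h : ¬ ∃ i, ‖t - D.w i‖ < D.r i := by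
      rintro ⟨i, hi⟩
      exact absurd hi (not_lt.mpr (hall i))
    unfold Uf
    rw [dif_neg h]

end

end Pool.Agent.Helper311.GB.J8742

namespace Pool.Agent.Helper311.GB

alias u_api := J8742.u_api

end Pool.Agent.Helper311.GB

namespace Pool.Agent.Helper311.GB.J8743

noncomputable section

/-- local finiteness of the discs away from the origin -/
theorem h170_locfin (D : Dat) (t₀ : ℂ) (ht : t₀ ≠ 0) (S : Set ℕ) (hS : ∀ j ∈ S, D.r j < ‖t₀ - D.w j‖) :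
    ∀ᶠ t in 𝓝 t₀, ∀ j ∈ S, D.r j < ‖t - D.w j‖ := by
  have ht0 : 0 < ‖t₀‖ := norm_pos_iff.2 ht
  have hw : Tendsto (fun j => ‖D.w j‖) atTop (𝓝 0) := by
    have := D.w_tendsto.norm
    rwa [norm_zero] at this
  have hev : ∀ᶠ j in atTop, ‖D.w j‖ < ‖t₀‖ / 4 := hw.eventually (gt_mem_nhds (by positivity))
  obtain ⟨N, hN⟩ := eventually_atTop.1 hev
  have h1 : ∀ᶠ t in 𝓝 t₀, ∀ j ∈ (Finset.range N : Set ℕ), j ∈ S → D.r j < ‖t - D.w j‖ := by
    rw [Filter.eventually_all_finite (Finset.finite_toSet _)]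
    intro j _
    by_cases hj : j ∈ S
    · have hc : ContinuousAt (fun t : ℂ => ‖t - D.w j‖) t₀ := by fun_prop
      filter_upwards [hc.eventually (lt_mem_nhds (hS j hj))] with t ht _
      exact ht
    · exact Eventually.of_forall fun t h => absurd h hj
  have h2 : ∀ᶠ t in 𝓝 t₀, ‖t₀‖ / 2 < ‖t‖ := by
    have hc : ContinuousAt (fun t : ℂ => ‖t‖) t₀ := by fun_prop
    exact hc.eventually (lt_mem_nhds (by show ‖t₀‖ / 2 < ‖t₀‖; linarith))
  filter_upwards [h1, h2] with t h3 h4 j hj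
  by_cases hjN : j < N
  · exact h3 j (by simpa using hjN) hj
  · have h5 := hN j (by omega)
    have h6 := D.r_lt j
    have h7 : ‖t‖ ≤ ‖t - D.w j‖ + ‖D.w j‖ := by
      have := norm_add_le (t - D.w j) (D.w j)
      rwa [sub_add_cancel] at this
    linarith

theorem u_cont (D : Dat) (x₀ y₀ t₀ : ℂ) (hx : ‖x₀ - 1‖ < 3) (ht : t₀ ≠ 0) :
    ContinuousAt (fun p : ℂ × ℂ × ℂ => Uf D p.1 p.2.1 p.2.2) (x₀, y₀, t₀) := by
  have hsnd : ContinuousAt (fun p : ℂ × ℂ × ℂ => p.2.2) (x₀, y₀, t₀) := by fun_prop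
  have hpair : Continuous (fun p : ℂ × ℂ × ℂ => (p.1, p.2.1)) := by fun_prop
  have hVI0 := contI.comp hpair
  have hVI : ContinuousAt (fun p : ℂ × ℂ × ℂ => VI p.1 p.2.1) (x₀, y₀, t₀) := hVI0.continuousAt
  have hVN : ∀ n, 7 ≤ n → ContinuousAt (fun p : ℂ × ℂ × ℂ => VN n p.1 p.2.1) (x₀, y₀, t₀) := by
    intro n hn
    have h0 := (contN n hn).comp hpair
    exact h0.continuousAt
  have hψ0 := ContinuousAt.comp (f := fun p : ℂ × ℂ × ℂ => p.2.2) (x := (x₀, y₀, t₀)) (g := D.ψ) (D.ψ_cont t₀ ht) hsnd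
  have hψ : ContinuousAt (fun p : ℂ × ℂ × ℂ => D.ψ p.2.2) (x₀, y₀, t₀) := hψ0
  have hsum : ContinuousAt (fun p : ℂ × ℂ × ℂ => VI p.1 p.2.1 + D.ψ p.2.2) (x₀, y₀, t₀) := hVI.add hψ
  by_cases h1 : ∃ i, ‖t₀ - D.w i‖ < D.r i
  · obtain ⟨i, hi⟩ := h1
    have hc : ContinuousAt (fun p : ℂ × ℂ × ℂ => max (VI p.1 p.2.1 + D.ψ p.2.2)
        (VN (D.m i) p.1 p.2.1 - 2 * D.η i)) (x₀, y₀, t₀) :=
      hsum.max ((hVN _ (D.m_ge i)).sub continuousAt_const)
    refine hc.congr ?_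
    have hn : ContinuousAt (fun p : ℂ × ℂ × ℂ => ‖p.2.2 - D.w i‖) (x₀, y₀, t₀) :=
      (hsnd.sub continuousAt_const).norm
    filter_upwards [hn.eventually (gt_mem_nhds hi)] with p hp
    exact ((u_api D p.1 p.2.1 p.2.2).2.1 i hp).symm
  · push Not at h1
    refine hsum.congr ?_
    by_cases h2 : ∃ i, ‖t₀ - D.w i‖ = D.r i
    · obtain ⟨i, hi⟩ := h2
      have hev := hsnd.eventually (h170_locfin D t₀ ht {j | j ≠ i} (fun j hj => D.disj i j (fun h => hj h.symm) t₀ hi.le))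
      have hstrict : VN (D.m i) x₀ y₀ - 2 * D.η i < VI x₀ y₀ + D.ψ t₀ := by
        have a1 := VN_le (D.m i) (by have := D.m_ge i; omega) x₀ y₀ hx.le
        have a2 := D.m_η i
        have a3 := D.ψ_circ i t₀ hi
        have a4 := D.η_pos i
        linarith
      have hlt : ∀ᶠ p : ℂ × ℂ × ℂ in 𝓝 (x₀, y₀, t₀), VN (D.m i) p.1 p.2.1 - 2 * D.η i < VI p.1 p.2.1 + D.ψ p.2.2 :=
        ContinuousAt.eventually_lt ((hVN _ (D.m_ge i)).sub continuousAt_const) hsum hstrict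
      filter_upwards [hev, hlt] with p hp1 hp2
      by_cases h3 : ‖p.2.2 - D.w i‖ < D.r i
      · rw [(u_api D p.1 p.2.1 p.2.2).2.1 i h3, max_eq_left hp2.le]
      · push Not at h3
        refine ((u_api D p.1 p.2.1 p.2.2).2.2 ?_).symm
        intro j
        by_cases hj : j = i
        · rw [hj]; exact h3
        · exact (hp1 j hj).le
    · push Not at h2
      have hev := hsnd.eventually (h170_locfin D t₀ ht univ (fun j _ => lt_of_le_of_ne (h1 j) (fun h => h2 j h.symm)))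
      filter_upwards [hev] with p hp
      exact ((u_api D p.1 p.2.1 p.2.2).2.2 fun j => (hp j (mem_univ j)).le).symm

end

end Pool.Agent.Helper311.GB.J8743

namespace Pool.Agent.Helper311.GB

alias u_cont := J8743.u_cont

end Pool.Agent.Helper311.GB

namespace Pool.Agent.Helper311.GB.J8744

noncomputable section

theorem u_up (D : Dat) (x₀ y₀ : ℂ) (hx : ‖x₀ - 1‖ < 3) (ε : ℝ) (hε : 0 < ε) :
    ∀ᶠ p in 𝓝 ((x₀, y₀, 0) : ℂ × ℂ × ℂ), Uf D p.1 p.2.1 p.2.2 < VI x₀ y₀ + ε := by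
  have c1 : Continuous (fun p : ℂ × ℂ × ℂ => VI p.1 p.2.1) :=
    contI.comp (continuous_fst.prodMk (continuous_fst.comp continuous_snd))
  have e1 : ∀ᶠ p in 𝓝 ((x₀, y₀, 0) : ℂ × ℂ × ℂ), VI p.1 p.2.1 < VI x₀ y₀ + ε / 2 :=
    (c1.tendsto (x₀, y₀, 0)).eventually (gt_mem_nhds (by show VI x₀ y₀ < VI x₀ y₀ + ε / 2; linarith))
  have c2 : Continuous (fun p : ℂ × ℂ × ℂ => p.2.2) := continuous_snd.comp continuous_snd
  have e2 : ∀ᶠ p in 𝓝 ((x₀, y₀, 0) : ℂ × ℂ × ℂ), D.ψ p.2.2 < ε / 2 :=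
    (c2.tendsto (x₀, y₀, 0)).eventually (D.ψ_usc (ε / 2) (by linarith))
  have c3 : Continuous (fun p : ℂ × ℂ × ℂ => ‖p.1 - 1‖) := by fun_prop
  have e3 : ∀ᶠ p in 𝓝 ((x₀, y₀, 0) : ℂ × ℂ × ℂ), ‖p.1 - 1‖ < 3 :=
    (c3.tendsto (x₀, y₀, 0)).eventually (gt_mem_nhds hx)
  filter_upwards [e1, e2, e3] with p h1 h2 h3
  obtain ⟨-, hA, hB⟩ := u_api D p.1 p.2.1 p.2.2
  by_cases h : ∃ i, ‖p.2.2 - D.w i‖ < D.r i
  · obtain ⟨i, hi⟩ := h
    rw [hA i hi, max_lt_iff]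
    refine ⟨by linarith, ?_⟩
    have h4 := VN_le (D.m i) (by have := D.m_ge i; omega) p.1 p.2.1 h3.le
    have h5 := D.m_η i
    have h6 := D.η_pos i
    linarith
  · push Not at h
    rw [hB h]
    linarith

end

end Pool.Agent.Helper311.GB.J8744

namespace Pool.Agent.Helper311.GB

alias u_up := J8744.u_up

end Pool.Agent.Helper311.GB

namespace Pool.Agent.Helper311.GB.J8745

noncomputable section

theorem u_low (D : Dat) (x₀ y₀ : ℂ) (ε : ℝ) (hε : 0 < ε) :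
    ∀ᶠ p in 𝓝 ((x₀, y₀, 0) : ℂ × ℂ × ℂ), min (VI x₀ y₀) 0 - ε < Uf D p.1 p.2.1 p.2.2 := by
  obtain ⟨N, δ, hδ, hN⟩ := VN_low x₀ y₀ (ε / 2) (by linarith)
  -- large indices
  have hη : ∀ᶠ i in atTop, D.η i < ε / 4 ∧ D.η i < 54 / ((N : ℝ) + 1) := by
    have h1 : (0 : ℝ) < ε / 4 := by linarith
    have h2 : (0 : ℝ) < 54 / ((N : ℝ) + 1) := by positivity
    exact (D.η_tendsto.eventually (gt_mem_nhds h1)).and (D.η_tendsto.eventually (gt_mem_nhds h2))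
  obtain ⟨I0, hI0⟩ := eventually_atTop.1 hη
  have hm : ∀ i, I0 ≤ i → N ≤ D.m i := by
    intro i hi
    have h1 := (hI0 i hi).2
    have h2 := D.m_η i
    have h3 := D.m_ge i
    have hm0 : (0 : ℝ) < D.m i := by exact_mod_cast (by omega : 0 < D.m i)
    rw [div_le_iff₀ hm0] at h2
    rw [lt_div_iff₀ (by positivity)] at h1
    have h4 : (N : ℝ) ≤ D.m i := by
      by_contra hcon
      push Not at hcon
      nlinarith [D.η_pos i]
    exact_mod_cast h4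
  -- the events
  have hx : Tendsto (fun p : ℂ × ℂ × ℂ => p.1) (𝓝 (x₀, y₀, 0)) (𝓝 x₀) := continuous_fst.continuousAt
  have hy : Tendsto (fun p : ℂ × ℂ × ℂ => p.2.1) (𝓝 (x₀, y₀, 0)) (𝓝 y₀) :=
    (continuous_fst.comp continuous_snd).continuousAt
  have ht : Tendsto (fun p : ℂ × ℂ × ℂ => p.2.2) (𝓝 (x₀, y₀, 0)) (𝓝 0) :=
    (continuous_snd.comp continuous_snd).continuousAt
  have E1 : ∀ᶠ p in 𝓝 ((x₀, y₀, 0) : ℂ × ℂ × ℂ), VI x₀ y₀ - ε / 2 < VI p.1 p.2.1 := by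
    have hc : Tendsto (fun p : ℂ × ℂ × ℂ => VI p.1 p.2.1) (𝓝 (x₀, y₀, 0)) (𝓝 (VI x₀ y₀)) := by
      have h1 : ContinuousAt (fun p : ℂ × ℂ × ℂ => VI p.1 p.2.1) (x₀, y₀, 0) :=
        (contI.comp (continuous_fst.prodMk (continuous_fst.comp continuous_snd))).continuousAt
      exact h1
    exact hc.eventually (lt_mem_nhds (by linarith))
  have E2 := ht.eventually (D.ψ_low (ε / 2) (by linarith))
  have E3 : ∀ᶠ p in 𝓝 ((x₀, y₀, 0) : ℂ × ℂ × ℂ), ‖p.1 - x₀‖ < δ := by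
    have := hx.eventually (Metric.ball_mem_nhds x₀ hδ)
    filter_upwards [this] with p hp
    rw [← dist_eq_norm]; exact hp
  have E4 : ∀ᶠ p in 𝓝 ((x₀, y₀, 0) : ℂ × ℂ × ℂ), ‖p.2.1 - y₀‖ < δ := by
    have := hy.eventually (Metric.ball_mem_nhds y₀ hδ)
    filter_upwards [this] with p hp
    rw [← dist_eq_norm]; exact hp
  have E5 : ∀ᶠ t in 𝓝 (0 : ℂ), ∀ i ∈ Finset.range I0, D.r i < ‖t - D.w i‖ := by
    rw [Filter.eventually_all_finset]
    intro i _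
    have hc : Tendsto (fun t : ℂ => ‖t - D.w i‖) (𝓝 0) (𝓝 ‖(0 : ℂ) - D.w i‖) := by
      have h1 : Continuous (fun t : ℂ => ‖t - D.w i‖) := by fun_prop
      exact h1.continuousAt
    apply hc.eventually (lt_mem_nhds _)
    rw [zero_sub, norm_neg]
    exact D.r_lt i
  filter_upwards [E1, E2, E3, E4, ht.eventually E5] with p h1 h2 h3 h4 h5
  obtain ⟨a1, a2, a3⟩ := u_api D p.1 p.2.1 p.2.2
  by_cases hall : ∀ i, D.r i ≤ ‖p.2.2 - D.w i‖
  · rw [a3 hall]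
    have h6 := h2 hall
    have h7 := min_le_left (VI x₀ y₀) 0
    linarith
  · push Not at hall
    obtain ⟨i, hi⟩ := hall
    have hiI : I0 ≤ i := by
      by_contra hcon
      push Not at hcon
      have := h5 i (Finset.mem_range.2 hcon)
      linarith
    rw [a2 i hi]
    have h6 := hN (D.m i) (hm i hiI) p.1 p.2.1 h3 h4
    have h7 := (hI0 i hiI).1
    have h8 := le_max_right (VI p.1 p.2.1 + D.ψ p.2.2) (VN (D.m i) p.1 p.2.1 - 2 * D.η i)
    linarith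

end

end Pool.Agent.Helper311.GB.J8745

namespace Pool.Agent.Helper311.GB

alias u_low := J8745.u_low

end Pool.Agent.Helper311.GB

namespace Pool.Agent.Helper311.GB.J8746

noncomputable section

theorem avg_line (ψ : ℂ → ℝ) (t₀ b : ℂ) (ρ : ℝ) :
    Real.circleAverage (fun ζ => ψ (t₀ + ζ * b)) 0 ρ = Real.circleAverage ψ t₀ (ρ * ‖b‖) := by
  rw [Real.circleAverage_eq_integral_add (f := ψ) (c := t₀) (R := ρ * ‖b‖) (Complex.arg b)]
  rw [Real.circleAverage_def]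
  congr 1
  apply intervalIntegral.integral_congr
  intro θ _
  simp only [circleMap]
  congr 1
  have hb : (b : ℂ) = ‖b‖ * Complex.exp (Complex.arg b * Complex.I) :=
    (Complex.norm_mul_exp_arg_mul_I b).symm
  rw [zero_add]
  congr 1
  conv_lhs => rw [hb]
  push_cast
  rw [add_mul, Complex.exp_add]
  ring

theorem re_avg (G : ℂ × ℂ → ℂ) (x₀ y₀ : ℂ) (hG : AnalyticAt ℂ G (x₀, y₀)) (b₁ b₂ : ℂ) :
    ∀ᶠ ρ in 𝓝[>] (0:ℝ),
      ContinuousOn (fun ζ : ℂ => (G (x₀ + ζ * b₁, y₀ + ζ * b₂)).re) (Metric.sphere (0:ℂ) ρ) ∧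
      Real.circleAverage (fun ζ : ℂ => (G (x₀ + ζ * b₁, y₀ + ζ * b₂)).re) 0 ρ
        = (G (x₀, y₀)).re := by
  have hg : AnalyticAt ℂ (fun ζ : ℂ => G (x₀ + ζ * b₁, y₀ + ζ * b₂)) 0 := by
    have h1 : AnalyticAt ℂ (fun ζ : ℂ => ((x₀ + ζ * b₁, y₀ + ζ * b₂) : ℂ × ℂ)) 0 := by
      fun_prop
    have h2 : AnalyticAt ℂ G ((fun ζ : ℂ => ((x₀ + ζ * b₁, y₀ + ζ * b₂) : ℂ × ℂ)) 0) := by
      simpa using hG
    exact AnalyticAt.comp (g := G)
      (f := fun ζ : ℂ => ((x₀ + ζ * b₁, y₀ + ζ * b₂) : ℂ × ℂ)) (x := (0:ℂ)) h2 h1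
  obtain ⟨r, hr, hball⟩ := Metric.eventually_nhds_iff_ball.1 hg.eventually_analyticAt
  filter_upwards [Ioo_mem_nhdsGT hr] with ρ hρ
  have hsub : Metric.closedBall (0:ℂ) |ρ| ⊆ Metric.ball 0 r := by
    rw [abs_of_pos hρ.1]
    exact Metric.closedBall_subset_ball hρ.2
  have hd : DifferentiableOn ℂ (fun ζ : ℂ => G (x₀ + ζ * b₁, y₀ + ζ * b₂)) (Metric.ball 0 r) :=
    fun z hz => (hball z hz).differentiableAt.differentiableWithinAt
  have hdc := hd.diffContOnCl_ball hsub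
  have hcont : ContinuousOn (fun ζ : ℂ => G (x₀ + ζ * b₁, y₀ + ζ * b₂))
      (Metric.sphere (0:ℂ) ρ) := by
    apply hd.continuousOn.mono
    refine Set.Subset.trans Metric.sphere_subset_closedBall ?_
    rw [abs_of_pos hρ.1] at hsub
    exact hsub
  refine ⟨Complex.continuous_re.comp_continuousOn hcont, ?_⟩
  have h3 := hdc.circleAverage
  have hci : CircleIntegrable (fun ζ : ℂ => G (x₀ + ζ * b₁, y₀ + ζ * b₂)) 0 ρ :=
    ContinuousOn.circleIntegrable hρ.1.le hcont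
  have h4 := Complex.reCLM.circleAverage_comp_comm hci
  have h5 : (Complex.reCLM ∘ fun ζ : ℂ => G (x₀ + ζ * b₁, y₀ + ζ * b₂))
      = fun ζ : ℂ => (G (x₀ + ζ * b₁, y₀ + ζ * b₂)).re := by
    funext ζ; rfl
  rw [h5] at h4
  rw [h4, h3]
  simp

theorem u_sub (D : Dat) (x₀ y₀ t₀ : ℂ) (hx : ‖x₀ - 1‖ < 3) (b₁ b₂ b₃ : ℂ) :
    ∀ᶠ ρ in 𝓝[>] (0:ℝ),
      ContinuousOn (fun ζ : ℂ => Uf D (x₀ + ζ * b₁) (y₀ + ζ * b₂) (t₀ + ζ * b₃))
        (Metric.sphere (0:ℂ) ρ) ∧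
      Uf D x₀ y₀ t₀ ≤ Real.circleAverage
        (fun ζ : ℂ => Uf D (x₀ + ζ * b₁) (y₀ + ζ * b₂) (t₀ + ζ * b₃)) 0 ρ := by
  have hpath : Continuous (fun ζ : ℂ => (x₀ + ζ * b₁, y₀ + ζ * b₂, t₀ + ζ * b₃)) := by
    fun_prop
  have hball0 : ∀ P : ℂ → Prop, (∀ᶠ ζ in 𝓝 (0:ℂ), P ζ) →
      ∀ᶠ ρ in 𝓝[>] (0:ℝ), ∀ ζ ∈ Metric.sphere (0:ℂ) ρ, P ζ := by
    intro P hP
    obtain ⟨r, hr, hb⟩ := Metric.eventually_nhds_iff_ball.1 hP
    filter_upwards [Ioo_mem_nhdsGT hr] with ρ hρ ζ hζ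
    apply hb
    rw [mem_sphere_zero_iff_norm] at hζ
    rw [mem_ball_zero_iff, hζ]
    exact hρ.2
  -- the condition on x
  have hxe : ∀ᶠ ρ in 𝓝[>] (0:ℝ), ∀ ζ ∈ Metric.sphere (0:ℂ) ρ, ‖x₀ + ζ * b₁ - 1‖ < 3 := by
    apply hball0
    have : ContinuousAt (fun ζ : ℂ => ‖x₀ + ζ * b₁ - 1‖) 0 := by fun_prop
    apply this.eventually_lt_const
    simpa using hx
  -- t ≠ 0 on the sphere, unless t₀ = 0 = b₃
  have hcase : (t₀ = 0 ∧ b₃ = 0) ∨
      (∀ᶠ ρ in 𝓝[>] (0:ℝ), ∀ ζ ∈ Metric.sphere (0:ℂ) ρ, t₀ + ζ * b₃ ≠ 0) := by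
    by_cases ht : t₀ = 0
    · by_cases hb : b₃ = 0
      · exact Or.inl ⟨ht, hb⟩
      · right
        filter_upwards [self_mem_nhdsWithin] with ρ hρ ζ hζ
        rw [ht, zero_add]
        apply mul_ne_zero _ hb
        rw [mem_sphere_zero_iff_norm] at hζ
        intro h0
        rw [h0, norm_zero] at hζ
        exact absurd hρ (by simp [← hζ])
    · right
      apply hball0
      have : ContinuousAt (fun ζ : ℂ => t₀ + ζ * b₃) 0 := by fun_prop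
      apply this.eventually_ne
      simpa using ht
  have hU0 : ∀ x y, Uf D x y 0 = VI x y := by
    intro x y
    rw [(u_api D x y 0).2.2 (fun i => ?_), D.ψ_zero, add_zero]
    rw [zero_sub, norm_neg]
    exact (D.r_lt i).le
  have hcont : ∀ᶠ ρ in 𝓝[>] (0:ℝ),
      ContinuousOn (fun ζ : ℂ => Uf D (x₀ + ζ * b₁) (y₀ + ζ * b₂) (t₀ + ζ * b₃))
        (Metric.sphere (0:ℂ) ρ) := by
    rcases hcase with ⟨ht, hb⟩ | hne
    · refine Eventually.of_forall fun ρ => ?_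
      apply Continuous.continuousOn
      subst ht hb
      have : (fun ζ : ℂ => Uf D (x₀ + ζ * b₁) (y₀ + ζ * b₂) (0 + ζ * 0))
          = fun ζ => (fun p : ℂ × ℂ => VI p.1 p.2) (x₀ + ζ * b₁, y₀ + ζ * b₂) := by
        funext ζ
        rw [mul_zero, add_zero, hU0]
      rw [this]
      exact contI.comp (by fun_prop)
    · filter_upwards [hne, hxe] with ρ h1 h2 ζ hζ
      have := u_cont D (x₀ + ζ * b₁) (y₀ + ζ * b₂) (t₀ + ζ * b₃) (h2 ζ hζ) (h1 ζ hζ)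
      exact (ContinuousAt.comp (f := fun ζ : ℂ => (x₀ + ζ * b₁, y₀ + ζ * b₂, t₀ + ζ * b₃))
        (x := ζ) this hpath.continuousAt).continuousWithinAt
  refine hcont.and ?_
  by_cases hA : Uf D x₀ y₀ t₀ = VI x₀ y₀ + D.ψ t₀
  · -- case A
    obtain ⟨G, hG, hG0, hGle⟩ := suppI (x₀, y₀)
    have hGe : ∀ᶠ ρ in 𝓝[>] (0:ℝ), ∀ ζ ∈ Metric.sphere (0:ℂ) ρ,
        (G (x₀ + ζ * b₁, y₀ + ζ * b₂)).re ≤ VI (x₀ + ζ * b₁) (y₀ + ζ * b₂) := by
      apply hball0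
      have hc : ContinuousAt (fun ζ : ℂ => ((x₀ + ζ * b₁, y₀ + ζ * b₂) : ℂ × ℂ)) 0 := by
        fun_prop
      have : Tendsto (fun ζ : ℂ => ((x₀ + ζ * b₁, y₀ + ζ * b₂) : ℂ × ℂ)) (𝓝 0)
          (𝓝 (x₀, y₀)) := by
        have := hc.tendsto
        simpa using this
      exact this.eventually hGle
    have hψc : ∀ᶠ ρ in 𝓝[>] (0:ℝ),
        ContinuousOn (fun ζ : ℂ => D.ψ (t₀ + ζ * b₃)) (Metric.sphere (0:ℂ) ρ) := by
      rcases hcase with ⟨ht, hb⟩ | hne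
      · refine Eventually.of_forall fun ρ => ?_
        subst ht hb
        simp only [mul_zero]
        exact continuousOn_const
      · filter_upwards [hne] with ρ h1 ζ hζ
        exact (ContinuousAt.comp (f := fun ζ : ℂ => t₀ + ζ * b₃) (x := ζ)
          (D.ψ_cont _ (h1 ζ hζ)) (by fun_prop)).continuousWithinAt
    have hψs : ∀ᶠ ρ in 𝓝[>] (0:ℝ),
        D.ψ t₀ ≤ Real.circleAverage (fun ζ : ℂ => D.ψ (t₀ + ζ * b₃)) 0 ρ := by
      by_cases hb : b₃ = 0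
      · refine Eventually.of_forall fun ρ => ?_
        subst hb
        simp only [mul_zero, add_zero]
        rw [Real.circleAverage_const]
      · have hpos : 0 < ‖b₃‖ := norm_pos_iff.2 hb
        have ht : Tendsto (fun ρ : ℝ => ρ * ‖b₃‖) (𝓝[>] 0) (𝓝[>] 0) := by
          rw [tendsto_nhdsWithin_iff]
          constructor
          · have : Tendsto (fun ρ : ℝ => ρ * ‖b₃‖) (𝓝 0) (𝓝 (0 * ‖b₃‖)) :=
              (continuous_id.mul continuous_const).tendsto 0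
            rw [zero_mul] at this
            exact this.mono_left nhdsWithin_le_nhds
          · filter_upwards [self_mem_nhdsWithin] with ρ hρ
            exact mul_pos hρ hpos
        filter_upwards [ht.eventually (D.ψ_sub t₀)] with ρ hρ
        rw [avg_line]
        exact hρ
    filter_upwards [hcont, hGe, hψc, hψs, re_avg G x₀ y₀ hG b₁ b₂, self_mem_nhdsWithin]
      with ρ h1 h2 h3 h4 h5 h6
    have h6' : (0:ℝ) < ρ := h6
    have hi1 := ContinuousOn.circleIntegrable (c := (0:ℂ)) h6'.le h5.1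
    have hi2 := ContinuousOn.circleIntegrable (c := (0:ℂ)) h6'.le h3
    have hi3 := ContinuousOn.circleIntegrable (c := (0:ℂ)) h6'.le h1
    have hi4 : CircleIntegrable (fun ζ : ℂ => (G (x₀ + ζ * b₁, y₀ + ζ * b₂)).re
        + D.ψ (t₀ + ζ * b₃)) 0 ρ := hi1.add hi2
    calc Uf D x₀ y₀ t₀ = VI x₀ y₀ + D.ψ t₀ := hA
      _ ≤ (G (x₀, y₀)).re + Real.circleAverage (fun ζ : ℂ => D.ψ (t₀ + ζ * b₃)) 0 ρ := by
          rw [hG0]; simpa using h4
      _ = Real.circleAverage (fun ζ : ℂ => (G (x₀ + ζ * b₁, y₀ + ζ * b₂)).re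
            + D.ψ (t₀ + ζ * b₃)) 0 ρ := by
          rw [Real.circleAverage_fun_add hi1 hi2, h5.2]
      _ ≤ _ := by
          apply Real.circleAverage_mono hi4 hi3
          intro ζ hζ
          rw [abs_of_pos h6'] at hζ
          have := (u_api D (x₀ + ζ * b₁) (y₀ + ζ * b₂) (t₀ + ζ * b₃)).1
          have := h2 ζ hζ
          linarith
  · -- case B
    have hex : ∃ i, ‖t₀ - D.w i‖ < D.r i := by
      by_contra hno
      push Not at hno
      exact hA ((u_api D x₀ y₀ t₀).2.2 hno)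
    obtain ⟨i, hi⟩ := hex
    have hUi := (u_api D x₀ y₀ t₀).2.1 i hi
    have hval : Uf D x₀ y₀ t₀ = VN (D.m i) x₀ y₀ - 2 * D.η i := by
      rcases max_choice (VI x₀ y₀ + D.ψ t₀) (VN (D.m i) x₀ y₀ - 2 * D.η i) with h | h
      · rw [h] at hUi; exact absurd hUi hA
      · rw [h] at hUi; exact hUi
    obtain ⟨G, hG, hG0, hGle⟩ := suppN (D.m i) (le_trans (by norm_num) (D.m_ge i)) (x₀, y₀)
    have hGe : ∀ᶠ ρ in 𝓝[>] (0:ℝ), ∀ ζ ∈ Metric.sphere (0:ℂ) ρ,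
        (G (x₀ + ζ * b₁, y₀ + ζ * b₂)).re ≤ VN (D.m i) (x₀ + ζ * b₁) (y₀ + ζ * b₂) := by
      apply hball0
      have hc : ContinuousAt (fun ζ : ℂ => ((x₀ + ζ * b₁, y₀ + ζ * b₂) : ℂ × ℂ)) 0 := by
        fun_prop
      have : Tendsto (fun ζ : ℂ => ((x₀ + ζ * b₁, y₀ + ζ * b₂) : ℂ × ℂ)) (𝓝 0)
          (𝓝 (x₀, y₀)) := by
        have := hc.tendsto
        simpa using this
      exact this.eventually hGle
    have hte : ∀ᶠ ρ in 𝓝[>] (0:ℝ), ∀ ζ ∈ Metric.sphere (0:ℂ) ρ,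
        ‖t₀ + ζ * b₃ - D.w i‖ < D.r i := by
      apply hball0
      have : ContinuousAt (fun ζ : ℂ => ‖t₀ + ζ * b₃ - D.w i‖) 0 := by fun_prop
      apply this.eventually_lt_const
      simpa using hi
    filter_upwards [hcont, hGe, hte, re_avg G x₀ y₀ hG b₁ b₂, self_mem_nhdsWithin]
      with ρ h1 h2 h3 h5 h6
    have h6' : (0:ℝ) < ρ := h6
    have hi1 := ContinuousOn.circleIntegrable (c := (0:ℂ)) h6'.le h5.1
    have hi2 : CircleIntegrable (fun _ : ℂ => - (2 * D.η i)) 0 ρ :=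
      ContinuousOn.circleIntegrable (c := (0:ℂ)) h6'.le continuousOn_const
    have hi3 := ContinuousOn.circleIntegrable (c := (0:ℂ)) h6'.le h1
    have hi4 : CircleIntegrable (fun ζ : ℂ => (G (x₀ + ζ * b₁, y₀ + ζ * b₂)).re
        + (- (2 * D.η i))) 0 ρ := hi1.add hi2
    calc Uf D x₀ y₀ t₀ = VN (D.m i) x₀ y₀ - 2 * D.η i := hval
      _ = (G (x₀, y₀)).re + Real.circleAverage (fun _ : ℂ => - (2 * D.η i)) 0 ρ := by
          rw [hG0, Real.circleAverage_const]; simp only; ring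
      _ = Real.circleAverage (fun ζ : ℂ => (G (x₀ + ζ * b₁, y₀ + ζ * b₂)).re
            + (- (2 * D.η i))) 0 ρ := by
          rw [Real.circleAverage_fun_add hi1 hi2, h5.2]
      _ ≤ _ := by
          apply Real.circleAverage_mono hi4 hi3
          intro ζ hζ
          rw [abs_of_pos h6'] at hζ
          have hu := (u_api D (x₀ + ζ * b₁) (y₀ + ζ * b₂) (t₀ + ζ * b₃)).2.1 i (h3 ζ hζ)
          have hv := h2 ζ hζ
          rw [hu]
          refine le_trans ?_ (le_max_right _ _)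
          linarith

end

end Pool.Agent.Helper311.GB.J8746

namespace Pool.Agent.Helper311.GB

alias u_sub := J8746.u_sub

end Pool.Agent.Helper311.GB

namespace Pool.Agent.Helper311.GB.J8747

noncomputable section

theorem u_vals (D : Dat) :
    (∀ i, ∀ ξ : ℂ, ‖ξ‖ ≤ 1 →
      Uf D (1 - 2 * ξ ^ D.m i) (ξ * (1 - 2 * ξ ^ D.m i)) (D.w i) < 0) ∧
    (∀ t : ℂ, ‖t‖ ≤ 1 → Uf D 1 0 t < 0) ∧ Uf D 0 0 0 = 0 := by
  obtain ⟨pv1, pv2, pv3⟩ := point_vals
  refine ⟨fun i ξ hξ => ?_, fun t ht => ?_, ?_⟩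
  · have hm1 : 1 ≤ D.m i := le_trans (by norm_num) (D.m_ge i)
    obtain ⟨h1, h2⟩ := disc_vals (D.m i) hm1 ξ hξ
    obtain ⟨-, h3, -⟩ := u_api D (1 - 2 * ξ ^ D.m i) (ξ * (1 - 2 * ξ ^ D.m i)) (D.w i)
    rw [h3 i (by simpa using D.r_pos i)]
    have h4 := D.ψ_well i
    have h5 := D.m_η i
    have h6 := D.η_pos i
    exact max_lt (by linarith) (by linarith)
  · obtain ⟨-, h3, h4⟩ := u_api D 1 0 t
    have h5 := D.ψ_le t ht
    by_cases h : ∃ i, ‖t - D.w i‖ < D.r i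
    · obtain ⟨i, hi⟩ := h
      have hm1 : 1 ≤ D.m i := le_trans (by norm_num) (D.m_ge i)
      rw [h3 i hi, pv1 _ hm1, pv2]
      have h6 := D.η_pos i
      exact max_lt (by linarith) (by linarith)
    · push Not at h
      rw [h4 h, pv2]
      linarith
  · obtain ⟨-, -, h4⟩ := u_api D 0 0 0
    rw [h4 (fun i => by simpa using (D.r_lt i).le), pv3, D.ψ_zero, add_zero]

end

end Pool.Agent.Helper311.GB.J8747

namespace Pool.Agent.Helper311.GB

alias u_vals := J8747.u_vals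

end Pool.Agent.Helper311.GB
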