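import Mathlib
import Pool.Agent.Helper311.GB.Defs
import Pool.Agent.Helper311.GB.Green
import Pool.Agent.Helper311.GB.U

set_option autoImplicit false

open MeasureTheory Filter Topology Complex Set

namespace Pool.Agent.Helper311.GB.J8748

noncomputable section

theorem coords (n : ℕ) (hn : 3 ≤ n) :
    (∀ x y t : ℂ, cx n hn (emb n hn x y t) = x ∧ cy n hn (emb n hn x y t) = y ∧
      ct n hn (emb n hn x y t) = t) ∧
    Continuous (cx n hn) ∧ Continuous (cy n hn) ∧ Continuous (ct n hn) ∧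
    Continuous (fun p : ℂ × ℂ × ℂ => emb n hn p.1 p.2.1 p.2.2) ∧
    (∀ (z b : EE n) (ζ : ℂ), cx n hn (z + ζ • b) = cx n hn z + ζ * cx n hn b ∧
      cy n hn (z + ζ • b) = cy n hn z + ζ * cy n hn b ∧
      ct n hn (z + ζ • b) = ct n hn z + ζ * ct n hn b) ∧
    (∀ (c x y t x' y' t' : ℂ), emb n hn (x + c * x') (y + c * y') (t + c * t') =
      emb n hn x y t + c • emb n hn x' y' t') ∧
    (∀ x y t : ℂ, ‖emb n hn x y t‖ ≤ ‖x‖ + ‖y‖ + ‖t‖) := by
  have hs : ∀ (i : Fin n), Continuous (fun x : ℂ => (EuclideanSpace.single i x : EE n)) := by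
    intro i
    have h1 : Isometry (fun x : ℂ => (EuclideanSpace.single i x : EE n)) := by
      refine Isometry.of_dist_eq fun a b => ?_
      exact EuclideanSpace.dist_single_same i a b
    exact h1.continuous
  have hadd : ∀ (i : Fin n) (c a b : ℂ), (EuclideanSpace.single i (a + c * b) : EE n) =
      EuclideanSpace.single i a + c • EuclideanSpace.single i b := by
    intro i c a b
    ext j
    by_cases h : j = i
    · subst h; simp
    · simp [h]
  refine ⟨?_, ?_, ?_, ?_, ?_, ?_, ?_, ?_⟩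
  · intro x y t
    refine ⟨?_, ?_, ?_⟩ <;> simp [cx, cy, ct, emb]
  · unfold cx; fun_prop
  · unfold cy; fun_prop
  · unfold ct; fun_prop
  · unfold emb
    exact (((hs _).comp continuous_fst).add ((hs _).comp (continuous_fst.comp continuous_snd))).add
      ((hs _).comp (continuous_snd.comp continuous_snd))
  · intro z b ζ
    refine ⟨?_, ?_, ?_⟩ <;> simp [cx, cy, ct]
  · intro c x y t x' y' t'
    unfold emb
    rw [hadd, hadd, hadd, smul_add, smul_add]
    abel
  · intro x y t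
    unfold emb
    refine (norm_add_le _ _).trans ?_
    have h1 := norm_add_le (EuclideanSpace.single (⟨0, by omega⟩ : Fin n) x : EE n)
      (EuclideanSpace.single (⟨1, by omega⟩ : Fin n) y)
    rw [EuclideanSpace.norm_single, EuclideanSpace.norm_single] at h1
    rw [EuclideanSpace.norm_single]
    linarith

end

end Pool.Agent.Helper311.GB.J8748

namespace Pool.Agent.Helper311.GB

alias coords := J8748.coords

end Pool.Agent.Helper311.GB

namespace Pool.Agent.Helper311.GB.J8749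

noncomputable section

theorem r_cont (D : Dat) (n : ℕ) (hn : 3 ≤ n) (z : EE n) (hz : RR D n hn z < 0) :
    ContinuousAt (RR D n hn) z := by
  obtain ⟨hemb, hcx, hcy, hct, hembc, -, -, -⟩ := coords n hn
  have hz' := hz
  unfold RR at hz'
  rw [max_lt_iff, max_lt_iff] at hz'
  obtain ⟨hU, hX, -⟩ := hz'
  have hx : ‖cx n hn z - 1‖ < 3 := by linarith
  have hcU : ContinuousAt (fun p : ℂ × ℂ × ℂ => Uf D p.1 p.2.1 p.2.2)
      (cx n hn z, cy n hn z, ct n hn z) := by
    by_cases ht : ct n hn z = 0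
    · have hUV : Uf D (cx n hn z) (cy n hn z) (ct n hn z) = VI (cx n hn z) (cy n hn z) := by
        rw [ht, (u_api D (cx n hn z) (cy n hn z) 0).2.2 (fun i => by
          rw [zero_sub, norm_neg]
          exact (D.r_lt i).le), D.ψ_zero, add_zero]
      have hV : VI (cx n hn z) (cy n hn z) < 0 := by rw [← hUV]; exact hU
      unfold ContinuousAt
      show Tendsto (fun p : ℂ × ℂ × ℂ => Uf D p.1 p.2.1 p.2.2)
        (𝓝 (cx n hn z, cy n hn z, ct n hn z)) (𝓝 (Uf D (cx n hn z) (cy n hn z) (ct n hn z)))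
      rw [hUV, ht, tendsto_order]
      constructor
      · intro b hb
        have h1 := u_low D (cx n hn z) (cy n hn z) (VI (cx n hn z) (cy n hn z) - b) (by linarith)
        rw [min_eq_left hV.le] at h1
        filter_upwards [h1] with p hp
        linarith
      · intro b hb
        have h1 := u_up D (cx n hn z) (cy n hn z) hx (b - VI (cx n hn z) (cy n hn z)) (by linarith)
        filter_upwards [h1] with p hp
        linarith
    · exact u_cont D _ _ _ hx ht
  have hc1 : ContinuousAt (fun z => Uf D (cx n hn z) (cy n hn z) (ct n hn z)) z := by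
    have hf : ContinuousAt (fun z => ((cx n hn z, cy n hn z, ct n hn z) : ℂ × ℂ × ℂ)) z :=
      (hcx.prodMk (hcy.prodMk hct)).continuousAt
    exact ContinuousAt.comp (g := fun p : ℂ × ℂ × ℂ => Uf D p.1 p.2.1 p.2.2)
      (f := fun z => ((cx n hn z, cy n hn z, ct n hn z) : ℂ × ℂ × ℂ)) hcU hf
  have hc2 : Continuous (fun z => max (‖cx n hn z - 1‖ - 5 / 2)
    (max (‖cy n hn z‖ - 7 / 2) (max (‖ct n hn z‖ - 1)
      (‖z - emb n hn (cx n hn z) (cy n hn z) (ct n hn z)‖ - 1)))) := by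
    have h1 : Continuous (fun z => emb n hn (cx n hn z) (cy n hn z) (ct n hn z)) :=
      hembc.comp (hcx.prodMk (hcy.prodMk hct))
    exact ((hcx.sub continuous_const).norm.sub continuous_const).max
      ((hcy.norm.sub continuous_const).max ((hct.norm.sub continuous_const).max
        ((continuous_id.sub h1).norm.sub continuous_const)))
  exact Filter.Tendsto.max hc1 hc2.continuousAt

end

end Pool.Agent.Helper311.GB.J8749

namespace Pool.Agent.Helper311.GB

alias r_cont := J8749.r_cont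

end Pool.Agent.Helper311.GB

namespace Pool.Agent.Helper311.GB.J8750

noncomputable section

/-- norm of an affine function of a complex variable has the sub-mean value property -/
theorem norm_affine_sub {E : Type} [NormedAddCommGroup E] [NormedSpace ℂ E] [CompleteSpace E]
    (v d : E) (ρ : ℝ) :
    ‖v‖ ≤ Real.circleAverage (fun ζ : ℂ => ‖v + ζ • d‖) 0 ρ := by
  have hD : DiffContOnCl ℂ (fun ζ : ℂ => v + ζ • d) (Metric.ball 0 |ρ|) := by
    apply Differentiable.diffContOnCl
    fun_prop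
  have h1 : Real.circleAverage (fun ζ : ℂ => v + ζ • d) 0 ρ = v := by
    have := hD.circleAverage
    simpa using this
  have h2 : ‖Real.circleAverage (fun ζ : ℂ => v + ζ • d) 0 ρ‖ ≤
      Real.circleAverage (fun ζ : ℂ => ‖v + ζ • d‖) 0 ρ := by
    rw [Real.circleAverage_def, Real.circleAverage_def, norm_smul, smul_eq_mul]
    rw [Real.norm_of_nonneg (by positivity)]
    apply mul_le_mul_of_nonneg_left _ (by positivity)
    exact intervalIntegral.norm_integral_le_integral_norm (by positivity)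
  rw [h1] at h2
  exact h2

theorem const_sub_avg {g : ℂ → ℝ} (hg : Continuous g) (a : ℝ) (ρ : ℝ) :
    Real.circleAverage (fun ζ : ℂ => g ζ - a) 0 ρ = Real.circleAverage g 0 ρ - a := by
  have := Real.circleAverage_fun_sub (c := 0) (R := ρ) (f₁ := g) (f₂ := fun _ => a)
    (hg.continuousOn.circleIntegrable') (continuousOn_const.circleIntegrable')
  rw [this, Real.circleAverage_const]

theorem r_sub (D : Dat) (n : ℕ) (hn : 3 ≤ n) (z : EE n) (hz : RR D n hn z < 0) (b : EE n) :
    ∀ᶠ ρ in 𝓝[>] (0:ℝ),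
      RR D n hn z ≤ Real.circleAverage (fun ζ : ℂ => RR D n hn (z + ζ • b)) 0 ρ := by
  obtain ⟨h_emb, hcx, hcy, hct, hce, hco, haff, hle⟩ := coords n hn
  set x₀ := cx n hn z with hx₀
  set y₀ := cy n hn z with hy₀
  set t₀ := ct n hn z with ht₀
  set b₁ := cx n hn b with hb₁
  set b₂ := cy n hn b with hb₂
  set b₃ := ct n hn b with hb₃
  set v := z - emb n hn x₀ y₀ t₀ with hv
  set d := b - emb n hn b₁ b₂ b₃ with hd
  have hRz : RR D n hn z = max (Uf D x₀ y₀ t₀) (max (‖x₀ - 1‖ - 5 / 2)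
    (max (‖y₀‖ - 7 / 2) (max (‖t₀‖ - 1) (‖v‖ - 1)))) := rfl
  have hRb : ∀ ζ : ℂ, RR D n hn (z + ζ • b) =
      max (Uf D (x₀ + ζ * b₁) (y₀ + ζ * b₂) (t₀ + ζ * b₃)) (max (‖(x₀ - 1) + ζ • b₁‖ - 5 / 2)
    (max (‖y₀ + ζ • b₂‖ - 7 / 2) (max (‖t₀ + ζ • b₃‖ - 1) (‖v + ζ • d‖ - 1)))) := by
    intro ζ
    unfold RR
    rw [(hco z b ζ).1, (hco z b ζ).2.1, (hco z b ζ).2.2, haff]
    have e1 : cx n hn z + ζ * cx n hn b - 1 = (x₀ - 1) + ζ • b₁ := by
      simp only [smul_eq_mul, hx₀, hb₁]; ring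
    have e2 : z + ζ • b - (emb n hn (cx n hn z) (cy n hn z) (ct n hn z) +
        ζ • emb n hn (cx n hn b) (cy n hn b) (ct n hn b)) = v + ζ • d := by
      rw [hv, hd, smul_sub]; abel
    rw [e1, e2]
    rfl
  have hx3 : ‖x₀ - 1‖ < 3 := by
    have : ‖x₀ - 1‖ - 5 / 2 ≤ RR D n hn z := by
      rw [hRz]
      exact le_max_of_le_right (le_max_left _ _)
    linarith
  have hU := u_sub D x₀ y₀ t₀ hx3 b₁ b₂ b₃
  have hpos : ∀ᶠ ρ in 𝓝[>] (0:ℝ), 0 < ρ := eventually_mem_nhdsWithin
  filter_upwards [hU, hpos] with ρ hρ hρ0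
  obtain ⟨hUc, hUle⟩ := hρ
  have habs : |ρ| = ρ := abs_of_pos hρ0
  have c1 : Continuous (fun ζ : ℂ => ‖(x₀ - 1) + ζ • b₁‖) := by fun_prop
  have c2 : Continuous (fun ζ : ℂ => ‖y₀ + ζ • b₂‖) := by fun_prop
  have c3 : Continuous (fun ζ : ℂ => ‖t₀ + ζ • b₃‖) := by fun_prop
  have c4 : Continuous (fun ζ : ℂ => ‖v + ζ • d‖) := by fun_prop
  have hRc : ContinuousOn (fun ζ : ℂ => RR D n hn (z + ζ • b)) (Metric.sphere (0:ℂ) ρ) := by
    simp_rw [hRb]
    refine hUc.sup' ?_
    exact (Continuous.continuousOn (by fun_prop))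
  have hRi : CircleIntegrable (fun ζ : ℂ => RR D n hn (z + ζ • b)) 0 ρ := by
    apply ContinuousOn.circleIntegrable'
    rw [habs]; exact hRc
  have mono : ∀ f : ℂ → ℝ, ContinuousOn f (Metric.sphere (0:ℂ) ρ) →
      (∀ ζ, f ζ ≤ RR D n hn (z + ζ • b)) →
      Real.circleAverage f 0 ρ ≤ Real.circleAverage (fun ζ : ℂ => RR D n hn (z + ζ • b)) 0 ρ := by
    intro f hf hle
    refine Real.circleAverage_mono ?_ hRi (fun ζ _ => hle ζ)
    apply ContinuousOn.circleIntegrable'
    rw [habs]; exact hf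
  have key : ∀ (E : Type) [NormedAddCommGroup E] [NormedSpace ℂ E] [CompleteSpace E]
      (v d : E) (a : ℝ), (∀ ζ : ℂ, ‖v + ζ • d‖ - a ≤ RR D n hn (z + ζ • b)) →
      ‖v‖ - a ≤ Real.circleAverage (fun ζ : ℂ => RR D n hn (z + ζ • b)) 0 ρ := by
    intro E _ _ _ v d a h
    have hc : Continuous (fun ζ : ℂ => ‖v + ζ • d‖) := by fun_prop
    have h1 := mono (fun ζ => ‖v + ζ • d‖ - a) (by fun_prop) h
    have h2 := norm_affine_sub v d ρ
    have h3 := const_sub_avg hc a ρ
    rw [h3] at h1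
    linarith
  rw [hRz]
  refine max_le ?_ (max_le ?_ (max_le ?_ (max_le ?_ ?_)))
  · refine le_trans hUle (mono _ hUc ?_)
    intro ζ
    rw [hRb]
    exact le_max_left _ _
  · refine key ℂ _ b₁ _ ?_
    intro ζ
    rw [hRb]
    exact le_max_of_le_right (le_max_left _ _)
  · refine key ℂ _ b₂ _ ?_
    intro ζ
    rw [hRb]
    exact le_max_of_le_right (le_max_of_le_right (le_max_left _ _))
  · refine key ℂ _ b₃ _ ?_
    intro ζ
    rw [hRb]
    exact le_max_of_le_right (le_max_of_le_right (le_max_of_le_right (le_max_left _ _)))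
  · refine key (EE n) _ d _ ?_
    intro ζ
    rw [hRb]
    exact le_max_of_le_right (le_max_of_le_right (le_max_of_le_right (le_max_right _ _)))

end

end Pool.Agent.Helper311.GB.J8750

namespace Pool.Agent.Helper311.GB

alias r_sub := J8750.r_sub

end Pool.Agent.Helper311.GB

namespace Pool.Agent.Helper311.GB.J8751

noncomputable section

theorem r_closed_aux {X : Type*} [TopologicalSpace X] (z : X) (c : ℝ) (R g : X → ℝ)
    (hf : ∃ᶠ p in 𝓝 z, R p ≤ c) (hg : ContinuousAt g z) (h : ∀ p, R p ≤ c → g p ≤ c) :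
    g z ≤ c := by
  by_contra hcon
  push Not at hcon
  have hev : ∀ᶠ p in 𝓝 z, c < g p := hg.eventually (lt_mem_nhds hcon)
  obtain ⟨p, hp1, hp2⟩ := (hf.and_eventually hev).exists
  exact absurd (h p hp1) (not_le.mpr hp2)

theorem r_closed (D : Dat) (n : ℕ) (hn : 3 ≤ n) (c : ℝ) (hc : c < 0) (z : EE n)
    (hz : z ∈ closure {p : EE n | RR D n hn p ≤ c}) : RR D n hn z < 0 := by
  have hfreq : ∃ᶠ p in 𝓝 z, RR D n hn p ≤ c := mem_closure_iff_frequently.mp hz
  obtain ⟨-, ccx, ccy, cct, cemb, -, -, -⟩ := coords n hn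
  have hspl : ∀ p : EE n, RR D n hn p ≤ c →
      Uf D (cx n hn p) (cy n hn p) (ct n hn p) ≤ c ∧ ‖cx n hn p - 1‖ - 5 / 2 ≤ c ∧
      ‖cy n hn p‖ - 7 / 2 ≤ c ∧ ‖ct n hn p‖ - 1 ≤ c ∧
      ‖p - emb n hn (cx n hn p) (cy n hn p) (ct n hn p)‖ - 1 ≤ c := by
    intro p hp
    unfold RR at hp
    rw [max_le_iff, max_le_iff, max_le_iff, max_le_iff] at hp
    exact hp
  have h1 : ‖cx n hn z - 1‖ - 5 / 2 ≤ c :=
    r_closed_aux z c _ (fun p => ‖cx n hn p - 1‖ - 5 / 2) hfreq
      (((ccx.sub continuous_const).norm.sub continuous_const).continuousAt)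
      (fun p hp => (hspl p hp).2.1)
  have h2 : ‖cy n hn z‖ - 7 / 2 ≤ c :=
    r_closed_aux z c _ (fun p => ‖cy n hn p‖ - 7 / 2) hfreq
      ((ccy.norm.sub continuous_const).continuousAt)
      (fun p hp => (hspl p hp).2.2.1)
  have h3 : ‖ct n hn z‖ - 1 ≤ c :=
    r_closed_aux z c _ (fun p => ‖ct n hn p‖ - 1) hfreq
      ((cct.norm.sub continuous_const).continuousAt)
      (fun p hp => (hspl p hp).2.2.2.1)
  have hemb : Continuous (fun p : EE n => emb n hn (cx n hn p) (cy n hn p) (ct n hn p)) :=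
    cemb.comp (ccx.prodMk (ccy.prodMk cct))
  have h4 : ‖z - emb n hn (cx n hn z) (cy n hn z) (ct n hn z)‖ - 1 ≤ c :=
    r_closed_aux z c _ (fun p => ‖p - emb n hn (cx n hn p) (cy n hn p) (ct n hn p)‖ - 1) hfreq
      (((continuous_id.sub hemb).norm.sub continuous_const).continuousAt)
      (fun p hp => (hspl p hp).2.2.2.2)
  have hcont : ContinuousAt (fun p : EE n => (cx n hn p, cy n hn p, ct n hn p)) z :=
    (ccx.prodMk (ccy.prodMk cct)).continuousAt
  have h0 : Uf D (cx n hn z) (cy n hn z) (ct n hn z) < 0 := by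
    by_cases ht : ct n hn z = 0
    · have hball : ∀ i, D.r i ≤ ‖(0 : ℂ) - D.w i‖ := by
        intro i
        rw [zero_sub, norm_neg]
        exact (D.r_lt i).le
      have hU := (u_api D (cx n hn z) (cy n hn z) 0).2.2 hball
      rw [D.ψ_zero, add_zero] at hU
      rw [ht, hU]
      by_contra hcon
      push Not at hcon
      have hlow := u_low D (cx n hn z) (cy n hn z) (-c / 2) (by linarith)
      rw [min_eq_right hcon] at hlow
      have hcont' : Tendsto (fun p : EE n => (cx n hn p, cy n hn p, ct n hn p)) (𝓝 z)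
          (𝓝 ((cx n hn z, cy n hn z, 0) : ℂ × ℂ × ℂ)) := by
        have h9 : Tendsto (fun p : EE n => (cx n hn p, cy n hn p, ct n hn p)) (𝓝 z)
          (𝓝 ((cx n hn z, cy n hn z, ct n hn z) : ℂ × ℂ × ℂ)) := hcont
        rwa [ht] at h9
      have hev := hcont'.eventually hlow
      obtain ⟨p, hp1, hp2⟩ := (hfreq.and_eventually hev).exists
      have hp3 := (hspl p hp1).1
      linarith
    · have hx : ‖cx n hn z - 1‖ < 3 := by linarith
      have hu := u_cont D (cx n hn z) (cy n hn z) (ct n hn z) hx ht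
      have hcomp : ContinuousAt (fun p : EE n => Uf D (cx n hn p) (cy n hn p) (ct n hn p)) z :=
        ContinuousAt.comp (f := fun p : EE n => (cx n hn p, cy n hn p, ct n hn p))
          (g := fun p : ℂ × ℂ × ℂ => Uf D p.1 p.2.1 p.2.2) hu hcont
      have := r_closed_aux z c _ _ hfreq hcomp (fun p hp => (hspl p hp).1)
      linarith
  unfold RR
  rw [max_lt_iff, max_lt_iff, max_lt_iff, max_lt_iff]
  exact ⟨h0, by linarith, by linarith, by linarith, by linarith⟩

end

end Pool.Agent.Helper311.GB.J8751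

namespace Pool.Agent.Helper311.GB

alias r_closed := J8751.r_closed

end Pool.Agent.Helper311.GB

namespace Pool.Agent.Helper311.GB.J8752

noncomputable section

theorem r_bdd (D : Dat) (n : ℕ) (hn : 3 ≤ n) :
    Bornology.IsBounded {p : EE n | RR D n hn p < 0} := by
  rw [isBounded_iff_forall_norm_le]
  refine ⟨9, fun z hz => ?_⟩
  have hz' : RR D n hn z < 0 := hz
  unfold RR at hz'
  simp only [max_lt_iff] at hz'
  obtain ⟨_, h1, h2, h3, h4⟩ := hz'
  have hx : ‖cx n hn z‖ ≤ ‖cx n hn z - 1‖ + 1 := by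
    calc ‖cx n hn z‖ = ‖(cx n hn z - 1) + 1‖ := by congr 1; ring
      _ ≤ ‖cx n hn z - 1‖ + ‖(1 : ℂ)‖ := norm_add_le _ _
      _ = ‖cx n hn z - 1‖ + 1 := by rw [norm_one]
  have he := (coords n hn).2.2.2.2.2.2.2 (cx n hn z) (cy n hn z) (ct n hn z)
  have hz2 : ‖z‖ ≤ ‖z - emb n hn (cx n hn z) (cy n hn z) (ct n hn z)‖ +
      ‖emb n hn (cx n hn z) (cy n hn z) (ct n hn z)‖ := by
    calc ‖z‖ = ‖(z - emb n hn (cx n hn z) (cy n hn z) (ct n hn z)) +
        emb n hn (cx n hn z) (cy n hn z) (ct n hn z)‖ := by congr 1; abel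
      _ ≤ _ := norm_add_le _ _
  linarith

end

end Pool.Agent.Helper311.GB.J8752

namespace Pool.Agent.Helper311.GB

alias r_bdd := J8752.r_bdd

end Pool.Agent.Helper311.GB

namespace Pool.Agent.Helper311.GB.J8753

noncomputable section

theorem comp_closed (n : ℕ) (S : Set (EuclideanSpace ℂ (Fin n))) (hS : IsOpen S)
    (z₀ p : EuclideanSpace ℂ (Fin n)) (hp : p ∈ closure (connectedComponentIn S z₀))
    (hpS : p ∈ S) : p ∈ connectedComponentIn S z₀ := by
  obtain ⟨ε, hε, hball⟩ := Metric.isOpen_iff.1 hS p hpS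
  obtain ⟨q, hq, hq2⟩ := Metric.mem_closure_iff.1 hp ε hε
  have hpre : IsPreconnected (Metric.ball p ε) := (convex_ball p ε).isPreconnected
  have hqb : q ∈ Metric.ball p ε := by
    rw [Metric.mem_ball, dist_comm]
    exact hq2
  have h1 := hpre.subset_connectedComponentIn hqb hball
  rw [← connectedComponentIn_eq hq] at h1
  exact h1 (Metric.mem_ball_self hε)

end

end Pool.Agent.Helper311.GB.J8753

namespace Pool.Agent.Helper311.GB

alias comp_closed := J8753.comp_closed

end Pool.Agent.Helper311.GB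

namespace Pool.Agent.Helper311.GB.J8755

noncomputable section

theorem psh_of_local (n : ℕ) (Ω : Set (EuclideanSpace ℂ (Fin n))) (hΩ : IsOpen Ω)
    (R : EuclideanSpace ℂ (Fin n) → ℝ) (hc : ContinuousOn R Ω)
    (hl : ∀ z ∈ Ω, ∀ b, ∀ᶠ ρ in 𝓝[>] (0:ℝ),
      R z ≤ Real.circleAverage (fun ζ : ℂ => R (z + ζ • b)) 0 ρ) :
    PSH Ω (fun z => ((R z : ℝ) : EReal)) := by
  refine ⟨?_, fun z _ => EReal.coe_lt_top _, ?_⟩
  · exact (continuous_coe_real_ereal.comp_continuousOn hc).upperSemicontinuousOn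
  · intro a b hab φ hφ hle
    have hcont : Continuous (fun ζ : ℂ => a + ζ • b) := by fun_prop
    set S : Set ℂ := (fun ζ : ℂ => a + ζ • b) ⁻¹' Ω with hS
    have hSo : IsOpen S := hΩ.preimage hcont
    have hsub : Metric.closedBall (0:ℂ) 1 ⊆ S := by
      intro ζ hζ
      simp only [Metric.mem_closedBall, dist_zero_right] at hζ
      exact hab ζ hζ
    have hcS : ContinuousOn (fun ζ : ℂ => R (a + ζ • b)) S :=
      hc.comp hcont.continuousOn (fun ζ hζ => hζ)
    have h1 := loc_glob (fun ζ : ℂ => R (a + ζ • b)) S hSo hsub hcS (by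
      intro ζ hζ
      have hm : a + ζ • b ∈ Ω := hsub (Metric.ball_subset_closedBall hζ)
      filter_upwards [hl _ hm b] with ρ hρ
      have e : Real.circleAverage (fun ζ : ℂ => R (a + ζ • b)) ζ ρ
          = Real.circleAverage (fun ξ : ℂ => R ((a + ζ • b) + ξ • b)) 0 ρ := by
        unfold Real.circleAverage
        congr 1
        apply intervalIntegral.integral_congr
        intro θ _
        simp only [circleMap, zero_add, add_smul, add_assoc]
      rw [e]
      exact hρ)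
    simp only [zero_smul, add_zero] at h1
    have h2 : Real.circleAverage (fun ζ : ℂ => R (a + ζ • b)) 0 1 ≤ Real.circleAverage φ 0 1 := by
      apply Real.circleAverage_mono
      · apply ContinuousOn.circleIntegrable zero_le_one
        exact hcS.mono (Metric.sphere_subset_closedBall.trans hsub)
      · exact hφ.continuousOn.circleIntegrable zero_le_one
      · intro ζ hζ
        have hn : ‖ζ‖ = 1 := by
          simpa [abs_one] using hζ
        have := hle ζ hn
        exact EReal.coe_le_coe_iff.mp this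
    exact EReal.coe_le_coe_iff.mpr (h1.trans h2)

end

end Pool.Agent.Helper311.GB.J8755

namespace Pool.Agent.Helper311.GB

alias psh_of_local := J8755.psh_of_local

end Pool.Agent.Helper311.GB

namespace Pool.Agent.Helper311.GB.J8756

noncomputable section

theorem hyper (D : Dat) (n : ℕ) (hn : 3 ≤ n) (z₀ : EE n) :
    Hyperconvex (connectedComponentIn {p : EE n | RR D n hn p < 0} z₀) := by
  set S : Set (EE n) := {p : EE n | RR D n hn p < 0} with hS
  have hSo : IsOpen S := by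
    rw [isOpen_iff_mem_nhds]
    intro z hz
    exact (r_cont D n hn z hz).eventually (gt_mem_nhds hz)
  have hCo : IsOpen (connectedComponentIn S z₀) := hSo.connectedComponentIn
  have hCS : connectedComponentIn S z₀ ⊆ S := connectedComponentIn_subset _ _
  refine ⟨fun z => ((RR D n hn z : ℝ) : EReal), ?_, ?_, ?_⟩
  · apply psh_of_local n _ hCo
    · intro z hz
      exact (r_cont D n hn z (hCS hz)).continuousWithinAt
    · intro z hz b
      exact r_sub D n hn z (hCS hz) b
  · intro z hz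
    have : RR D n hn z < 0 := hCS hz
    show ((RR D n hn z : ℝ) : EReal) < 0
    exact_mod_cast this
  · intro c hc
    refine ⟨closure {z | z ∈ connectedComponentIn S z₀ ∧ RR D n hn z ≤ c}, ?_, ?_, ?_⟩
    · apply Metric.isCompact_of_isClosed_isBounded isClosed_closure
      apply Bornology.IsBounded.closure
      exact (r_bdd D n hn).subset (fun z hz => hCS hz.1)
    · intro p hp
      have h1 : RR D n hn p < 0 := r_closed D n hn c hc p (closure_mono (fun z hz => hz.2) hp)
      exact comp_closed n S hSo z₀ p (closure_mono (fun z hz => hz.1) hp) h1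
    · intro z hz hzc
      apply subset_closure
      have h2 : ((RR D n hn z : ℝ) : EReal) < (c : EReal) := hzc
      exact ⟨hz, by exact_mod_cast h2.le⟩

end

end Pool.Agent.Helper311.GB.J8756

namespace Pool.Agent.Helper311.GB

alias hyper := J8756.hyper

end Pool.Agent.Helper311.GB

namespace Pool.Agent.Helper311.GB.J8757

noncomputable section

theorem RR_emb_lt (D : Dat) (n : ℕ) (hn : 3 ≤ n) (x y t : ℂ) (hU : Uf D x y t < 0)
    (hx : ‖x - 1‖ < 5 / 2) (hy : ‖y‖ < 7 / 2) (ht : ‖t‖ < 1) :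
    RR D n hn (emb n hn x y t) < 0 := by
  obtain ⟨h1, h2, h3⟩ := (coords n hn).1 x y t
  unfold RR
  rw [h1, h2, h3, sub_self, norm_zero]
  refine max_lt hU (max_lt (by linarith) (max_lt (by linarith) (max_lt (by linarith) (by norm_num))))

theorem r_disc (D : Dat) (n : ℕ) (hn : 3 ≤ n) :
    (∀ i, ∀ ξ : ℂ, ‖ξ‖ ≤ 1 → emb n hn 0 0 (D.w i) +
      (1 - 2 * ξ ^ D.m i) • (emb n hn 1 0 0 + ξ • emb n hn 0 1 0) ∈
        connectedComponentIn {p : EE n | RR D n hn p < 0} (emb n hn 1 0 0)) ∧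
    (∀ t : ℂ, ‖t‖ ≤ 1 / 2 → emb n hn 1 0 t ∈
        connectedComponentIn {p : EE n | RR D n hn p < 0} (emb n hn 1 0 0)) ∧
    (0 : EE n) ∈ frontier (connectedComponentIn {p : EE n | RR D n hn p < 0} (emb n hn 1 0 0)) ∧
    (∀ i, emb n hn 0 0 (D.w i) ∈
        connectedComponentIn {p : EE n | RR D n hn p < 0} (emb n hn 1 0 0)) := by
  obtain ⟨hE, hcx, hcy, hct, hemb, hlin, hext, hnorm⟩ := coords n hn
  obtain ⟨hU1, hU2, hU3⟩ := u_vals D
  set S : Set (EE n) := {p : EE n | RR D n hn p < 0} with hS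
  -- the disc formula
  have hdisc : ∀ (w ξ : ℂ) (m : ℕ), emb n hn 0 0 w +
      (1 - 2 * ξ ^ m) • (emb n hn 1 0 0 + ξ • emb n hn 0 1 0) =
      emb n hn (1 - 2 * ξ ^ m) (ξ * (1 - 2 * ξ ^ m)) w := by
    intro w ξ m
    rw [← hext ξ 1 0 0 0 1 0, ← hext]
    congr 1 <;> ring
  have hseg : ∀ t : ℂ, ‖t‖ ≤ 1 / 2 → emb n hn 1 0 t ∈ S := by
    intro t ht
    refine RR_emb_lt D n hn 1 0 t (hU2 t (by linarith)) (by norm_num) (by norm_num) (by linarith)
  have hdS : ∀ i, ∀ ξ : ℂ, ‖ξ‖ ≤ 1 →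
      emb n hn (1 - 2 * ξ ^ D.m i) (ξ * (1 - 2 * ξ ^ D.m i)) (D.w i) ∈ S := by
    intro i ξ hξ
    have hp : ‖ξ ^ D.m i‖ ≤ 1 := by rw [norm_pow]; exact pow_le_one₀ (norm_nonneg _) hξ
    have h2 : ‖2 * ξ ^ D.m i‖ ≤ 2 := by
      rw [norm_mul]; simp only [Complex.norm_ofNat]; linarith
    have h3 : ‖1 - 2 * ξ ^ D.m i‖ ≤ 3 := by
      calc ‖1 - 2 * ξ ^ D.m i‖ ≤ ‖(1:ℂ)‖ + ‖2 * ξ ^ D.m i‖ := norm_sub_le _ _
        _ ≤ 3 := by rw [norm_one]; linarith
    refine RR_emb_lt D n hn _ _ _ (hU1 i ξ hξ) ?_ ?_ ?_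
    · have : (1 : ℂ) - 2 * ξ ^ D.m i - 1 = -(2 * ξ ^ D.m i) := by ring
      rw [this, norm_neg]; linarith
    · rw [norm_mul]
      nlinarith [norm_nonneg ξ, norm_nonneg (1 - 2 * ξ ^ D.m i)]
    · have := D.wr i; have := D.r_pos i; linarith
  -- the segment
  have h10 : emb n hn 1 0 0 ∈ S := hseg 0 (by norm_num)
  have hsegc : ∀ t : ℂ, ‖t‖ ≤ 1 / 2 → emb n hn 1 0 t ∈ connectedComponentIn S (emb n hn 1 0 0) := by
    intro t ht
    have hpre : IsPreconnected ((fun s : ℂ => emb n hn 1 0 s) '' Metric.closedBall 0 (1 / 2)) := by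
      refine (convex_closedBall (0:ℂ) (1 / 2)).isPreconnected.image _ ?_
      exact (hemb.comp (by fun_prop : Continuous fun s : ℂ => ((1:ℂ), ((0:ℂ), s)))).continuousOn
    refine hpre.subset_connectedComponentIn ⟨0, by simp, rfl⟩ ?_ ⟨t, by simpa using ht, rfl⟩
    rintro _ ⟨s, hs, rfl⟩
    exact hseg s (by simpa using hs)
  have hdc : ∀ i, ∀ ξ : ℂ, ‖ξ‖ ≤ 1 →
      emb n hn (1 - 2 * ξ ^ D.m i) (ξ * (1 - 2 * ξ ^ D.m i)) (D.w i) ∈
        connectedComponentIn S (emb n hn 1 0 0) := by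
    intro i ξ hξ
    have hw : ‖D.w i‖ ≤ 1 / 2 := by
      have := D.wr i; have := D.r_pos i; linarith
    have hm : D.m i ≠ 0 := by have := D.m_ge i; omega
    have hpre : IsPreconnected ((fun s : ℂ => emb n hn (1 - 2 * s ^ D.m i)
        (s * (1 - 2 * s ^ D.m i)) (D.w i)) '' Metric.closedBall 0 1) := by
      refine (convex_closedBall (0:ℂ) 1).isPreconnected.image _ ?_
      exact (hemb.comp (by fun_prop : Continuous fun s : ℂ =>
        ((1 - 2 * s ^ D.m i : ℂ), ((s * (1 - 2 * s ^ D.m i) : ℂ), D.w i)))).continuousOn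
    have h0 : emb n hn 1 0 (D.w i) ∈ ((fun s : ℂ => emb n hn (1 - 2 * s ^ D.m i)
        (s * (1 - 2 * s ^ D.m i)) (D.w i)) '' Metric.closedBall 0 1) := by
      refine ⟨0, by simp, ?_⟩
      simp [zero_pow hm]
    have hsub : ((fun s : ℂ => emb n hn (1 - 2 * s ^ D.m i)
        (s * (1 - 2 * s ^ D.m i)) (D.w i)) '' Metric.closedBall 0 1) ⊆ S := by
      rintro _ ⟨s, hs, rfl⟩
      exact hdS i s (by simpa using hs)
    have hk := hpre.subset_connectedComponentIn h0 hsub
    rw [connectedComponentIn_eq (hsegc (D.w i) hw)]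
    exact hk ⟨ξ, by simpa using hξ, rfl⟩
  have hwc : ∀ i, emb n hn 0 0 (D.w i) ∈ connectedComponentIn S (emb n hn 1 0 0) := by
    intro i
    have hm : D.m i ≠ 0 := by have := D.m_ge i; omega
    have hm' : (D.m i : ℝ) ≠ 0 := by exact_mod_cast hm
    set a : ℝ := (1 / 2 : ℝ) ^ ((1:ℝ) / D.m i) with ha
    have ha0 : 0 ≤ a := Real.rpow_nonneg (by norm_num) _
    have ha1 : a ≤ 1 := Real.rpow_le_one (by norm_num) (by norm_num) (by positivity)
    have hapow : a ^ D.m i = 1 / 2 := by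
      rw [ha, ← Real.rpow_natCast, ← Real.rpow_mul (by norm_num), one_div_mul_cancel hm',
        Real.rpow_one]
    have hz : (1 : ℂ) - 2 * (a : ℂ) ^ D.m i = 0 := by
      have : ((a : ℂ)) ^ D.m i = 1 / 2 := by
        have h := congrArg (fun r : ℝ => (r : ℂ)) hapow
        push_cast at h; exact h
      rw [this]; norm_num
    have h := hdc i (a : ℂ) (by rw [Complex.norm_real, Real.norm_eq_abs, abs_of_nonneg ha0]; exact ha1)
    rw [hz, mul_zero] at h
    exact h
  refine ⟨?_, hsegc, ?_, hwc⟩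
  · intro i ξ hξ
    rw [hdisc]
    exact hdc i ξ hξ
  · have hopenS : IsOpen S := by
      rw [isOpen_iff_mem_nhds]
      intro z hz
      exact (r_cont D n hn z hz).eventually_lt continuousAt_const hz
    have hopen : IsOpen (connectedComponentIn S (emb n hn 1 0 0)) := hopenS.connectedComponentIn
    have hemb0 : emb n hn 0 0 0 = (0 : EE n) := by
      have h := hnorm 0 0 0
      have : ‖emb n hn 0 0 0‖ ≤ 0 := by simpa using h
      exact norm_le_zero_iff.mp this
    rw [hopen.frontier_eq]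
    refine ⟨?_, ?_⟩
    · have ht : Tendsto (fun i => emb n hn 0 0 (D.w i)) atTop (𝓝 (0 : EE n)) := by
        have hc : Continuous fun s : ℂ => emb n hn 0 0 s :=
          hemb.comp (by fun_prop : Continuous fun s : ℂ => ((0:ℂ), ((0:ℂ), s)))
        have := (hc.tendsto 0).comp D.w_tendsto
        rw [hemb0] at this
        exact this
      exact mem_closure_of_tendsto ht (Eventually.of_forall hwc)
    · intro h0
      have h := connectedComponentIn_subset _ _ h0
      have h' : RR D n hn 0 < 0 := h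
      have hle : Uf D (cx n hn 0) (cy n hn 0) (ct n hn 0) ≤ RR D n hn 0 := le_max_left _ _
      obtain ⟨e1, e2, e3⟩ := hE 0 0 0
      rw [hemb0] at e1 e2 e3
      rw [e1, e2, e3, hU3] at hle
      linarith

end

end Pool.Agent.Helper311.GB.J8757

namespace Pool.Agent.Helper311.GB

alias r_disc := J8757.r_disc

end Pool.Agent.Helper311.GB
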