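import Mathlib
import Pool.Agent.Helper311.GB.Defs
import Pool.Agent.Helper311.GB.Green
import Pool.Agent.Helper311.GB.Psi
import Pool.Agent.Helper311.GB.R

set_option autoImplicit false

open MeasureTheory Filter Topology Complex Set

namespace Pool.Agent.Helper311.GB.J8758

noncomputable section

theorem main_thm (n : ℕ) (hn : 3 ≤ n) : ∃ Ω : Set (EuclideanSpace ℂ (Fin n)),
    IsOpen Ω ∧ IsConnected Ω ∧ Bornology.IsBounded Ω ∧ Hyperconvex Ω ∧
    ∃ K : Set (EuclideanSpace ℂ (Fin n)), IsCompact K ∧ K ⊆ Ω ∧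
    ∃ p : ℕ → EuclideanSpace ℂ (Fin n), (∀ j, p j ∈ Ω) ∧
      Tendsto (fun j => Metric.infDist (p j) (frontier Ω)) atTop (𝓝 0) ∧
      ∀ j, ∃ z ∈ K, green Ω (p j) z ≤ ((-Real.log 2 : ℝ) : EReal) := by
  obtain ⟨D⟩ := dat_exists
  obtain ⟨hd, hseg, hfr, hw⟩ := r_disc D n hn
  obtain ⟨hE, hcx, hcy, hct, hemb, hlin, hext, hnorm⟩ := coords n hn
  have hopenS : IsOpen {p : EE n | RR D n hn p < 0} := by
    rw [isOpen_iff_mem_nhds]
    intro z hz
    exact (r_cont D n hn z hz).eventually_lt continuousAt_const hz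
  have h10 : emb n hn 1 0 0 ∈ {p : EE n | RR D n hn p < 0} :=
    connectedComponentIn_subset _ _ (hseg 0 (by norm_num))
  have hopen : IsOpen (connectedComponentIn {p : EE n | RR D n hn p < 0} (emb n hn 1 0 0)) :=
    hopenS.connectedComponentIn
  have hconn : IsConnected (connectedComponentIn {p : EE n | RR D n hn p < 0} (emb n hn 1 0 0)) :=
    isConnected_connectedComponentIn_iff.mpr h10
  refine ⟨connectedComponentIn {p : EE n | RR D n hn p < 0} (emb n hn 1 0 0), hopen, hconn,
    (r_bdd D n hn).subset (connectedComponentIn_subset _ _), hyper D n hn _,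
    (fun t : ℂ => emb n hn 1 0 t) '' Metric.closedBall 0 (1 / 2), ?_, ?_,
    fun j => emb n hn 0 0 (D.w j), hw, ?_, ?_⟩
  · exact (isCompact_closedBall (0:ℂ) (1 / 2)).image
      (hemb.comp (by fun_prop : Continuous fun s : ℂ => ((1:ℂ), ((0:ℂ), s))))
  · rintro _ ⟨t, ht, rfl⟩
    exact hseg t (by simpa using ht)
  · have hle : ∀ j, Metric.infDist (emb n hn 0 0 (D.w j))
        (frontier (connectedComponentIn {p : EE n | RR D n hn p < 0} (emb n hn 1 0 0))) ≤ ‖D.w j‖ := by
      intro j
      refine (Metric.infDist_le_dist_of_mem hfr).trans ?_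
      rw [dist_zero_right]
      simpa using hnorm 0 0 (D.w j)
    refine squeeze_zero (fun j => Metric.infDist_nonneg) hle ?_
    have := D.w_tendsto.norm
    simpa using this
  · intro j
    have hwj : ‖D.w j‖ ≤ 1 / 2 := by
      have := D.wr j; have := D.r_pos j; linarith
    refine ⟨emb n hn 1 0 (D.w j), ⟨D.w j, by simpa using hwj, rfl⟩, ?_⟩
    have key := green_disc n _ hopen (emb n hn 0 0 (D.w j)) (emb n hn 1 0 0) (emb n hn 0 1 0) ?_
      (D.m j) (by have := D.m_ge j; omega) (fun ξ hξ => hd j ξ hξ)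
    · have e : emb n hn 0 0 (D.w j) + emb n hn 1 0 0 = emb n hn 1 0 (D.w j) := by
        have h := hext 1 0 0 (D.w j) 1 0 0
        rw [one_smul] at h
        rw [← h]
        congr 1 <;> ring
      rw [e] at key
      exact key
    · intro ξ h0
      have h1 : emb n hn 1 0 0 + ξ • emb n hn 0 1 0 = emb n hn 1 ξ 0 := by
        rw [← hext ξ 1 0 0 0 1 0]
        congr 1 <;> ring
      rw [h1] at h0
      have h2 := (hE 1 ξ 0).1
      have h3 := (hE 0 0 0).1
      have h4 : emb n hn 0 0 0 = (0 : EE n) := by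
        have h := hnorm 0 0 0
        have : ‖emb n hn 0 0 0‖ ≤ 0 := by simpa using h
        exact norm_le_zero_iff.mp this
      rw [h0, ← h4, h3] at h2
      exact zero_ne_one h2

end

end Pool.Agent.Helper311.GB.J8758

namespace Pool.Agent.Helper311.GB

alias main_thm := J8758.main_thm

end Pool.Agent.Helper311.GB
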