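import Mathlib
import Pool.Agent.Helper311.GB.Defs

set_option autoImplicit false

open MeasureTheory Filter Topology Complex Set

namespace Pool.Agent.Helper311.GB.J9389

noncomputable section

theorem avg_9389 (a0 : ℂ) (K : ℝ) (φ : ℂ → ℝ) (hφ : Continuous φ)
    (h : ∀ ζ : ℂ, ‖ζ‖ = 1 → ζ ≠ a0 → K + Real.log ‖ζ - a0‖ ≤ φ ζ) :
    K + Real.log ‖a0‖ ≤ Real.circleAverage φ 0 1 := by
  classical
  have hφi : CircleIntegrable φ 0 1 := hφ.continuousOn.circleIntegrable'
  have hlog : CircleIntegrable (fun z : ℂ => Real.log ‖z - a0‖) 0 1 :=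
    MeromorphicOn.circleIntegrable_log_norm (fun _ _ => by fun_prop)
  have hKi : CircleIntegrable (fun _ : ℂ => K) 0 1 := circleIntegrable_const K 0 1
  have hf1 : CircleIntegrable (fun z : ℂ => K + Real.log ‖z - a0‖) 0 1 := hKi.add hlog
  have havg : Real.circleAverage (fun z : ℂ => K + Real.log ‖z - a0‖) 0 1 = K + Real.posLog ‖a0‖ := by
    have h1 : Real.circleAverage (fun z : ℂ => K + Real.log ‖z - a0‖) 0 1 =
        Real.circleAverage (fun _ : ℂ => K) 0 1 + Real.circleAverage (fun z : ℂ => Real.log ‖z - a0‖) 0 1 :=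
      Real.circleAverage_fun_add hKi hlog
    rw [h1, Real.circleAverage_const]
    congr 1
    exact circleAverage_log_norm_sub_const_eq_posLog
  let f2 : ℂ → ℝ := fun z => if z = a0 then φ z else K + Real.log ‖z - a0‖
  have hco : (fun z : ℂ => K + Real.log ‖z - a0‖) =ᶠ[codiscreteWithin (Metric.sphere (0:ℂ) |1|)] f2 := by
    have : {z | z ≠ a0} ∈ codiscreteWithin (Metric.sphere (0 : ℂ) |1|) := by
      apply codiscreteWithin_iff_locallyFiniteComplementWithin.2
      intro z hz
      use Set.univ
      refine ⟨univ_mem, ?_⟩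
      apply Set.Subsingleton.finite
      intro z₁ hz₁ z₂ hz₂
      have e1 : z₁ = a0 := by
        have := hz₁.2.2
        simpa using this
      have e2 : z₂ = a0 := by
        have := hz₂.2.2
        simpa using this
      rw [e1, e2]
    filter_upwards [this] with z hz
    show _ = if z = a0 then φ z else K + Real.log ‖z - a0‖
    rw [if_neg hz]
  have hf2 : CircleIntegrable f2 0 1 := CircleIntegrable.congr_codiscreteWithin hco hf1
  have h3 := Real.circleAverage_congr_codiscreteWithin hco one_ne_zero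
  have h4 : Real.circleAverage f2 0 1 ≤ Real.circleAverage φ 0 1 := by
    apply Real.circleAverage_mono hf2 hφi
    intro z hz
    rw [abs_one, mem_sphere_zero_iff_norm] at hz
    show (if z = a0 then φ z else K + Real.log ‖z - a0‖) ≤ φ z
    split_ifs with h5
    · exact le_rfl
    · exact h z hz h5
  rw [← h3, havg] at h4
  have h6 : Real.log ‖a0‖ ≤ Real.posLog ‖a0‖ := by
    rw [Real.posLog]
    exact le_max_right _ _
  linarith

theorem psh_log (n : ℕ) (Ω : Set (EuclideanSpace ℂ (Fin n))) (w : EuclideanSpace ℂ (Fin n)) (c : ℝ) :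
    PSH Ω (fun s => open Classical in
      if s = w then (⊥ : EReal) else ((Real.log ‖s - w‖ - c : ℝ) : EReal)) := by
  classical
  refine ⟨?_, ?_, ?_⟩
  · intro s _ y hy
    by_cases hs : s = w
    · subst hs
      have hy' : (⊥ : EReal) < y := by simpa using hy
      obtain ⟨r, _, hr2⟩ := EReal.lt_iff_exists_real_btwn.1 hy'
      have h1 : ∀ᶠ s' in 𝓝[Ω] s, ‖s' - s‖ < Real.exp (r + c) := by
        apply eventually_nhdsWithin_of_eventually_nhds
        have : Metric.ball s (Real.exp (r + c)) ∈ 𝓝 s := Metric.ball_mem_nhds _ (Real.exp_pos _)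
        filter_upwards [this] with s' hs'
        rw [Metric.mem_ball, dist_eq_norm] at hs'
        exact hs'
      filter_upwards [h1] with s' hs'
      by_cases h2 : s' = s
      · simp only [h2, if_true]; exact hy'
      · simp only [h2, if_false]
        refine lt_trans ?_ hr2
        rw [EReal.coe_lt_coe_iff]
        have h3 : 0 < ‖s' - s‖ := norm_pos_iff.2 (sub_ne_zero.2 h2)
        have h4 := Real.log_lt_log h3 hs'
        rw [Real.log_exp] at h4
        linarith
    · simp only [hs, if_false] at hy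
      obtain ⟨r, hr1, hr2⟩ := EReal.lt_iff_exists_real_btwn.1 hy
      rw [EReal.coe_lt_coe_iff] at hr1
      have hc : ContinuousAt (fun s' : EuclideanSpace ℂ (Fin n) => Real.log ‖s' - w‖ - c) s := by
        apply ContinuousAt.sub _ continuousAt_const
        apply ContinuousAt.log
        · fun_prop
        · exact norm_ne_zero_iff.2 (sub_ne_zero.2 hs)
      have h1 : ∀ᶠ s' in 𝓝 s, Real.log ‖s' - w‖ - c < r := hc.eventually (gt_mem_nhds hr1)
      have h2 : ∀ᶠ s' in 𝓝 s, s' ≠ w := isOpen_ne.mem_nhds hs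
      apply eventually_nhdsWithin_of_eventually_nhds
      filter_upwards [h1, h2] with s' h3 h4
      simp only [h4, if_false]
      exact lt_trans (EReal.coe_lt_coe_iff.2 h3) hr2
  · intro z _
    simp only
    split_ifs
    · exact bot_lt_top
    · exact EReal.coe_lt_top _
  · intro a b _ φ hφ H
    by_cases ha : a = w
    · simp only [ha, if_true]; exact bot_le
    · simp only [ha, if_false]
      rw [EReal.coe_le_coe_iff]
      set v := a - w with hv
      have hv0 : v ≠ 0 := sub_ne_zero.2 ha
      have hvn : 0 < ‖v‖ := norm_pos_iff.2 hv0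
      have hsplit : ∀ ζ : ℂ, a + ζ • b - w = v + ζ • b := by
        intro ζ; rw [hv]; abel
      have hin : ∀ ζ : ℂ, inner ℂ v (v + ζ • b) = ((‖v‖ ^ 2 : ℝ) : ℂ) + ζ * inner ℂ v b := by
        intro ζ
        rw [inner_add_right, inner_smul_right, inner_self_eq_norm_sq_to_K]
        norm_cast
      have hle : ∀ ζ : ℂ, ‖((‖v‖ ^ 2 : ℝ) : ℂ) + ζ * inner ℂ v b‖ ≤ ‖v‖ * ‖v + ζ • b‖ := by
        intro ζ
        rw [← hin]
        exact norm_inner_le_norm _ _
      -- pointwise estimate
      have hpt : ∀ ζ : ℂ, ‖ζ‖ = 1 → ((‖v‖ ^ 2 : ℝ) : ℂ) + ζ * inner ℂ v b ≠ 0 →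
          Real.log ‖((‖v‖ ^ 2 : ℝ) : ℂ) + ζ * inner ℂ v b‖ - Real.log ‖v‖ - c ≤ φ ζ := by
        intro ζ hζ hne
        have h1 : 0 < ‖((‖v‖ ^ 2 : ℝ) : ℂ) + ζ * inner ℂ v b‖ := norm_pos_iff.2 hne
        have h2 := hle ζ
        have h3 : 0 < ‖v + ζ • b‖ := by
          by_contra h4
          push Not at h4
          have : ‖v‖ * ‖v + ζ • b‖ ≤ 0 := mul_nonpos_of_nonneg_of_nonpos hvn.le h4
          linarith
        have h5 : a + ζ • b ≠ w := by
          intro h6
          rw [← hsplit, h6, sub_self, norm_zero] at h3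
          exact lt_irrefl _ h3
        have h6 := H ζ hζ
        simp only [h5, if_false] at h6
        rw [EReal.coe_le_coe_iff, hsplit] at h6
        have h7 := Real.log_le_log h1 h2
        rw [Real.log_mul hvn.ne' h3.ne'] at h7
        linarith
      by_cases hβ : inner ℂ v b = 0
      · have h1 : ∀ ζ : ℂ, ‖ζ‖ = 1 → Real.log ‖v‖ - c ≤ φ ζ := by
          intro ζ hζ
          have h2 := hpt ζ hζ
          rw [hβ, mul_zero, add_zero] at h2
          have h3 : ((‖v‖ ^ 2 : ℝ) : ℂ) ≠ 0 := by
            rw [Ne, Complex.ofReal_eq_zero]; positivity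
          have h4 := h2 h3
          rw [Complex.norm_real, Real.norm_of_nonneg (by positivity), Real.log_pow] at h4
          push_cast at h4
          linarith
        have h5 : Real.circleAverage (fun _ : ℂ => Real.log ‖v‖ - c) 0 1 ≤ Real.circleAverage φ 0 1 := by
          apply Real.circleAverage_mono (circleIntegrable_const _ 0 1) hφ.continuousOn.circleIntegrable'
          intro z hz
          rw [abs_one, mem_sphere_zero_iff_norm] at hz
          exact h1 z hz
        rwa [Real.circleAverage_const] at h5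
      · set β := inner ℂ v b with hβdef
        have hβn : 0 < ‖β‖ := norm_pos_iff.2 hβ
        set a0 : ℂ := -((‖v‖ ^ 2 : ℝ) : ℂ) / β with ha0
        have hfac : ∀ ζ : ℂ, ((‖v‖ ^ 2 : ℝ) : ℂ) + ζ * β = β * (ζ - a0) := by
          intro ζ
          rw [ha0]
          field_simp
          ring
        have h1 := avg_9389 a0 (Real.log ‖β‖ - Real.log ‖v‖ - c) φ hφ (by
          intro ζ hζ hne
          have h2 := hpt ζ hζ
          rw [hfac] at h2
          have h3 : 0 < ‖ζ - a0‖ := norm_pos_iff.2 (sub_ne_zero.2 hne)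
          have h4 := h2 (mul_ne_zero hβ (sub_ne_zero.2 hne))
          rw [norm_mul, Real.log_mul hβn.ne' h3.ne'] at h4
          linarith)
        have h2 : Real.log ‖a0‖ = 2 * Real.log ‖v‖ - Real.log ‖β‖ := by
          rw [ha0, norm_div, norm_neg, Complex.norm_real, Real.norm_of_nonneg (by positivity),
            Real.log_div (by positivity) hβn.ne', Real.log_pow]
          push_cast
          ring
        rw [h2] at h1
        linarith

end

end Pool.Agent.Helper311.GB.J9389

namespace Pool.Agent.Helper311.GB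

alias psh_log := J9389.psh_log

end Pool.Agent.Helper311.GB

namespace Pool.Agent.Helper311.GB.J9390

noncomputable section

theorem green_ge (n : ℕ) (Ω : Set (EuclideanSpace ℂ (Fin n))) (w z : EuclideanSpace ℂ (Fin n))
    (r : ℝ) (hr : 0 < r) (hΩ : Ω ⊆ Metric.ball w r) (hzw : z ≠ w) :
    ((Real.log (‖z - w‖ / r) : ℝ) : EReal) ≤ green Ω w z := by
  classical
  apply le_sSup
  refine ⟨_, psh_log n Ω w (Real.log r), ?_, ⟨-Real.log r, ?_⟩, ?_⟩
  · intro s hs
    by_cases h : s = w
    · simp [h]
    · simp only [h, if_false]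
      have h1 : ‖s - w‖ < r := by
        have := hΩ hs
        rwa [Metric.mem_ball, dist_eq_norm] at this
      have h2 : 0 < ‖s - w‖ := norm_pos_iff.mpr (sub_ne_zero.mpr h)
      have h3 : Real.log ‖s - w‖ ≤ Real.log r := Real.log_le_log h2 h1.le
      have h4 : Real.log ‖s - w‖ - Real.log r ≤ 0 := by linarith
      exact_mod_cast h4
  · intro s _ h
    simp only [h, if_false]
    rw [sub_eq_add_neg]
  · simp only [hzw, if_false]
    rw [Real.log_div (norm_pos_iff.mpr (sub_ne_zero.mpr hzw)).ne' hr.ne']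

end

end Pool.Agent.Helper311.GB.J9390

namespace Pool.Agent.Helper311.GB

alias green_ge := J9390.green_ge

end Pool.Agent.Helper311.GB
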